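import Mathlib

/-!
# Root vectors of the point-restart Laplacian: linear algebra on the fibres
-/

set_option autoImplicit false

open Finset

namespace Pool.Agent.R945.RB

/-- the sequence `U + β j + V` is determined by `P + Q` consecutive values -/
lemma fiber_inj {P Q : ℕ} (hP : 0 < P) (hQ : 0 < Q) (hc : Nat.Coprime P Q)
    (U V : ℕ → ℝ) (β : ℝ) (hU : ∀ j, U (j + P) = U j) (hV : ∀ j, V (j + Q) = V j)
    (hs : ∑ j ∈ range Q, V j = 0) (h0 : ∀ j < P + Q, U j + β * j + V j = 0) :
    (∀ j, U j = 0) ∧ β = 0 ∧ (∀ j, V j = 0) := by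
  have hw : ∀ j, U j + β * j + V j = 0 := by
    intro j
    induction j using Nat.strong_induction_on with
    | _ j ih =>
      rcases lt_or_ge j (P + Q) with h | h
      · exact h0 j h
      · obtain ⟨i, rfl⟩ : ∃ i, j = i + P + Q := ⟨j - P - Q, by omega⟩
        have h1 := ih i (by omega)
        have h2 := ih (i + P) (by omega)
        have h3 := ih (i + Q) (by omega)
        have e1 : U (i + P + Q) = U (i + Q) := by
          have := hU (i + Q)
          rw [← this]; congr 1; ring
        have e2 : V (i + P + Q) = V (i + P) := hV (i + P)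
        have e3 := hU i
        have e4 := hV i
        push_cast at h1 h2 h3 ⊢
        rw [e1, e2]
        rw [e3] at h2
        rw [e4] at h3
        linarith
  have hUP : ∀ k j, U (j + k * P) = U j := by
    intro k
    induction k with
    | zero => intro j; simp
    | succ k ih =>
      intro j
      have : j + (k + 1) * P = j + k * P + P := by ring
      rw [this, hU, ih]
  have hVQ : ∀ k j, V (j + k * Q) = V j := by
    intro k
    induction k with
    | zero => intro j; simp
    | succ k ih =>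
      intro j
      have : j + (k + 1) * Q = j + k * Q + Q := by ring
      rw [this, hV, ih]
  have hβ : β = 0 := by
    have h1 := hw 0
    have h2 := hw (P * Q)
    have e1 : U (P * Q) = U 0 := by
      have := hUP Q 0
      rwa [Nat.zero_add, mul_comm] at this
    have e2 : V (P * Q) = V 0 := by
      have := hVQ P 0
      rwa [Nat.zero_add] at this
    rw [e1, e2] at h2
    push_cast at h1 h2
    have h3 : β * ((P : ℝ) * Q) = 0 := by linarith
    have h4 : (P : ℝ) * Q ≠ 0 := by positivity
    exact (mul_eq_zero.mp h3).resolve_right h4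
  subst hβ
  have hUV : ∀ j, U j = - V j := fun j => by
    have := hw j
    linarith
  have hVP : ∀ j, V (j + P) = V j := by
    intro j
    have h1 := hU j
    rw [hUV, hUV j] at h1
    linarith
  have hVP' : ∀ k j, V (j + k * P) = V j := by
    intro k
    induction k with
    | zero => intro j; simp
    | succ k ih =>
      intro j
      have : j + (k + 1) * P = j + k * P + P := by ring
      rw [this, hVP, ih]
  -- Bezout
  have hV1 : ∀ j, V (j + 1) = V j := by
    intro j
    rcases Nat.lt_or_ge 1 Q with hQ1 | hQ1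
    · obtain ⟨s, hs1⟩ := Nat.exists_mul_mod_eq_one_of_coprime hc hQ1
      obtain ⟨-, hs1⟩ := hs1
      have h1 : P * s = Q * (P * s / Q) + 1 := by
        have := Nat.div_add_mod (P * s) Q
        omega
      have h2 := hVP' s j
      have h3 := hVQ (P * s / Q) (j + 1)
      have h4 : j + s * P = j + 1 + (P * s / Q) * Q := by
        have : s * P = P * s := mul_comm _ _
        rw [this, h1]
        have : Q * (P * s / Q) = (P * s / Q) * Q := mul_comm _ _
        have h5 : (Q * (P * s / Q) + 1) / Q = P * s / Q := by rw [← h1]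
        rw [h5, this]; ring
      rw [h4] at h2
      rw [← h3, h2]
    · have : Q = 1 := by omega
      subst this
      exact hV j
  have hV0 : ∀ j, V j = V 0 := by
    intro j
    induction j with
    | zero => rfl
    | succ j ih => rw [hV1, ih]
  have h1 : ∑ j ∈ range Q, V j = Q * V 0 := by
    rw [sum_congr rfl fun j _ => hV0 j]
    simp
  rw [h1] at hs
  have h2 : V 0 = 0 := by
    rcases mul_eq_zero.mp hs with h | h
    · exact absurd h (by positivity)
    · exact h
  refine ⟨fun j => ?_, rfl, fun j => ?_⟩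
  · rw [hUV, hV0, h2, neg_zero]
  · rw [hV0, h2]

/-- the fibre map -/
def fib (P Q : ℕ) (hP : 0 < P) (hQ : 0 < Q) :
    ((Fin P → ℝ) × ℝ × (Fin Q → ℝ)) →ₗ[ℝ] ((Fin (P + Q) → ℝ) × ℝ) where
  toFun x := (fun j => x.1 ⟨j % P, Nat.mod_lt _ hP⟩ + x.2.1 * (j : ℕ) +
    x.2.2 ⟨j % Q, Nat.mod_lt _ hQ⟩, ∑ i, x.2.2 i)
  map_add' x y := by
    ext j
    · simp; ring
    · simp [sum_add_distrib]
  map_smul' c x := by
    ext j
    · simp; ring
    · simp [mul_sum]

lemma fib_ker {P Q : ℕ} (hP : 0 < P) (hQ : 0 < Q) (hc : Nat.Coprime P Q) :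
    LinearMap.ker (fib P Q hP hQ) = ⊥ := by
  rw [LinearMap.ker_eq_bot']
  rintro ⟨u, β, v⟩ h
  have h1 : ∀ j : Fin (P + Q), u ⟨j % P, Nat.mod_lt _ hP⟩ + β * (j : ℕ) +
      v ⟨j % Q, Nat.mod_lt _ hQ⟩ = 0 := fun j => congrFun (congrArg Prod.fst h) j
  have h2 : ∑ i, v i = 0 := congrArg Prod.snd h
  obtain ⟨hu, hβ, hv⟩ := fiber_inj hP hQ hc (fun j => u ⟨j % P, Nat.mod_lt _ hP⟩)
    (fun j => v ⟨j % Q, Nat.mod_lt _ hQ⟩) β (fun j => by simp) (fun j => by simp)
    (by
      rw [← Fin.sum_univ_eq_sum_range (fun j => v ⟨j % Q, Nat.mod_lt _ hQ⟩) Q, ← h2]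
      refine sum_congr rfl fun i _ => ?_
      congr 1
      ext
      simp [Nat.mod_eq_of_lt i.2])
    (fun j hj => h1 ⟨j, hj⟩)
  have hu' : u = 0 := by
    ext i
    have := hu i
    simpa [Nat.mod_eq_of_lt i.2] using this
  have hv' : v = 0 := by
    ext i
    have := hv i
    simpa [Nat.mod_eq_of_lt i.2] using this
  rw [hu', hβ, hv']
  rfl

/-- quantitative form -/
theorem fiber_lower {P Q : ℕ} (hP : 0 < P) (hQ : 0 < Q) (hc : Nat.Coprime P Q) :
    ∃ c : ℝ, 0 < c ∧ ∀ (U V : ℕ → ℝ) (β : ℝ), (∀ j, U (j + P) = U j) → (∀ j, V (j + Q) = V j) →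
      ∑ j ∈ range Q, V j = 0 →
      c * (∑ j ∈ range P, U j ^ 2 + β ^ 2 + ∑ j ∈ range Q, V j ^ 2) ≤
        ∑ j ∈ range (P + Q), (U j + β * j + V j) ^ 2 := by
  obtain ⟨K, hK, hanti⟩ := (fib P Q hP hQ).exists_antilipschitzWith (fib_ker hP hQ hc)
  have hbound : ∀ x, ‖x‖ ≤ K * ‖fib P Q hP hQ x‖ := fun x => by
    have := hanti.le_mul_dist x 0
    simpa using this
  have hK' : (0 : ℝ) < K := by exact_mod_cast hK
  refine ⟨((P + Q + 1) * K ^ 2)⁻¹, by positivity, fun U V β hU hV hs => ?_⟩
  set x : (Fin P → ℝ) × ℝ × (Fin Q → ℝ) := (fun i => U i, β, fun i => V i) with hx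
  have hmodU : ∀ j : ℕ, U (j % P) = U j := by
    intro j
    conv_rhs => rw [← Nat.mod_add_div j P]
    generalize j / P = k
    induction k with
    | zero => simp
    | succ k ih =>
      have : j % P + P * (k + 1) = j % P + P * k + P := by ring
      rw [this, hU, ih]
  have hmodV : ∀ j : ℕ, V (j % Q) = V j := by
    intro j
    conv_rhs => rw [← Nat.mod_add_div j Q]
    generalize j / Q = k
    induction k with
    | zero => simp
    | succ k ih =>
      have : j % Q + Q * (k + 1) = j % Q + Q * k + Q := by ring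
      rw [this, hV, ih]
  set R := ∑ j ∈ range (P + Q), (U j + β * j + V j) ^ 2 with hR
  have hfx : ‖fib P Q hP hQ x‖ ^ 2 ≤ R := by
    have hR0 : 0 ≤ R := sum_nonneg fun _ _ => sq_nonneg _
    have h1 : ‖fib P Q hP hQ x‖ ≤ Real.sqrt R := by
      rw [Prod.norm_def]
      apply max_le
      · rw [pi_norm_le_iff_of_nonneg (Real.sqrt_nonneg _)]
        intro j
        rw [Real.norm_eq_abs]
        apply Real.abs_le_sqrt
        have e : (fib P Q hP hQ x).1 j = U j + β * (j : ℕ) + V j := by
          simp only [fib, hx, LinearMap.coe_mk, AddHom.coe_mk]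
          rw [hmodU, hmodV]
        rw [e, hR]
        exact single_le_sum (f := fun j : ℕ => (U j + β * j + V j) ^ 2)
          (fun _ _ => sq_nonneg _) (mem_range.mpr j.2)
      · have e : (fib P Q hP hQ x).2 = 0 := by
          simp only [fib, hx, LinearMap.coe_mk, AddHom.coe_mk]
          rw [Fin.sum_univ_eq_sum_range (fun j => V j) Q, hs]
        rw [e, norm_zero]
        exact Real.sqrt_nonneg _
    calc ‖fib P Q hP hQ x‖ ^ 2 ≤ Real.sqrt R ^ 2 := pow_le_pow_left₀ (norm_nonneg _) h1 2
      _ = R := Real.sq_sqrt hR0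
  have hx2 : ‖x‖ ^ 2 ≤ K ^ 2 * R := by
    calc ‖x‖ ^ 2 ≤ (K * ‖fib P Q hP hQ x‖) ^ 2 :=
          pow_le_pow_left₀ (norm_nonneg _) (hbound x) 2
      _ = K ^ 2 * ‖fib P Q hP hQ x‖ ^ 2 := by ring
      _ ≤ _ := mul_le_mul_of_nonneg_left hfx (by positivity)
  have hU2 : ∑ j ∈ range P, U j ^ 2 ≤ P * ‖x‖ ^ 2 := by
    rw [← Fin.sum_univ_eq_sum_range (fun j => U j ^ 2) P]
    calc ∑ i : Fin P, U i ^ 2 ≤ ∑ i : Fin P, ‖x‖ ^ 2 := by
          refine sum_le_sum fun i _ => ?_
          have h1 : |U i| ≤ ‖x‖ := by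
            have h2 := norm_le_pi_norm (fun i : Fin P => U i) i
            exact h2.trans (norm_fst_le x)
          rw [← sq_abs]
          exact pow_le_pow_left₀ (abs_nonneg _) h1 2
      _ = _ := by simp
  have hV2 : ∑ j ∈ range Q, V j ^ 2 ≤ Q * ‖x‖ ^ 2 := by
    rw [← Fin.sum_univ_eq_sum_range (fun j => V j ^ 2) Q]
    calc ∑ i : Fin Q, V i ^ 2 ≤ ∑ i : Fin Q, ‖x‖ ^ 2 := by
          refine sum_le_sum fun i _ => ?_
          have h1 : |V i| ≤ ‖x‖ := by
            have h2 := norm_le_pi_norm (fun i : Fin Q => V i) i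
            exact h2.trans ((norm_snd_le x.2).trans (norm_snd_le x))
          rw [← sq_abs]
          exact pow_le_pow_left₀ (abs_nonneg _) h1 2
      _ = _ := by simp
  have hβ2 : β ^ 2 ≤ ‖x‖ ^ 2 := by
    have h1 : |β| ≤ ‖x‖ := (norm_fst_le x.2).trans (norm_snd_le x)
    rw [← sq_abs]
    exact pow_le_pow_left₀ (abs_nonneg _) h1 2
  rw [inv_mul_le_iff₀ (by positivity)]
  calc ∑ j ∈ range P, U j ^ 2 + β ^ 2 + ∑ j ∈ range Q, V j ^ 2
      ≤ (P + Q + 1) * ‖x‖ ^ 2 := by linarith
    _ ≤ (P + Q + 1) * (K ^ 2 * R) := mul_le_mul_of_nonneg_left hx2 (by positivity)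
    _ = _ := by ring

open Polynomial in
/-- a vector of `P + Q` complex numbers orthogonal to all `P`-periodic and `Q`-periodic
characters and to the linear sequence vanishes -/
theorem fiber_dual {P Q : ℕ} (hP : 0 < P) (hQ : 0 < Q) (hc : Nat.Coprime P Q) (g : ℕ → ℂ)
    (h1 : ∀ m : ℕ, ∑ j ∈ range (P + Q), g j * (Complex.exp (2 * Real.pi * Complex.I / P) ^ m) ^ j = 0)
    (h2 : ∀ m : ℕ, ∑ j ∈ range (P + Q), g j * (Complex.exp (2 * Real.pi * Complex.I / Q) ^ m) ^ j = 0)
    (h3 : ∑ j ∈ range (P + Q), (j : ℂ) * g j = 0) : ∀ j < P + Q, g j = 0 := by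
  set ζ := Complex.exp (2 * Real.pi * Complex.I / P) with hζ
  set ξ := Complex.exp (2 * Real.pi * Complex.I / Q) with hξ
  have pζ : IsPrimitiveRoot ζ P := Complex.isPrimitiveRoot_exp P hP.ne'
  have pξ : IsPrimitiveRoot ξ Q := Complex.isPrimitiveRoot_exp Q hQ.ne'
  set p : ℂ[X] := ∑ j ∈ range (P + Q), C (g j) * X ^ j with hp
  have hev : ∀ z, p.eval z = ∑ j ∈ range (P + Q), g j * z ^ j := by
    intro z
    simp [hp, eval_finsetSum]
  have hdeg : p.degree < ((P + Q : ℕ) : WithBot ℕ) := by
    rw [hp]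
    refine (degree_sum_le _ _).trans_lt ?_
    rw [Finset.sup_lt_iff (WithBot.bot_lt_coe _)]
    intro j hj
    refine (degree_C_mul_X_pow_le j _).trans_lt ?_
    exact_mod_cast mem_range.mp hj
  have hmon : (X ^ P - 1 : ℂ[X]).Monic := monic_X_pow_sub_C 1 hP.ne'
  have hmdeg : (X ^ P - 1 : ℂ[X]).degree = (P : WithBot ℕ) := degree_X_pow_sub_C hP 1
  have hr : p %ₘ (X ^ P - 1) = 0 := by
    refine Polynomial.eq_zero_of_degree_lt_of_eval_index_eq_zero (s := range P)
      (v := fun i => ζ ^ i) ?_ ?_ ?_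
    · intro i hi j hj hij
      exact pζ.pow_inj (by simpa using hi) (by simpa using hj) hij
    · rw [card_range]
      have := degree_modByMonic_lt p hmon
      rwa [hmdeg] at this
    · intro i _
      have e := modByMonic_add_div p (X ^ P - 1 : ℂ[X])
      have e2 := congrArg (eval (ζ ^ i)) e
      rw [eval_add, eval_mul, hev, h1 i] at e2
      have e3 : (X ^ P - 1 : ℂ[X]).eval (ζ ^ i) = 0 := by
        simp only [eval_sub, eval_pow, eval_X, eval_one]
        rw [← pow_mul, mul_comm i P, pow_mul, pζ.pow_eq_one, one_pow, sub_self]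
      rw [e3, zero_mul, add_zero] at e2
      exact e2
  obtain ⟨q, hq⟩ : (X ^ P - 1 : ℂ[X]) ∣ p := (modByMonic_eq_zero_iff_dvd hmon).mp hr
  have hp0 : p = 0 := by
    by_contra hne
    have hq0 : q ≠ 0 := by
      rintro rfl
      rw [mul_zero] at hq
      exact hne hq
    have hqd : q.degree < (Q : WithBot ℕ) := by
      have h4 : p.degree = (P : WithBot ℕ) + q.degree := by
        rw [hq, degree_mul, hmdeg]
      rw [h4, degree_eq_natDegree hq0] at hdeg
      rw [degree_eq_natDegree hq0]
      have h5 : ((P + q.natDegree : ℕ) : WithBot ℕ) < ((P + Q : ℕ) : WithBot ℕ) := by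
        exact_mod_cast hdeg
      have h6 : P + q.natDegree < P + Q := by exact_mod_cast h5
      have h7 : q.natDegree < Q := by omega
      exact_mod_cast h7
    apply hq0
    refine Polynomial.eq_zero_of_degree_lt_of_eval_index_eq_zero (s := range Q)
      (v := fun i => ξ ^ i) ?_ ?_ ?_
    · intro i hi j hj hij
      exact pξ.pow_inj (by simpa using hi) (by simpa using hj) hij
    · rw [card_range]; exact hqd
    · intro i hi
      rcases Nat.eq_zero_or_pos i with rfl | hipos
      · -- the double root at 1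
        rw [pow_zero]
        have h5 : p.derivative.eval 1 = 0 := by
          rw [hp, derivative_sum, eval_finsetSum]
          simp only [derivative_C_mul_X_pow, eval_mul, eval_C, eval_pow, eval_X, one_pow, mul_one]
          rw [← h3]
          exact sum_congr rfl fun j _ => mul_comm _ _
        rw [hq, derivative_mul] at h5
        simp only [eval_add, eval_mul, derivative_sub, derivative_X_pow, derivative_one, sub_zero,
          eval_C, eval_pow, eval_X, one_pow, mul_one, eval_sub, eval_one, sub_self, zero_mul,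
          add_zero] at h5
        have hPne : (P : ℂ) ≠ 0 := by exact_mod_cast hP.ne'
        simpa [hPne] using h5
      · have e1 : p.eval (ξ ^ i) = 0 := by rw [hev, h2 i]
        rw [hq, eval_mul] at e1
        rcases mul_eq_zero.mp e1 with h | h
        · exfalso
          simp only [eval_sub, eval_pow, eval_X, eval_one] at h
          have h6 : ξ ^ (i * P) = 1 := by
            rw [pow_mul]; linear_combination h
          have h7 : Q ∣ i * P := (pξ.pow_eq_one_iff_dvd _).mp h6
          have h8 : Q ∣ i := (Nat.Coprime.dvd_of_dvd_mul_right hc.symm h7)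
          have h9 := Nat.le_of_dvd hipos h8
          have := mem_range.mp hi
          omega
        · exact h
  intro j hj
  have h4 : p.coeff j = g j := by
    rw [hp, finsetSum_coeff]
    simp only [coeff_C_mul, coeff_X_pow, mul_ite, mul_one, mul_zero]
    rw [Finset.sum_ite_eq]
    simp [hj]
  rw [← h4, hp0, coeff_zero]

end Pool.Agent.R945.RB
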