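import Pool.Agent.R945.RB.A

/-!
# Root vectors of the point-restart Laplacian: trigonometric integrals
-/

set_option autoImplicit false

open Finset MeasureTheory intervalIntegral Real

namespace Pool.Agent.R945.RB

/-- Parseval for an orthogonal family of continuous functions -/
lemma orth_sum {ι : Type*} [DecidableEq ι] (F : Finset ι) (φ : ι → ℝ → ℝ)
    (hc : ∀ i, Continuous (φ i)) (s t : ℝ)
    (h : ∀ i ∈ F, ∀ j ∈ F, i ≠ j → ∫ x in s..t, φ i x * φ j x = 0) (r : ι → ℝ) :
    ∫ x in s..t, (∑ i ∈ F, r i * φ i x) ^ 2 = ∑ i ∈ F, r i ^ 2 * ∫ x in s..t, φ i x ^ 2 := by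
  have e : ∀ x, (∑ i ∈ F, r i * φ i x) ^ 2 =
      ∑ i ∈ F, ∑ j ∈ F, r i * r j * (φ i x * φ j x) := by
    intro x
    rw [sq, sum_mul_sum]
    refine sum_congr rfl fun i _ => sum_congr rfl fun j _ => ?_
    ring
  simp_rw [e]
  rw [intervalIntegral.integral_finsetSum]
  · refine sum_congr rfl fun i hi => ?_
    rw [intervalIntegral.integral_finsetSum]
    · rw [sum_eq_single i]
      · rw [intervalIntegral.integral_const_mul]
        congr 1
        · ring
        · refine integral_congr fun x _ => ?_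
          ring
      · intro j hj hji
        rw [intervalIntegral.integral_const_mul, h i hi j hj (Ne.symm hji), mul_zero]
      · intro h'; exact absurd hi h'
    · intro j _
      exact ((((hc i).mul (hc j)).const_mul _ : Continuous fun x => r i * r j * (φ i x * φ j x))).intervalIntegrable _ _
  · intro i _
    refine Continuous.intervalIntegrable ?_ _ _
    refine continuous_finsetSum _ fun j _ => ?_
    exact ((hc i).mul (hc j)).const_mul _

lemma int_cos {c s t : ℝ} (hc : c ≠ 0) (k : ℤ) (h : c * (t - s) = 2 * π * k) :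
    ∫ x in s..t, cos (c * x) = 0 := by
  rw [intervalIntegral.integral_comp_mul_left (fun x => cos x) hc, integral_cos]
  have e : c * t = c * s + k * (2 * π) := by linear_combination h
  rw [e, sin_add_int_mul_two_pi, sub_self, smul_zero]

lemma orth_cos {α β s t : ℝ} (h1 : α - β ≠ 0) (h2 : α + β ≠ 0) (k l : ℤ)
    (hk : (α - β) * (t - s) = 2 * π * k) (hl : (α + β) * (t - s) = 2 * π * l) :
    ∫ x in s..t, cos (α * x) * cos (β * x) = 0 := by
  have e : ∀ x, cos (α * x) * cos (β * x) = (cos ((α - β) * x) + cos ((α + β) * x)) / 2 := by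
    intro x
    rw [sub_mul, add_mul, cos_sub, cos_add]; ring
  simp_rw [e]
  rw [intervalIntegral.integral_div, intervalIntegral.integral_add, int_cos h1 k hk,
    int_cos h2 l hl]
  · simp
  · exact (Continuous.intervalIntegrable (by fun_prop) _ _)
  · exact (Continuous.intervalIntegrable (by fun_prop) _ _)

lemma orth_sin {α β s t : ℝ} (h1 : α - β ≠ 0) (h2 : α + β ≠ 0) (k l : ℤ)
    (hk : (α - β) * (t - s) = 2 * π * k) (hl : (α + β) * (t - s) = 2 * π * l) :
    ∫ x in s..t, sin (α * x) * sin (β * x) = 0 := by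
  have e : ∀ x, sin (α * x) * sin (β * x) = (cos ((α - β) * x) - cos ((α + β) * x)) / 2 := by
    intro x
    rw [sub_mul, add_mul, cos_sub, cos_add]; ring
  simp_rw [e]
  rw [intervalIntegral.integral_div, intervalIntegral.integral_sub, int_cos h1 k hk,
    int_cos h2 l hl]
  · simp
  · exact (Continuous.intervalIntegrable (by fun_prop) _ _)
  · exact (Continuous.intervalIntegrable (by fun_prop) _ _)

lemma sq_cos {α s t : ℝ} (h1 : α ≠ 0) (k : ℤ) (hk : 2 * α * (t - s) = 2 * π * k) :
    ∫ x in s..t, cos (α * x) ^ 2 = (t - s) / 2 := by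
  have e : ∀ x, cos (α * x) ^ 2 = (1 + cos (2 * α * x)) / 2 := by
    intro x
    have : 2 * α * x = 2 * (α * x) := by ring
    rw [this, cos_two_mul]; ring
  simp_rw [e]
  rw [intervalIntegral.integral_div, intervalIntegral.integral_add, int_cos (by simpa using h1) k hk]
  · simp
  · simp
  · exact (Continuous.intervalIntegrable (by fun_prop) _ _)

lemma sq_sin {α s t : ℝ} (h1 : α ≠ 0) (k : ℤ) (hk : 2 * α * (t - s) = 2 * π * k) :
    ∫ x in s..t, sin (α * x) ^ 2 = (t - s) / 2 := by
  have e : ∀ x, sin (α * x) ^ 2 = (1 - cos (2 * α * x)) / 2 := by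
    intro x
    have : 2 * α * x = 2 * (α * x) := by ring
    rw [this, cos_two_mul, ← sin_sq_add_cos_sq (α * x)]; ring
  simp_rw [e]
  rw [intervalIntegral.integral_div, intervalIntegral.integral_sub, int_cos (by simpa using h1) k hk]
  · simp
  · simp
  · exact (Continuous.intervalIntegrable (by fun_prop) _ _)

section families

variable {w l : ℝ} (hw : 0 < w) (k : ℕ) (hk : w * l = 2 * π * k) (s : ℝ) (F : Finset ℕ) (a : ℕ → ℝ)

include hw hk

lemma cos_family : ∫ x in s..(s + l), (∑ m ∈ F, a m * cos (w * m * x)) ^ 2 =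
    ∑ m ∈ F, a m ^ 2 * (if m = 0 then l else l / 2) := by
  rw [orth_sum F (fun m x => cos (w * m * x)) (fun i => by fun_prop) s (s + l) ?_ a]
  · refine sum_congr rfl fun m _ => ?_
    congr 1
    split_ifs with h
    · simp [h]
    · have hm : (m : ℝ) ≠ 0 := by exact_mod_cast h
      rw [sq_cos (mul_ne_zero hw.ne' hm) (2 * m * k) (by push_cast; linear_combination 2 * (m : ℝ) * hk)]
      ring
  · intro i _ j _ hij
    have hij' : (i : ℝ) ≠ j := by exact_mod_cast hij
    refine orth_cos ?_ ?_ (((i : ℤ) - j) * k) (((i : ℤ) + j) * k) ?_ ?_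
    · rw [← mul_sub]; exact mul_ne_zero hw.ne' (sub_ne_zero.mpr hij')
    · rw [← mul_add]; refine mul_ne_zero hw.ne' ?_
      have : 0 < i + j := by omega
      have : (0 : ℝ) < (i : ℝ) + j := by exact_mod_cast this
      exact this.ne'
    · push_cast; linear_combination ((i : ℝ) - j) * hk
    · push_cast; linear_combination ((i : ℝ) + j) * hk

lemma sin_family : ∫ x in s..(s + l), (∑ m ∈ F, a m * sin (w * (m + 1 : ℕ) * x)) ^ 2 =
    (l / 2) * ∑ m ∈ F, a m ^ 2 := by
  rw [orth_sum F (fun m x => sin (w * (m + 1 : ℕ) * x)) (fun i => by fun_prop) s (s + l) ?_ a,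
    mul_sum]
  · refine sum_congr rfl fun m _ => ?_
    have hm : ((m + 1 : ℕ) : ℝ) ≠ 0 := by positivity
    rw [sq_sin (mul_ne_zero hw.ne' hm) (2 * (m + 1) * k)
      (by push_cast; linear_combination 2 * ((m : ℝ) + 1) * hk)]
    ring
  · intro i _ j _ hij
    have hij' : (i : ℝ) ≠ j := by exact_mod_cast hij
    refine orth_sin ?_ ?_ (((i : ℤ) - j) * k) (((i : ℤ) + j + 2) * k) ?_ ?_
    · rw [← mul_sub]; refine mul_ne_zero hw.ne' (sub_ne_zero.mpr ?_)
      exact_mod_cast fun h : i + 1 = j + 1 => hij (by omega)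
    · rw [← mul_add]; positivity
    · push_cast; linear_combination ((i : ℝ) - j) * hk
    · push_cast; linear_combination ((i : ℝ) + j + 2) * hk

lemma cos_upper (hl : 0 ≤ l) : ∫ x in s..(s + l), (∑ m ∈ F, a m * cos (w * m * x)) ^ 2 ≤
    l * ∑ m ∈ F, a m ^ 2 := by
  rw [cos_family hw k hk, mul_sum]
  refine sum_le_sum fun m _ => ?_
  rw [mul_comm]
  refine mul_le_mul_of_nonneg_right ?_ (sq_nonneg _)
  split_ifs <;> linarith

lemma cos_lower (hl : 0 ≤ l) : (l / 2) * ∑ m ∈ F, a m ^ 2 ≤
    ∫ x in s..(s + l), (∑ m ∈ F, a m * cos (w * m * x)) ^ 2 := by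
  rw [cos_family hw k hk, mul_sum]
  refine sum_le_sum fun m _ => ?_
  rw [mul_comm]
  refine mul_le_mul_of_nonneg_left ?_ (sq_nonneg _)
  split_ifs <;> linarith

end families

lemma int_split {f : ℝ → ℝ} (hf : Continuous f) (s d : ℝ) (N : ℕ) :
    ∫ x in s..(s + N * d), f x = ∫ y in s..(s + d), ∑ j ∈ range N, f (y + j * d) := by
  induction N with
  | zero => simp
  | succ N ih =>
    have h1 : ∫ x in s..(s + (N + 1 : ℕ) * d), f x = (∫ x in s..(s + N * d), f x) +
        ∫ x in (s + N * d)..(s + (N + 1 : ℕ) * d), f x :=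
      (integral_add_adjacent_intervals (hf.intervalIntegrable _ _) (hf.intervalIntegrable _ _)).symm
    have h2 : ∫ x in (s + N * d)..(s + (N + 1 : ℕ) * d), f x =
        ∫ y in s..(s + d), f (y + N * d) := by
      rw [intervalIntegral.integral_comp_add_right (fun x => f x)]
      congr 1
      push_cast; ring
    rw [h1, h2, ih]
    simp_rw [sum_range_succ]
    rw [intervalIntegral.integral_add]
    · refine Continuous.intervalIntegrable ?_ _ _
      exact continuous_finsetSum _ fun j _ => by fun_prop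
    · refine Continuous.intervalIntegrable ?_ _ _
      fun_prop

/-- the sum of the cosines over an arithmetic progression -/
lemma sum_cos_zero {Q : ℕ} (hQ : 0 < Q) {m : ℕ} (hm : ¬ Q ∣ m) (θ : ℝ) :
    ∑ j ∈ range Q, cos (θ + 2 * π * m * j / Q) = 0 := by
  have hQ' : (Q : ℂ) ≠ 0 := by exact_mod_cast hQ.ne'
  have key : ∑ j ∈ range Q, Complex.exp (Complex.I * (θ + 2 * π * m * j / Q)) = 0 := by
    set z := Complex.exp (2 * π * Complex.I / Q) ^ m with hz
    have pξ : IsPrimitiveRoot (Complex.exp (2 * π * Complex.I / Q)) Q :=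
      Complex.isPrimitiveRoot_exp Q hQ.ne'
    have hz1 : z ≠ 1 := by
      intro h
      exact hm ((pξ.pow_eq_one_iff_dvd m).mp h)
    have hzQ : z ^ Q = 1 := by
      rw [hz, ← pow_mul, mul_comm m Q, pow_mul, pξ.pow_eq_one, one_pow]
    have e : ∀ j : ℕ, Complex.exp (Complex.I * (θ + 2 * π * m * j / Q)) =
        Complex.exp (Complex.I * θ) * z ^ j := by
      intro j
      rw [hz, ← pow_mul, ← Complex.exp_nat_mul, ← Complex.exp_add]
      congr 1
      push_cast
      field_simp
    simp_rw [e]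
    rw [← mul_sum]
    have h1 : (∑ i ∈ range Q, z ^ i) * (z - 1) = 0 := by
      rw [geom_sum_mul, hzQ, sub_self]
    rcases mul_eq_zero.mp h1 with h | h
    · rw [h, mul_zero]
    · exact absurd (sub_eq_zero.mp h) hz1
  have h2 := congrArg Complex.re key
  rw [Complex.re_sum, Complex.zero_re] at h2
  rw [← h2]
  refine sum_congr rfl fun j _ => ?_
  have : Complex.I * (θ + 2 * π * m * j / Q) = ((θ + 2 * π * m * j / Q : ℝ) : ℂ) * Complex.I := by
    push_cast; ring
  rw [this, Complex.exp_ofReal_mul_I_re]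

end Pool.Agent.R945.RB
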