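import Pool.Agent.R945.RB.B

/-!
# Root vectors of the point-restart Laplacian: lower bound for the even part
-/

set_option autoImplicit false

open Finset MeasureTheory intervalIntegral Real

namespace Pool.Agent.R945.RB

section

variable (P Q : ℕ)

/-- frequency unit of the `P` family -/
noncomputable def wP : ℝ := 2 * (P + Q) / P

/-- frequency unit of the `Q` family -/
noncomputable def wQ : ℝ := 2 * (P + Q) / Q

/-- frequency unit of the common family -/
noncomputable def w0 : ℝ := 2 * (P + Q)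

/-- the step -/
noncomputable def dl : ℝ := π / (P + Q)

variable {P Q} (hP : 0 < P) (hQ : 0 < Q)

include hP hQ

lemma wP_pos : 0 < wP P Q := by unfold wP; positivity
lemma wQ_pos : 0 < wQ P Q := by unfold wQ; positivity
omit hQ in
lemma w0_pos : 0 < w0 P Q := by unfold w0; positivity
omit hQ in
lemma dl_pos : 0 < dl P Q := by unfold dl; positivity

omit hP hQ in
lemma dl_mul (hP : 0 < P) : ((P + Q : ℕ) : ℝ) * dl P Q = π := by
  unfold dl
  have : (P : ℝ) + Q ≠ 0 := by positivity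
  push_cast
  field_simp

omit hQ in
lemma wP_dl : wP P Q * dl P Q = 2 * π / P := by
  unfold wP dl
  have : (P : ℝ) + Q ≠ 0 := by positivity
  field_simp

omit hP in
lemma wQ_dl : wQ P Q * dl P Q = 2 * π / Q := by
  unfold wQ dl
  have : (P : ℝ) + Q ≠ 0 := by positivity
  field_simp

omit hQ in
lemma w0_dl : w0 P Q * dl P Q = 2 * π := by
  unfold w0 dl
  have : (P : ℝ) + Q ≠ 0 := by positivity
  field_simp

/-- the `P`-periodic part -/
noncomputable def fU (P Q : ℕ) (F : Finset ℕ) (a : ℕ → ℝ) (x : ℝ) : ℝ :=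
  ∑ m ∈ F, a m * cos (wP P Q * m * x)

/-- the `Q`-periodic part -/
noncomputable def fV (P Q : ℕ) (F : Finset ℕ) (b : ℕ → ℝ) (x : ℝ) : ℝ :=
  ∑ m ∈ F, b m * cos (wQ P Q * m * x)

/-- the common periodic part -/
noncomputable def fW (P Q : ℕ) (F : Finset ℕ) (d : ℕ → ℝ) (x : ℝ) : ℝ :=
  ∑ m ∈ F, d m * sin (w0 P Q * (m + 1 : ℕ) * x)

omit hP hQ in
lemma fU_cont (F : Finset ℕ) (a : ℕ → ℝ) : Continuous (fU P Q F a) := by
  unfold fU; fun_prop

omit hP hQ in
lemma fV_cont (F : Finset ℕ) (a : ℕ → ℝ) : Continuous (fV P Q F a) := by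
  unfold fV; fun_prop

omit hP hQ in
lemma fW_cont (F : Finset ℕ) (a : ℕ → ℝ) : Continuous (fW P Q F a) := by
  unfold fW; fun_prop

omit hQ in
lemma fU_per (F : Finset ℕ) (a : ℕ → ℝ) (y : ℝ) (j : ℕ) :
    fU P Q F a (y + (j + P : ℕ) * dl P Q) = fU P Q F a (y + j * dl P Q) := by
  unfold fU
  refine sum_congr rfl fun m _ => ?_
  congr 1
  have hP' : (P : ℝ) ≠ 0 := by positivity
  have e : wP P Q * m * (y + (j + P : ℕ) * dl P Q) = wP P Q * m * (y + j * dl P Q) + m * (2 * π) := by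
    have h := wP_dl (Q := Q) hP
    have h2 : wP P Q * dl P Q * P = 2 * π := by rw [h]; field_simp
    push_cast
    linear_combination (m : ℝ) * h2
  rw [e, cos_add_nat_mul_two_pi]

omit hP in
lemma fV_per (F : Finset ℕ) (a : ℕ → ℝ) (y : ℝ) (j : ℕ) :
    fV P Q F a (y + (j + Q : ℕ) * dl P Q) = fV P Q F a (y + j * dl P Q) := by
  unfold fV
  refine sum_congr rfl fun m _ => ?_
  congr 1
  have hQ' : (Q : ℝ) ≠ 0 := by positivity
  have e : wQ P Q * m * (y + (j + Q : ℕ) * dl P Q) = wQ P Q * m * (y + j * dl P Q) + m * (2 * π) := by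
    have h := wQ_dl (P := P) hQ
    have h2 : wQ P Q * dl P Q * Q = 2 * π := by rw [h]; field_simp
    push_cast
    linear_combination (m : ℝ) * h2
  rw [e, cos_add_nat_mul_two_pi]

omit hQ in
lemma fW_per (F : Finset ℕ) (a : ℕ → ℝ) (y : ℝ) (j : ℕ) :
    fW P Q F a (y + j * dl P Q) = fW P Q F a y := by
  unfold fW
  refine sum_congr rfl fun m _ => ?_
  congr 1
  have e : w0 P Q * (m + 1 : ℕ) * (y + j * dl P Q) = w0 P Q * (m + 1 : ℕ) * y +
      ((m + 1) * j : ℕ) * (2 * π) := by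
    have h := w0_dl (Q := Q) hP
    push_cast
    linear_combination ((m : ℝ) + 1) * j * h
  rw [e, sin_add_nat_mul_two_pi]

omit hP in
lemma fV_sum (F : Finset ℕ) (hF : ∀ m ∈ F, ¬ Q ∣ m) (a : ℕ → ℝ) (y : ℝ) :
    ∑ j ∈ range Q, fV P Q F a (y + j * dl P Q) = 0 := by
  unfold fV
  rw [sum_comm]
  refine sum_eq_zero fun m hm => ?_
  rw [← mul_sum]
  have h := sum_cos_zero hQ (hF m hm) (wQ P Q * m * y)
  have e : ∀ j : ℕ, wQ P Q * m * (y + j * dl P Q) = wQ P Q * m * y + 2 * π * m * j / Q := by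
    intro j
    have h := wQ_dl (P := P) hQ
    have : wQ P Q * m * (y + j * dl P Q) = wQ P Q * m * y + m * j * (wQ P Q * dl P Q) := by ring
    rw [this, h]; ring
  simp_rw [e]
  rw [h, mul_zero]

/-- lower bound for the even part -/
theorem even_lower (hc : Nat.Coprime P Q) : ∃ c : ℝ, 0 < c ∧ ∀ (F₁ F₂ F₃ : Finset ℕ)
    (a b d : ℕ → ℝ), (∀ m ∈ F₂, ¬ Q ∣ m) →
    c * (∑ m ∈ F₁, a m ^ 2 + ∑ m ∈ F₂, b m ^ 2 + ∑ m ∈ F₃, d m ^ 2) ≤
      ∫ x in (-(π / 2))..(π / 2), (fU P Q F₁ a x + fV P Q F₂ b x + x * fW P Q F₃ d x) ^ 2 := by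
  obtain ⟨c, hc0, hfib⟩ := fiber_lower hP hQ hc
  set δ := dl P Q with hδ
  have hδ0 : 0 < δ := dl_pos hP
  have hNδ : ((P + Q : ℕ) : ℝ) * δ = π := dl_mul hP
  have hP' : (0 : ℝ) < P := by exact_mod_cast hP
  have hQ' : (0 : ℝ) < Q := by exact_mod_cast hQ
  set s : ℝ := -(π / 2) with hs
  have hse : π / 2 = s + ((P + Q : ℕ) : ℝ) * δ := by rw [hNδ, hs]; ring
  -- the constants
  set K₃ : ℝ := 2 / (c * δ ^ 3) with hK3
  set K₂ : ℝ := 2 / (c * (Q * δ)) with hK2
  set K₁ : ℝ := 2 / (P * δ) * (2 / c + 2 * P * (π / 2) ^ 2 / (c * δ ^ 2)) with hK1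
  refine ⟨(K₁ + K₂ + K₃)⁻¹, by positivity, fun F₁ F₂ F₃ a b d hF => ?_⟩
  set U := fU P Q F₁ a with hU
  set V := fV P Q F₂ b with hV
  set W := fW P Q F₃ d with hW
  have cU : Continuous U := fU_cont _ _
  have cV : Continuous V := fV_cont _ _
  have cW : Continuous W := fW_cont _ _
  set f : ℝ → ℝ := fun x => (U x + V x + x * W x) ^ 2 with hf
  have cf : Continuous f := by rw [hf]; fun_prop
  set I := ∫ x in s..(π / 2), f x with hI
  have hI' : I = ∫ y in s..(s + δ), ∑ j ∈ range (P + Q), f (y + j * δ) := by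
    rw [hI, hse, int_split cf]
  have hsd : s ≤ s + δ := by linarith
  -- pointwise
  have hpt : ∀ y, c * (∑ j ∈ range P, (U (y + j * δ) + y * W y) ^ 2 + (δ * W y) ^ 2 +
      ∑ j ∈ range Q, V (y + j * δ) ^ 2) ≤ ∑ j ∈ range (P + Q), f (y + j * δ) := by
    intro y
    have h := hfib (fun j => U (y + j * δ) + y * W y) (fun j => V (y + j * δ)) (δ * W y)
      (fun j => by rw [hU, fU_per hP]) (fun j => by rw [hV, fV_per hQ])
      (fV_sum hQ F₂ hF b y)
    refine h.trans (le_of_eq ?_)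
    refine sum_congr rfl fun j _ => ?_
    have e : W (y + j * δ) = W y := fW_per hP F₃ d y j
    simp only [hf, e]
    ring
  have hI0 : 0 ≤ I := by
    rw [hI]
    exact integral_nonneg (by rw [hs]; linarith [pi_pos]) fun x _ => sq_nonneg _
  -- (i)
  have h3 : c * δ ^ 2 * ∫ y in s..(s + δ), W y ^ 2 ≤ I := by
    rw [hI', ← intervalIntegral.integral_const_mul]
    refine integral_mono_on hsd (Continuous.intervalIntegrable (by fun_prop) _ _)
      (Continuous.intervalIntegrable (by fun_prop) _ _) fun y _ => ?_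
    refine le_trans ?_ (hpt y)
    have e1 : 0 ≤ ∑ j ∈ range P, (U (y + j * δ) + y * W y) ^ 2 := sum_nonneg fun _ _ => sq_nonneg _
    have e2 : 0 ≤ ∑ j ∈ range Q, V (y + j * δ) ^ 2 := sum_nonneg fun _ _ => sq_nonneg _
    nlinarith
  have h2 : c * ∫ x in s..(s + Q * δ), V x ^ 2 ≤ I := by
    rw [int_split (by fun_prop : Continuous fun x => V x ^ 2) s δ Q, hI',
      ← intervalIntegral.integral_const_mul]
    refine integral_mono_on hsd (Continuous.intervalIntegrable (by fun_prop) _ _)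
      (Continuous.intervalIntegrable (by fun_prop) _ _) fun y _ => ?_
    refine le_trans ?_ (hpt y)
    have e1 : 0 ≤ ∑ j ∈ range P, (U (y + j * δ) + y * W y) ^ 2 := sum_nonneg fun _ _ => sq_nonneg _
    have e2 : 0 ≤ (δ * W y) ^ 2 := sq_nonneg _
    nlinarith
  have h1 : ∫ x in s..(s + P * δ), U x ^ 2 ≤ (2 / c + 2 * P * (π / 2) ^ 2 / (c * δ ^ 2)) * I := by
    have e0 : ∫ x in s..(s + P * δ), U x ^ 2 ≤
        ∫ y in s..(s + δ), ((2 / c) * ∑ j ∈ range (P + Q), f (y + j * δ) +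
          2 * P * (π / 2) ^ 2 * W y ^ 2) := by
      rw [int_split (by fun_prop : Continuous fun x => U x ^ 2) s δ P]
      refine integral_mono_on hsd (Continuous.intervalIntegrable (by fun_prop) _ _)
        (Continuous.intervalIntegrable (by fun_prop) _ _) fun y hy => ?_
      have hy2 : y ^ 2 ≤ (π / 2) ^ 2 := by
        apply sq_le_sq'
        · exact hy.1
        · have := hy.2
          have h5 : s + δ ≤ π / 2 := by
            rw [hse]
            have : (1 : ℝ) ≤ ((P + Q : ℕ) : ℝ) := by exact_mod_cast (by omega : 1 ≤ P + Q)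
            nlinarith
          linarith
      have e1 : ∑ j ∈ range P, U (y + j * δ) ^ 2 ≤
          ∑ j ∈ range P, (2 * (U (y + j * δ) + y * W y) ^ 2 + 2 * (y ^ 2 * W y ^ 2)) := by
        refine sum_le_sum fun j _ => ?_
        nlinarith [sq_nonneg (U (y + j * δ) + 2 * (y * W y))]
      refine e1.trans ?_
      rw [sum_add_distrib, ← mul_sum, sum_const, card_range, nsmul_eq_mul]
      have e2 := hpt y
      have e3 : 0 ≤ ∑ j ∈ range Q, V (y + j * δ) ^ 2 := sum_nonneg fun _ _ => sq_nonneg _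
      have e4 : 0 ≤ (δ * W y) ^ 2 := sq_nonneg _
      have e5 : ∑ j ∈ range P, (U (y + j * δ) + y * W y) ^ 2 ≤
          c⁻¹ * ∑ j ∈ range (P + Q), f (y + j * δ) := by
        rw [← div_eq_inv_mul, le_div_iff₀ hc0]
        nlinarith
      have e6 : y ^ 2 * W y ^ 2 ≤ (π / 2) ^ 2 * W y ^ 2 :=
        mul_le_mul_of_nonneg_right hy2 (sq_nonneg _)
      have e7 : (2 : ℝ) / c = 2 * c⁻¹ := by ring
      rw [e7]
      nlinarith
    rw [intervalIntegral.integral_add (Continuous.intervalIntegrable (by fun_prop) _ _)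
      (Continuous.intervalIntegrable (by fun_prop) _ _), intervalIntegral.integral_const_mul,
      intervalIntegral.integral_const_mul, ← hI'] at e0
    refine e0.trans ?_
    have e8 : ∫ y in s..(s + δ), W y ^ 2 ≤ I / (c * δ ^ 2) := by
      rw [le_div_iff₀ (by positivity)]
      linarith
    have e9 : 2 * P * (π / 2) ^ 2 * ∫ y in s..(s + δ), W y ^ 2 ≤
        2 * P * (π / 2) ^ 2 * (I / (c * δ ^ 2)) := mul_le_mul_of_nonneg_left e8 (by positivity)
    calc (2 / c) * I + 2 * P * (π / 2) ^ 2 * ∫ y in s..(s + δ), W y ^ 2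
        ≤ (2 / c) * I + 2 * P * (π / 2) ^ 2 * (I / (c * δ ^ 2)) := by linarith
      _ = _ := by ring
  -- coefficients
  have g3 : ∑ m ∈ F₃, d m ^ 2 ≤ K₃ * I := by
    have e := sin_family (w0_pos (Q := Q) hP) 1 (l := δ)
      (by rw [hδ, w0_dl hP]; simp) s F₃ d
    have e' : ∫ y in s..(s + δ), W y ^ 2 = (δ / 2) * ∑ m ∈ F₃, d m ^ 2 := e
    rw [e'] at h3
    have : K₃ * I = (2 / (c * δ ^ 3)) * I := rfl
    rw [this, div_mul_eq_mul_div, le_div_iff₀ (by positivity)]
    nlinarith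
  have g2 : ∑ m ∈ F₂, b m ^ 2 ≤ K₂ * I := by
    have e := cos_lower (wQ_pos hP hQ) 1 (l := Q * δ)
      (by
        have h := wQ_dl (P := P) hQ
        have : wQ P Q * (Q * δ) = (wQ P Q * dl P Q) * Q := by rw [hδ]; ring
        rw [this, h]; field_simp; simp) s F₂ b (by positivity)
    have e' : (Q * δ / 2) * ∑ m ∈ F₂, b m ^ 2 ≤ ∫ x in s..(s + Q * δ), V x ^ 2 := e
    have : K₂ * I = (2 / (c * (Q * δ))) * I := rfl
    rw [this, div_mul_eq_mul_div, le_div_iff₀ (by positivity)]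
    nlinarith
  have g1 : ∑ m ∈ F₁, a m ^ 2 ≤ K₁ * I := by
    have e := cos_lower (wP_pos hP hQ) 1 (l := P * δ)
      (by
        have h := wP_dl (Q := Q) hP
        have : wP P Q * (P * δ) = (wP P Q * dl P Q) * P := by rw [hδ]; ring
        rw [this, h]; field_simp; simp) s F₁ a (by positivity)
    have e' : (P * δ / 2) * ∑ m ∈ F₁, a m ^ 2 ≤ ∫ x in s..(s + P * δ), U x ^ 2 := e
    have e2 := e'.trans h1
    have : K₁ * I = 2 / (P * δ) * ((2 / c + 2 * P * (π / 2) ^ 2 / (c * δ ^ 2)) * I) := by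
      rw [hK1]; ring
    rw [this, div_mul_eq_mul_div, le_div_iff₀ (by positivity)]
    linarith
  rw [inv_mul_le_iff₀ (by positivity)]
  have : (K₁ + K₂ + K₃) * I = K₁ * I + K₂ * I + K₃ * I := by ring
  rw [this]
  linarith

end

end Pool.Agent.R945.RB
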