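import Pool.Agent.R945.RB.C

/-!
# Root vectors of the point-restart Laplacian: Riesz bounds
-/

set_option autoImplicit false

open Finset MeasureTheory intervalIntegral Real

namespace Pool.Agent.R945.RB

section

variable (P Q : ℕ)

/-- the restart point -/
noncomputable def bb : ℝ := π / 2 * (((P : ℝ) - Q) / (P + Q))

/-- the coefficient of the cosine -/
noncomputable def cO (n : ℕ) : ℝ :=
  if cos (2 * (n + 1 : ℕ) * bb P Q) = cos (2 * (n + 1 : ℕ) * (π / 2)) then 0 else
    sin (2 * (n + 1 : ℕ) * bb P Q) /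
      (cos (2 * (n + 1 : ℕ) * (π / 2)) - cos (2 * (n + 1 : ℕ) * bb P Q))

/-- the index set -/
abbrev JJ := ℕ ⊕ ℕ ⊕ {m : ℕ // ¬ Q ∣ m} ⊕ ℕ

/-- the root functions -/
noncomputable def psi : JJ Q → ℝ → ℝ
  | .inl n, x => sin (2 * (n + 1 : ℕ) * x) + cO P Q n * cos (2 * (n + 1 : ℕ) * x)
  | .inr (.inl m), x => cos (wP P Q * m * x)
  | .inr (.inr (.inl m)), x => cos (wQ P Q * (m : ℕ) * x)
  | .inr (.inr (.inr n)), x => x * sin (w0 P Q * (n + 1 : ℕ) * x)

lemma psi_cont (i : JJ Q) : Continuous (psi P Q i) := by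
  rcases i with n | m | m | n
  · change Continuous fun x => sin (2 * (n + 1 : ℕ) * x) + cO P Q n * cos (2 * (n + 1 : ℕ) * x)
    fun_prop
  · change Continuous fun x => cos (wP P Q * m * x)
    fun_prop
  · change Continuous fun x => cos (wQ P Q * (m : ℕ) * x)
    fun_prop
  · change Continuous fun x => x * sin (w0 P Q * (n + 1 : ℕ) * x)
    fun_prop

variable {P Q} (hP : 0 < P) (hQ : 0 < Q)

include hP

omit hP in
lemma cO_bdd (hP : 0 < P) : ∃ C : ℝ, 0 ≤ C ∧ ∀ n, |cO P Q n| ≤ C := by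
  have hper : ∀ n, cO P Q (n + 2 * (P + Q)) = cO P Q n := by
    intro n
    have hN : (P : ℝ) + Q ≠ 0 := by positivity
    have e1 : 2 * ((n + 2 * (P + Q) + 1 : ℕ) : ℝ) * bb P Q =
        2 * ((n + 1 : ℕ) : ℝ) * bb P Q + ((P : ℤ) - Q : ℤ) * (2 * π) := by
      unfold bb
      push_cast
      field_simp
      ring
    have e2 : 2 * ((n + 2 * (P + Q) + 1 : ℕ) : ℝ) * (π / 2) =
        2 * ((n + 1 : ℕ) : ℝ) * (π / 2) + ((P : ℤ) + Q : ℤ) * (2 * π) := by
      push_cast
      ring
    unfold cO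
    rw [e1, e2, cos_add_int_mul_two_pi, cos_add_int_mul_two_pi, sin_add_int_mul_two_pi]
  have hper2 : ∀ k n, cO P Q (n + k * (2 * (P + Q))) = cO P Q n := by
    intro k
    induction k with
    | zero => intro n; simp
    | succ k ih =>
      intro n
      have : n + (k + 1) * (2 * (P + Q)) = n + k * (2 * (P + Q)) + 2 * (P + Q) := by ring
      rw [this, hper, ih]
  refine ⟨∑ j ∈ range (2 * (P + Q)), |cO P Q j|, sum_nonneg fun _ _ => abs_nonneg _, fun n => ?_⟩
  have h1 : n = n % (2 * (P + Q)) + (n / (2 * (P + Q))) * (2 * (P + Q)) := by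
    exact (Nat.mod_add_div' n _).symm
  rw [h1, hper2]
  exact single_le_sum (f := fun j => |cO P Q j|) (fun _ _ => abs_nonneg _)
    (mem_range.mpr (Nat.mod_lt _ (by omega)))

omit hP in
lemma cosS_upper (F : Finset ℕ) (a : ℕ → ℝ) :
    ∫ x in (-(π / 2))..(π / 2), (∑ m ∈ F, a m * cos (2 * (m + 1 : ℕ) * x)) ^ 2 ≤
      π * ∑ m ∈ F, a m ^ 2 := by
  have h := cos_upper (w := 2) (l := π) two_pos 1 (by push_cast; ring) (-(π / 2))
    (F.map ⟨Nat.succ, Nat.succ_injective⟩) (fun m => a (m - 1)) pi_pos.le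
  have e : -(π / 2) + π = π / 2 := by ring
  rw [e] at h
  simpa [sum_map] using h

omit hP in
lemma sinS (F : Finset ℕ) (a : ℕ → ℝ) :
    ∫ x in (-(π / 2))..(π / 2), (∑ m ∈ F, a m * sin (2 * (m + 1 : ℕ) * x)) ^ 2 =
      (π / 2) * ∑ m ∈ F, a m ^ 2 := by
  have h := sin_family (w := 2) (l := π) two_pos 1 (by push_cast; ring) (-(π / 2)) F a
  have e : -(π / 2) + π = π / 2 := by ring
  rwa [e] at h

omit hP in
lemma int_odd {h : ℝ → ℝ} (hodd : ∀ x, h (-x) = - h x) (L : ℝ) : ∫ x in (-L)..L, h x = 0 := by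
  have h1 : ∫ x in (-L)..L, h (-x) = ∫ x in (-L)..L, h x := by
    rw [intervalIntegral.integral_comp_neg (fun x => h x), neg_neg]
  simp_rw [hodd] at h1
  rw [intervalIntegral.integral_neg] at h1
  linarith

include hQ in
/-- the two Riesz bounds, split form -/
theorem riesz_split (hc : Nat.Coprime P Q) : ∃ c C : ℝ, 0 < c ∧ 0 ≤ C ∧
    ∀ (F₀ F₁ F₂ F₃ : Finset ℕ) (s a b d : ℕ → ℝ), (∀ m ∈ F₂, ¬ Q ∣ m) →
    c * (∑ m ∈ F₀, s m ^ 2 + ∑ m ∈ F₁, a m ^ 2 + ∑ m ∈ F₂, b m ^ 2 + ∑ m ∈ F₃, d m ^ 2) ≤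
      (∫ x in (-(π / 2))..(π / 2), (∑ n ∈ F₀, s n * (sin (2 * (n + 1 : ℕ) * x) +
        cO P Q n * cos (2 * (n + 1 : ℕ) * x)) +
        (fU P Q F₁ a x + fV P Q F₂ b x + x * fW P Q F₃ d x)) ^ 2) ∧
    (∫ x in (-(π / 2))..(π / 2), (∑ n ∈ F₀, s n * (sin (2 * (n + 1 : ℕ) * x) +
        cO P Q n * cos (2 * (n + 1 : ℕ) * x)) +
        (fU P Q F₁ a x + fV P Q F₂ b x + x * fW P Q F₃ d x)) ^ 2) ≤
      C * (∑ m ∈ F₀, s m ^ 2 + ∑ m ∈ F₁, a m ^ 2 + ∑ m ∈ F₂, b m ^ 2 + ∑ m ∈ F₃, d m ^ 2) := by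
  obtain ⟨cE, hcE, hE⟩ := even_lower hP hQ hc
  obtain ⟨M, hM0, hM⟩ := cO_bdd (Q := Q) hP
  have hP' : (0 : ℝ) < P := by exact_mod_cast hP
  have hQ' : (0 : ℝ) < Q := by exact_mod_cast hQ
  have hπ := pi_pos
  have hLL : -(π / 2) ≤ π / 2 := by linarith
  set D : ℝ := π / 2 + π * M ^ 2 + P * π + Q * π + (π / 2) ^ 2 * (π / 2) with hD
  refine ⟨(2 / π + (2 + 4 * M ^ 2) / cE)⁻¹, 5 * D, by positivity, by positivity,
    fun F₀ F₁ F₂ F₃ s a b d hF => ?_⟩
  set O : ℝ → ℝ := fun x => ∑ n ∈ F₀, s n * sin (2 * (n + 1 : ℕ) * x) with hO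
  set G : ℝ → ℝ := fun x => ∑ n ∈ F₀, (s n * cO P Q n) * cos (2 * (n + 1 : ℕ) * x) with hG
  set U := fU P Q F₁ a with hU
  set V := fV P Q F₂ b with hV
  set W := fW P Q F₃ d with hW
  have cU : Continuous U := fU_cont _ _
  have cV : Continuous V := fV_cont _ _
  have cW : Continuous W := fW_cont _ _
  have cOo : Continuous O := by rw [hO]; fun_prop
  have cG : Continuous G := by rw [hG]; fun_prop
  have hsum : ∀ x, (∑ n ∈ F₀, s n * (sin (2 * (n + 1 : ℕ) * x) +
        cO P Q n * cos (2 * (n + 1 : ℕ) * x)) + (U x + V x + x * W x)) =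
        O x + (G x + (U x + V x + x * W x)) := by
    intro x
    have : ∑ n ∈ F₀, s n * (sin (2 * (n + 1 : ℕ) * x) + cO P Q n * cos (2 * (n + 1 : ℕ) * x)) =
        O x + G x := by
      rw [hO, hG]
      simp only
      rw [← sum_add_distrib]
      exact sum_congr rfl fun n _ => by ring
    rw [this]; ring
  simp_rw [hsum]
  have nO : ∀ x, O (-x) = - O x := by
    intro x
    rw [hO]
    simp only
    rw [← sum_neg_distrib]
    refine sum_congr rfl fun n _ => ?_
    rw [mul_neg, sin_neg]; ring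
  have nG : ∀ x, G (-x) = G x := by
    intro x
    rw [hG]
    refine sum_congr rfl fun n _ => ?_
    rw [mul_neg, cos_neg]
  have nU : ∀ x, U (-x) = U x := by
    intro x
    rw [hU]; unfold fU
    refine sum_congr rfl fun n _ => ?_
    rw [mul_neg, cos_neg]
  have nV : ∀ x, V (-x) = V x := by
    intro x
    rw [hV]; unfold fV
    refine sum_congr rfl fun n _ => ?_
    rw [mul_neg, cos_neg]
  have nW : ∀ x, W (-x) = - W x := by
    intro x
    rw [hW]; unfold fW
    rw [← sum_neg_distrib]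
    refine sum_congr rfl fun n _ => ?_
    rw [mul_neg, sin_neg]; ring
  set S0 := ∑ m ∈ F₀, s m ^ 2 with hS0
  set S1 := ∑ m ∈ F₁, a m ^ 2 with hS1
  set S2 := ∑ m ∈ F₂, b m ^ 2 with hS2
  set S3 := ∑ m ∈ F₃, d m ^ 2 with hS3
  have p0 : 0 ≤ S0 := sum_nonneg fun _ _ => sq_nonneg _
  have p1 : 0 ≤ S1 := sum_nonneg fun _ _ => sq_nonneg _
  have p2 : 0 ≤ S2 := sum_nonneg fun _ _ => sq_nonneg _
  have p3 : 0 ≤ S3 := sum_nonneg fun _ _ => sq_nonneg _
  have iO : ∫ x in (-(π / 2))..(π / 2), O x ^ 2 = (π / 2) * S0 := sinS F₀ s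
  have iG : ∫ x in (-(π / 2))..(π / 2), G x ^ 2 ≤ π * M ^ 2 * S0 := by
    refine (cosS_upper F₀ fun n => s n * cO P Q n).trans ?_
    rw [mul_assoc]
    refine mul_le_mul_of_nonneg_left ?_ hπ.le
    rw [hS0, mul_sum]
    refine sum_le_sum fun n _ => ?_
    have h1 : cO P Q n ^ 2 ≤ M ^ 2 := by
      rw [← sq_abs]
      exact pow_le_pow_left₀ (abs_nonneg _) (hM n) 2
    calc (s n * cO P Q n) ^ 2 = cO P Q n ^ 2 * s n ^ 2 := by ring
      _ ≤ M ^ 2 * s n ^ 2 := mul_le_mul_of_nonneg_right h1 (sq_nonneg _)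
  set I := ∫ x in (-(π / 2))..(π / 2), (O x + (G x + (U x + V x + x * W x))) ^ 2 with hI
  have hsplit : I = (∫ x in (-(π / 2))..(π / 2), O x ^ 2) +
      ∫ x in (-(π / 2))..(π / 2), (G x + (U x + V x + x * W x)) ^ 2 := by
    have h1 : ∫ x in (-(π / 2))..(π / 2), 2 * (O x * (G x + (U x + V x + x * W x))) = 0 := by
      refine int_odd (fun x => ?_) _
      rw [nO, nG, nU, nV, nW]; ring
    have h2 : I = ∫ x in (-(π / 2))..(π / 2), ((O x ^ 2 + (G x + (U x + V x + x * W x)) ^ 2) +
        2 * (O x * (G x + (U x + V x + x * W x)))) := by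
      rw [hI]
      refine integral_congr fun x _ => ?_
      ring
    rw [h2, intervalIntegral.integral_add (Continuous.intervalIntegrable (by fun_prop) _ _)
      (Continuous.intervalIntegrable (by fun_prop) _ _), h1, add_zero,
      intervalIntegral.integral_add (Continuous.intervalIntegrable (by fun_prop) _ _)
      (Continuous.intervalIntegrable (by fun_prop) _ _)]
  have hev0 : 0 ≤ ∫ x in (-(π / 2))..(π / 2), (G x + (U x + V x + x * W x)) ^ 2 :=
    integral_nonneg hLL fun x _ => sq_nonneg _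
  constructor
  · have a1 : (π / 2) * S0 ≤ I := by rw [hsplit, iO]; linarith
    have hI0 : 0 ≤ I := le_trans (by positivity) a1
    have a2 : ∫ x in (-(π / 2))..(π / 2), (U x + V x + x * W x) ^ 2 ≤ (2 + 4 * M ^ 2) * I := by
      have b1 : ∫ x in (-(π / 2))..(π / 2), (U x + V x + x * W x) ^ 2 ≤
          ∫ x in (-(π / 2))..(π / 2), (2 * (G x + (U x + V x + x * W x)) ^ 2 + 2 * G x ^ 2) := by
        refine integral_mono_on hLL (Continuous.intervalIntegrable (by fun_prop) _ _)
          (Continuous.intervalIntegrable (by fun_prop) _ _) fun x _ => ?_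
        nlinarith [sq_nonneg (2 * G x + (U x + V x + x * W x))]
      rw [intervalIntegral.integral_add (Continuous.intervalIntegrable (by fun_prop) _ _)
        (Continuous.intervalIntegrable (by fun_prop) _ _), intervalIntegral.integral_const_mul,
        intervalIntegral.integral_const_mul] at b1
      have b2 : ∫ x in (-(π / 2))..(π / 2), (G x + (U x + V x + x * W x)) ^ 2 ≤ I := by
        rw [hsplit, iO]
        have : 0 ≤ π / 2 * S0 := by positivity
        linarith
      have b3 : π * M ^ 2 * S0 ≤ 2 * M ^ 2 * I := by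
        have : 2 * M ^ 2 * (π / 2 * S0) ≤ 2 * M ^ 2 * I :=
          mul_le_mul_of_nonneg_left a1 (by positivity)
        linarith
      linarith
    have a3 := (hE F₁ F₂ F₃ a b d hF).trans a2
    have a4 : S1 + S2 + S3 ≤ (2 + 4 * M ^ 2) / cE * I := by
      rw [div_mul_eq_mul_div, le_div_iff₀ hcE]
      linarith
    have a5 : S0 ≤ 2 / π * I := by
      rw [div_mul_eq_mul_div, le_div_iff₀ hπ]
      linarith
    rw [inv_mul_le_iff₀ (by positivity), add_mul]
    linarith
  · have uU : ∫ x in (-(π / 2))..(π / 2), U x ^ 2 ≤ P * π * S1 := by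
      have h1 := cos_upper (wP_pos hP hQ) (P + Q) (l := P * π)
        (by unfold wP; push_cast; field_simp) (-(π / 2)) F₁ a (by positivity)
      refine le_trans ?_ h1
      refine integral_mono_interval le_rfl hLL ?_ ?_ ?_
      · have : (1 : ℝ) ≤ P := by exact_mod_cast hP
        nlinarith
      · exact Filter.Eventually.of_forall fun x => sq_nonneg _
      · exact Continuous.intervalIntegrable (by fun_prop) _ _
    have uV : ∫ x in (-(π / 2))..(π / 2), V x ^ 2 ≤ Q * π * S2 := by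
      have h1 := cos_upper (wQ_pos hP hQ) (P + Q) (l := Q * π)
        (by unfold wQ; push_cast; field_simp) (-(π / 2)) F₂ b (by positivity)
      refine le_trans ?_ h1
      refine integral_mono_interval le_rfl hLL ?_ ?_ ?_
      · have : (1 : ℝ) ≤ Q := by exact_mod_cast hQ
        nlinarith
      · exact Filter.Eventually.of_forall fun x => sq_nonneg _
      · exact Continuous.intervalIntegrable (by fun_prop) _ _
    have uW : ∫ x in (-(π / 2))..(π / 2), (x * W x) ^ 2 ≤ (π / 2) ^ 2 * (π / 2) * S3 := by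
      have h1 := sin_family (w0_pos (Q := Q) hP) (P + Q) (l := π)
        (by unfold w0; push_cast; ring) (-(π / 2)) F₃ d
      have e : -(π / 2) + π = π / 2 := by ring
      rw [e] at h1
      have h2 : ∫ x in (-(π / 2))..(π / 2), (x * W x) ^ 2 ≤
          ∫ x in (-(π / 2))..(π / 2), (π / 2) ^ 2 * W x ^ 2 := by
        refine integral_mono_on hLL (Continuous.intervalIntegrable (by fun_prop) _ _)
          (Continuous.intervalIntegrable (by fun_prop) _ _) fun x hx => ?_
        rw [mul_pow]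
        refine mul_le_mul_of_nonneg_right ?_ (sq_nonneg _)
        exact sq_le_sq' hx.1 hx.2
      rw [intervalIntegral.integral_const_mul] at h2
      have h3 : ∫ x in (-(π / 2))..(π / 2), W x ^ 2 = (π / 2) * S3 := h1
      rw [h3] at h2
      linarith
    have h5 : I ≤ ∫ x in (-(π / 2))..(π / 2), (5 * (O x ^ 2 + (G x ^ 2 + (U x ^ 2 +
        (V x ^ 2 + (x * W x) ^ 2))))) := by
      refine integral_mono_on hLL (Continuous.intervalIntegrable (by fun_prop) _ _)
        (Continuous.intervalIntegrable (by fun_prop) _ _) fun x _ => ?_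
      generalize O x = o, G x = g, U x = u, V x = v, x * W x = w
      nlinarith [sq_nonneg (o - g), sq_nonneg (o - u), sq_nonneg (o - v), sq_nonneg (o - w),
        sq_nonneg (g - u), sq_nonneg (g - v), sq_nonneg (g - w), sq_nonneg (u - v),
        sq_nonneg (u - w), sq_nonneg (v - w)]
    rw [intervalIntegral.integral_const_mul,
      intervalIntegral.integral_add (Continuous.intervalIntegrable (by fun_prop) _ _)
        (Continuous.intervalIntegrable (by fun_prop) _ _),
      intervalIntegral.integral_add (Continuous.intervalIntegrable (by fun_prop) _ _)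
        (Continuous.intervalIntegrable (by fun_prop) _ _),
      intervalIntegral.integral_add (Continuous.intervalIntegrable (by fun_prop) _ _)
        (Continuous.intervalIntegrable (by fun_prop) _ _),
      intervalIntegral.integral_add (Continuous.intervalIntegrable (by fun_prop) _ _)
        (Continuous.intervalIntegrable (by fun_prop) _ _), iO] at h5
    refine h5.trans ?_
    rw [mul_assoc]
    refine mul_le_mul_of_nonneg_left ?_ (by norm_num)
    have q1 : π / 2 * S0 + π * M ^ 2 * S0 + P * π * S1 + Q * π * S2 +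
        (π / 2) ^ 2 * (π / 2) * S3 ≤ D * (S0 + S1 + S2 + S3) := by
      have r1 : 0 ≤ π / 2 := by positivity
      have r2 : 0 ≤ π * M ^ 2 := by positivity
      have r3 : 0 ≤ P * π := by positivity
      have r4 : 0 ≤ Q * π := by positivity
      have r5 : 0 ≤ (π / 2) ^ 2 * (π / 2) := by positivity
      have t0 : (π / 2 + π * M ^ 2) * S0 ≤ D * S0 :=
        mul_le_mul_of_nonneg_right (by linarith) p0
      have t1 : P * π * S1 ≤ D * S1 := mul_le_mul_of_nonneg_right (by linarith) p1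
      have t2 : Q * π * S2 ≤ D * S2 := mul_le_mul_of_nonneg_right (by linarith) p2
      have t3 : (π / 2) ^ 2 * (π / 2) * S3 ≤ D * S3 :=
        mul_le_mul_of_nonneg_right (by linarith) p3
      linarith
    linarith

end

end Pool.Agent.R945.RB
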