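import Mathlib

/-!
# Riesz bounds and completeness give a Schauder basis
-/

set_option autoImplicit false

open Finset Filter Topology

namespace Pool.Agent.R945.RB

/-- abstract lemma: a complete Riesz sequence is a Schauder basis -/
theorem schauder_of_riesz {H : Type*} [NormedAddCommGroup H] [InnerProductSpace ℂ H]
    [CompleteSpace H] (Ψ : ℕ → H) {c C : ℝ} (hc : 0 < c) (hC : 0 ≤ C)
    (lower : ∀ (F : Finset ℕ) (a : ℕ → ℂ), c * ∑ i ∈ F, ‖a i‖ ^ 2 ≤ ‖∑ i ∈ F, a i • Ψ i‖ ^ 2)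
    (upper : ∀ (F : Finset ℕ) (a : ℕ → ℂ), ‖∑ i ∈ F, a i • Ψ i‖ ^ 2 ≤ C * ∑ i ∈ F, ‖a i‖ ^ 2)
    (dense : (Submodule.span ℂ (Set.range Ψ)).topologicalClosure = ⊤) (f : H) :
    ∃! a : ℕ → ℂ, Tendsto (fun n => ∑ i ∈ range n, a i • Ψ i) atTop (𝓝 f) := by
  -- approximations by finite combinations
  have hmem : ∀ n : ℕ, ∃ p : ℕ →₀ ℂ, ‖f - p.sum fun i z => z • Ψ i‖ < 1 / 2 ^ n := by
    intro n
    have h1 : f ∈ closure ((Submodule.span ℂ (Set.range Ψ) : Submodule ℂ H) : Set H) := by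
      have : f ∈ (Submodule.span ℂ (Set.range Ψ)).topologicalClosure := by rw [dense]; trivial
      exact this
    rw [Metric.mem_closure_iff] at h1
    obtain ⟨g, hg, hgf⟩ := h1 (1 / 2 ^ n) (by positivity)
    obtain ⟨p, hp⟩ := (Finsupp.mem_span_range_iff_exists_finsupp).mp hg
    refine ⟨p, ?_⟩
    rw [hp, ← dist_eq_norm]
    exact hgf
  choose p hp using hmem
  set T : (ℕ →₀ ℂ) → H := fun q => q.sum fun i z => z • Ψ i with hT
  have hTF : ∀ (q : ℕ →₀ ℂ) (F : Finset ℕ), q.support ⊆ F → T q = ∑ i ∈ F, q i • Ψ i := by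
    intro q F hF
    rw [hT]
    simp only [Finsupp.sum]
    exact sum_subset hF fun i _ hi => by
      rw [Finsupp.notMem_support_iff.mp hi, zero_smul]
  have hTlow : ∀ (q r : ℕ →₀ ℂ) (F : Finset ℕ), c * ∑ i ∈ F, ‖q i - r i‖ ^ 2 ≤ ‖T q - T r‖ ^ 2 := by
    intro q r F
    set F' := F ∪ (q.support ∪ r.support) with hF'
    have e1 := hTF q F' (by intro i hi; simp [hF', hi])
    have e2 := hTF r F' (by intro i hi; simp [hF', hi])
    have e3 : T q - T r = ∑ i ∈ F', (q i - r i) • Ψ i := by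
      rw [e1, e2, ← sum_sub_distrib]
      exact sum_congr rfl fun i _ => (sub_smul _ _ _).symm
    rw [e3]
    refine le_trans ?_ (lower F' fun i => q i - r i)
    refine mul_le_mul_of_nonneg_left ?_ hc.le
    exact sum_le_sum_of_subset_of_nonneg subset_union_left fun _ _ _ => sq_nonneg _
  -- Cauchy
  have hTp : ∀ n, ‖f - T (p n)‖ < 1 / 2 ^ n := hp
  have hdiff : ∀ n m, n ≤ m → ‖T (p n) - T (p m)‖ ≤ 2 / 2 ^ n := by
    intro n m hnm
    have h1 : T (p n) - T (p m) = (f - T (p m)) - (f - T (p n)) := by abel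
    rw [h1]
    refine (norm_sub_le _ _).trans ?_
    have h2 : (1 : ℝ) / 2 ^ m ≤ 1 / 2 ^ n := by
      apply one_div_le_one_div_of_le (by positivity)
      exact pow_le_pow_right₀ (by norm_num) hnm
    have h3 := hTp n
    have h4 := hTp m
    have : (2 : ℝ) / 2 ^ n = 1 / 2 ^ n + 1 / 2 ^ n := by ring
    linarith
  have hcoef : ∀ n m, n ≤ m → ∀ F : Finset ℕ, ∑ i ∈ F, ‖p n i - p m i‖ ^ 2 ≤
      c⁻¹ * (2 / 2 ^ n) ^ 2 := by
    intro n m hnm F
    rw [← div_eq_inv_mul, le_div_iff₀ hc, mul_comm]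
    refine (hTlow (p n) (p m) F).trans ?_
    exact pow_le_pow_left₀ (norm_nonneg _) (hdiff n m hnm) 2
  have hcau : ∀ i, CauchySeq fun n => p n i := by
    intro i
    refine cauchySeq_of_le_tendsto_0 (fun n => Real.sqrt c⁻¹ * (2 * (2 / 2 ^ n))) ?_ ?_
    · intro n m N hn hm
      have h1 : ∀ k, N ≤ k → ‖p N i - p k i‖ ≤ Real.sqrt c⁻¹ * (2 / 2 ^ N) := by
        intro k hk
        have h2 := hcoef N k hk {i}
        rw [sum_singleton] at h2
        have h3 : ‖p N i - p k i‖ ^ 2 ≤ (Real.sqrt c⁻¹ * (2 / 2 ^ N)) ^ 2 := by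
          rw [mul_pow, Real.sq_sqrt (by positivity)]
          exact h2
        exact (pow_le_pow_iff_left₀ (norm_nonneg _) (by positivity) two_ne_zero).mp h3
      rw [dist_eq_norm]
      have h4 : p n i - p m i = (p N i - p m i) - (p N i - p n i) := by ring
      rw [h4]
      refine (norm_sub_le _ _).trans ?_
      have := h1 n hn
      have := h1 m hm
      linarith
    · have h1 : Tendsto (fun n : ℕ => (1 / 2 : ℝ) ^ n) atTop (𝓝 0) :=
        tendsto_pow_atTop_nhds_zero_of_lt_one (by norm_num) (by norm_num)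
      have h2 := h1.const_mul (Real.sqrt c⁻¹ * 4)
      rw [mul_zero] at h2
      refine h2.congr fun n => ?_
      rw [one_div, inv_pow]
      ring
  have hlim : ∀ i, ∃ z, Tendsto (fun n => p n i) atTop (𝓝 z) := fun i =>
    cauchySeq_tendsto_of_complete (hcau i)
  choose a ha using hlim
  have hap : ∀ n (F : Finset ℕ), ∑ i ∈ F, ‖p n i - a i‖ ^ 2 ≤ c⁻¹ * (2 / 2 ^ n) ^ 2 := by
    intro n F
    have h1 : Tendsto (fun m => ∑ i ∈ F, ‖p n i - p m i‖ ^ 2) atTop
        (𝓝 (∑ i ∈ F, ‖p n i - a i‖ ^ 2)) :=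
      tendsto_finsetSum _ fun i _ => ((tendsto_const_nhds.sub (ha i)).norm).pow 2
    refine le_of_tendsto h1 ?_
    filter_upwards [eventually_ge_atTop n] with m hm
    exact hcoef n m hm F
  have hexist : Tendsto (fun n => ∑ i ∈ range n, a i • Ψ i) atTop (𝓝 f) := by
    rw [Metric.tendsto_atTop]
    intro ε hε
    have hlim0 : Tendsto (fun n : ℕ => Real.sqrt (C * c⁻¹) * (2 / 2 ^ n) + 1 / 2 ^ n) atTop
        (𝓝 0) := by
      have h1 : Tendsto (fun n : ℕ => (1 / 2 : ℝ) ^ n) atTop (𝓝 0) :=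
        tendsto_pow_atTop_nhds_zero_of_lt_one (by norm_num) (by norm_num)
      have h2 := (h1.const_mul (Real.sqrt (C * c⁻¹) * 2)).add h1
      rw [mul_zero, add_zero] at h2
      refine h2.congr fun n => ?_
      rw [one_div, inv_pow]
      ring
    obtain ⟨n, hn⟩ := ((tendsto_order.mp hlim0).2 ε hε).exists
    obtain ⟨N, hN⟩ : ∃ N, (p n).support ⊆ range N := by
      refine ⟨(p n).support.sup id + 1, fun i hi => ?_⟩
      rw [mem_range]
      have := Finset.le_sup (f := id) hi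
      simp only [id] at this
      omega
    refine ⟨N, fun m hm => ?_⟩
    have hsup : (p n).support ⊆ range m := hN.trans (range_mono hm)
    have e1 := hTF (p n) (range m) hsup
    rw [dist_eq_norm]
    have e2 : ∑ i ∈ range m, a i • Ψ i - f =
        -(∑ i ∈ range m, (p n i - a i) • Ψ i) - (f - T (p n)) := by
      rw [e1]
      simp_rw [sub_smul]
      rw [sum_sub_distrib]
      abel
    rw [e2]
    refine (norm_sub_le _ _).trans_lt ?_
    rw [norm_neg]
    have h3 : ‖∑ i ∈ range m, (p n i - a i) • Ψ i‖ ≤ Real.sqrt (C * c⁻¹) * (2 / 2 ^ n) := by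
      have h4 := upper (range m) fun i => p n i - a i
      have h5 : ‖∑ i ∈ range m, (p n i - a i) • Ψ i‖ ^ 2 ≤
          (Real.sqrt (C * c⁻¹) * (2 / 2 ^ n)) ^ 2 := by
        rw [mul_pow, Real.sq_sqrt (by positivity), mul_assoc]
        exact h4.trans (mul_le_mul_of_nonneg_left (hap n _) hC)
      exact (pow_le_pow_iff_left₀ (norm_nonneg _) (by positivity) two_ne_zero).mp h5
    have := hTp n
    linarith
  refine ⟨a, hexist, fun b hb => ?_⟩
  funext j
  have h1 : Tendsto (fun n => ∑ i ∈ range n, (b i - a i) • Ψ i) atTop (𝓝 0) := by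
    have := hb.sub hexist
    rw [sub_self] at this
    refine this.congr fun n => ?_
    rw [← sum_sub_distrib]
    exact sum_congr rfl fun i _ => (sub_smul _ _ _).symm
  have h2 : Tendsto (fun n => ‖∑ i ∈ range n, (b i - a i) • Ψ i‖ ^ 2) atTop (𝓝 0) := by
    have := h1.norm.pow 2
    simpa using this
  have h3 : c * ‖b j - a j‖ ^ 2 ≤ 0 := by
    refine ge_of_tendsto h2 ?_
    filter_upwards [eventually_gt_atTop j] with n hn
    refine le_trans ?_ (lower (range n) fun i => b i - a i)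
    refine mul_le_mul_of_nonneg_left ?_ hc.le
    exact single_le_sum (f := fun i => ‖b i - a i‖ ^ 2) (fun _ _ => sq_nonneg _)
      (mem_range.mpr hn)
  have h4 : ‖b j - a j‖ ^ 2 ≤ 0 := by
    by_contra h
    push Not at h
    nlinarith
  have h5 : ‖b j - a j‖ = 0 := by
    have := sq_nonneg ‖b j - a j‖
    have h6 : ‖b j - a j‖ ^ 2 = 0 := le_antisymm h4 this
    exact pow_eq_zero_iff two_ne_zero |>.mp h6
  exact sub_eq_zero.mp (norm_eq_zero.mp h5)

end Pool.Agent.R945.RB
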