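import Pool.Agent.R945.RB.D

/-!
# Root vectors of the point-restart Laplacian: completeness
-/

set_option autoImplicit false

open Finset MeasureTheory intervalIntegral Real

namespace Pool.Agent.R945.RB

/-- uniqueness of Fourier coefficients on an interval -/
lemma fourier_unique {a b : ℝ} (hab : a < b) {h : ℝ → ℂ}
    (hL2 : MemLp h 2 (volume.restrict (Set.Ioc a b)))
    (h0 : ∀ n : ℤ, ∫ x in a..b, Complex.exp (-(2 * π * Complex.I * n * x / (b - a))) * h x = 0) :
    ∀ᵐ x ∂(volume.restrict (Set.Ioc a b)), h x = 0 := by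
  have hs := hasSum_sq_fourierCoeffOn hab hL2
  have hz : ∀ n, fourierCoeffOn hab h n = 0 := by
    intro n
    rw [fourierCoeffOn_eq_integral]
    have e : ∫ x in a..b, fourier (-n) (x : AddCircle (b - a)) • h x =
        ∫ x in a..b, Complex.exp (-(2 * π * Complex.I * n * x / (b - a))) * h x := by
      refine integral_congr fun x _ => ?_
      simp only [smul_eq_mul]
      rw [fourier_coe_apply]
      congr 2
      push_cast
      ring
    rw [e, h0, smul_zero]
  have hs' : HasSum (fun _ : ℤ => (0 : ℝ)) ((b - a)⁻¹ • ∫ x in a..b, ‖h x‖ ^ 2) := by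
    have e : (fun i => ‖fourierCoeffOn hab h i‖ ^ 2) = fun _ : ℤ => (0 : ℝ) := by
      funext i
      rw [hz]; simp
    rwa [e] at hs
  have h1 : (b - a)⁻¹ • ∫ x in a..b, ‖h x‖ ^ 2 = 0 := hs'.unique hasSum_zero
  have h2 : ∫ x in a..b, ‖h x‖ ^ 2 = 0 := by
    rcases smul_eq_zero.mp h1 with h | h
    · exact absurd h (inv_ne_zero (by linarith : b - a ≠ 0))
    · exact h
  rw [intervalIntegral.integral_of_le hab.le] at h2
  have h3 := (integral_eq_zero_iff_of_nonneg (fun x => sq_nonneg ‖h x‖)
    ((memLp_two_iff_integrable_sq_norm hL2.1).mp hL2)).mp h2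
  filter_upwards [h3] with x hx
  have : ‖h x‖ ^ 2 = 0 := hx
  exact norm_eq_zero.mp (pow_eq_zero_iff two_ne_zero |>.mp this)

lemma int_split' {f : ℝ → ℂ} (hf : ∀ a b, IntervalIntegrable f volume a b) (s d : ℝ) (N : ℕ) :
    ∫ x in s..(s + N * d), f x = ∫ y in s..(s + d), ∑ j ∈ range N, f (y + j * d) := by
  have hsh : ∀ (c a b : ℝ), IntervalIntegrable (fun y => f (y + c)) volume a b := by
    intro c a b
    have := (hf (a + c) (b + c)).comp_add_right c
    simpa using this
  induction N with
  | zero => simp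
  | succ N ih =>
    have h1 : ∫ x in s..(s + (N + 1 : ℕ) * d), f x = (∫ x in s..(s + N * d), f x) +
        ∫ x in (s + N * d)..(s + (N + 1 : ℕ) * d), f x :=
      (integral_add_adjacent_intervals (hf _ _) (hf _ _)).symm
    have h2 : ∫ x in (s + N * d)..(s + (N + 1 : ℕ) * d), f x =
        ∫ y in s..(s + d), f (y + N * d) := by
      rw [intervalIntegral.integral_comp_add_right (fun x => f x)]
      congr 1
      push_cast; ring
    rw [h1, h2, ih]
    simp_rw [sum_range_succ]
    rw [intervalIntegral.integral_add]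
    · have : IntervalIntegrable (∑ j ∈ range N, fun x => f (x + j * d)) volume s (s + d) :=
        IntervalIntegrable.sum _ fun j _ => hsh _ _ _
      refine this.congr fun x _ => ?_
      simp
    · exact hsh _ _ _

lemma memLp_shift {g : ℝ → ℂ} (hg : MemLp g 2 volume) (c : ℝ) :
    MemLp (fun y => g (y + c)) 2 volume :=
  hg.comp_measurePreserving (measurePreserving_add_right volume c)

lemma memLp_int {g : ℝ → ℂ} (hg : MemLp g 2 volume) (a b : ℝ) :
    IntervalIntegrable g volume a b := by
  have h1 : LocallyIntegrable g volume := hg.locallyIntegrable (by norm_num)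
  exact (h1.integrableOn_isCompact isCompact_uIcc).intervalIntegrable

lemma cmul_int {g φ : ℝ → ℂ} (hg : MemLp g 2 volume) (hφ : Continuous φ) (a b : ℝ) :
    IntervalIntegrable (fun x => φ x * g x) volume a b :=
  (memLp_int hg a b).continuousOn_mul hφ.continuousOn

lemma memLp_even {g : ℝ → ℂ} (hg : MemLp g 2 volume) :
    MemLp (fun x => (g x + g (-x)) / 2) 2 volume := by
  have hg' : MemLp (fun x => g (-x)) 2 volume :=
    hg.comp_measurePreserving (Measure.measurePreserving_neg volume)
  have := (hg.add hg').const_mul (1 / 2 : ℂ)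
  refine this.ae_eq (Filter.Eventually.of_forall fun x => ?_)
  simp; ring

lemma even_test {g φ : ℝ → ℂ} (hg : MemLp g 2 volume) (hφ : Continuous φ)
    (hev : ∀ x, φ (-x) = φ x) (L : ℝ) :
    ∫ x in (-L)..L, φ x * ((g x + g (-x)) / 2) = ∫ x in (-L)..L, φ x * g x := by
  have hg' : MemLp (fun x => g (-x)) 2 volume :=
    hg.comp_measurePreserving (Measure.measurePreserving_neg volume)
  have h1 : ∫ x in (-L)..L, φ x * g (-x) = ∫ x in (-L)..L, φ x * g x := by
    have := intervalIntegral.integral_comp_neg (a := -L) (b := L) (fun x => φ x * g x)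
    rw [neg_neg] at this
    rw [← this]
    refine integral_congr fun x _ => ?_
    rw [hev]
  have e : ∀ x, φ x * ((g x + g (-x)) / 2) = (1 / 2) * (φ x * g x) + (1 / 2) * (φ x * g (-x)) := by
    intro x; ring
  simp_rw [e]
  rw [intervalIntegral.integral_add ((cmul_int hg hφ _ _).const_mul _)
    ((cmul_int hg' hφ _ _).const_mul _), intervalIntegral.integral_const_mul,
    intervalIntegral.integral_const_mul, h1]
  ring

lemma odd_test {g φ : ℝ → ℂ} (hodd : ∀ x, φ (-x) = - φ x) (L : ℝ) :
    ∫ x in (-L)..L, φ x * ((g x + g (-x)) / 2) = 0 := by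
  have := intervalIntegral.integral_comp_neg (a := -L) (b := L)
    (fun x => φ x * ((g x + g (-x)) / 2))
  rw [neg_neg] at this
  have e : ∀ x, φ (-x) * ((g (-x) + g (- -x)) / 2) = -(φ x * ((g x + g (-x)) / 2)) := by
    intro x
    rw [hodd, neg_neg]; ring
  simp_rw [e] at this
  rw [intervalIntegral.integral_neg] at this
  have h2 : (2 : ℂ) * ∫ x in (-L)..L, φ x * ((g x + g (-x)) / 2) = 0 := by
    linear_combination -this
  simpa using h2

/-- an exponential tested against an even function -/
lemma exp_test {g : ℝ → ℂ} (hg : MemLp g 2 volume) (w : ℝ) (L : ℝ)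
    (h : ∫ x in (-L)..L, (cos (w * x) : ℂ) * g x = 0) :
    ∫ x in (-L)..L, Complex.exp (Complex.I * (w * x)) * ((g x + g (-x)) / 2) = 0 := by
  have hge : MemLp (fun x => (g x + g (-x)) / 2) 2 volume := by
    have hg' : MemLp (fun x => g (-x)) 2 volume :=
      hg.comp_measurePreserving (Measure.measurePreserving_neg volume)
    have := (hg.add hg').const_mul (1 / 2 : ℂ)
    refine this.ae_eq (Filter.Eventually.of_forall fun x => ?_)
    simp; ring
  have e : ∀ x : ℝ, Complex.exp (Complex.I * (w * x)) * ((g x + g (-x)) / 2) =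
      (cos (w * x) : ℂ) * ((g x + g (-x)) / 2) +
        (Complex.I * (sin (w * x) : ℂ)) * ((g x + g (-x)) / 2) := by
    intro x
    have : Complex.exp (Complex.I * (w * x)) = (cos (w * x) : ℂ) + Complex.I * (sin (w * x) : ℂ) := by
      rw [mul_comm, Complex.exp_mul_I]
      push_cast; ring
    rw [this]; ring
  simp_rw [e]
  rw [intervalIntegral.integral_add, odd_test (φ := fun x : ℝ => Complex.I * (sin (w * x) : ℂ)),
    even_test hg (φ := fun x : ℝ => (cos (w * x) : ℂ)), h, add_zero]
  · fun_prop
  · intro x; simp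
  · intro x
    simp
  · exact cmul_int hge (φ := fun x : ℝ => (cos (w * x) : ℂ)) (by fun_prop) _ _
  · exact cmul_int hge (φ := fun x : ℝ => Complex.I * (sin (w * x) : ℂ)) (by fun_prop) _ _

section main

variable {P Q : ℕ}

/-- if all exponentials of the class `r` (and its translates by the common unit) are orthogonal
to `e`, then the fibre sums vanish almost everywhere -/
lemma class_zero (hP : 0 < P) {e : ℝ → ℂ} (he : MemLp e 2 volume) (r : ℝ)
    (h : ∀ n : ℤ, ∫ x in (-(π / 2))..(π / 2),
      Complex.exp (Complex.I * ((r - w0 P Q * n : ℝ) * x)) * e x = 0) :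
    ∀ᵐ y ∂(volume.restrict (Set.Ioc (-(π / 2)) (-(π / 2) + dl P Q))),
      ∑ j ∈ range (P + Q), e (y + j * dl P Q) * Complex.exp (Complex.I * (r * (j * dl P Q))) = 0 := by
  have hδ := dl_pos (Q := Q) hP
  have hNδ : ((P + Q : ℕ) : ℝ) * dl P Q = π := dl_mul hP
  set δ := dl P Q with hδd
  set s : ℝ := -(π / 2) with hs
  have hse : π / 2 = s + ((P + Q : ℕ) : ℝ) * δ := by rw [hNδ, hs]; ring
  have hmem : MemLp (fun y : ℝ => ∑ j ∈ range (P + Q),
      Complex.exp (Complex.I * (r * (y + j * δ))) * e (y + j * δ)) 2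
      (volume.restrict (Set.Ioc s (s + δ))) := by
    refine memLp_finsetSum _ fun j _ => ?_
    have h1 : MemLp (fun y => e (y + j * δ)) 2 volume := memLp_shift he _
    refine MemLp.mono_measure Measure.restrict_le_self ?_
    refine MemLp.of_le h1 ?_ ?_
    · refine AEStronglyMeasurable.mul ?_ h1.1
      exact (Continuous.aestronglyMeasurable (by fun_prop))
    · filter_upwards with y
      rw [norm_mul]
      have this : Complex.I * ((r : ℂ) * ((y : ℂ) + (j : ℂ) * (δ : ℂ))) =
          ((r * (y + (j : ℝ) * δ) : ℝ) : ℂ) * Complex.I := by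
        push_cast; ring
      rw [this, Complex.norm_exp_ofReal_mul_I, one_mul]
  have hz := fourier_unique (by linarith : s < s + δ) hmem (fun n => by
    have hn := h n
    rw [hse] at hn
    rw [int_split' (fun a b => cmul_int he (φ := fun x : ℝ =>
      Complex.exp (Complex.I * ((r - w0 P Q * n : ℝ) * x))) (by fun_prop) a b) s δ (P + Q)] at hn
    rw [← hn]
    refine integral_congr fun y _ => ?_
    rw [mul_sum]
    refine sum_congr rfl fun j _ => ?_
    rw [← mul_assoc, ← Complex.exp_add]
    congr 1
    have hw := w0_dl (Q := Q) hP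
    rw [← hδd] at hw
    have hδne : (δ : ℂ) ≠ 0 := by exact_mod_cast hδ.ne'
    have hw' : (2 * π / δ : ℂ) = (w0 P Q : ℂ) := by
      rw [div_eq_iff hδne]
      exact_mod_cast hw.symm
    rw [Complex.exp_eq_exp_iff_exists_int]
    refine ⟨n * j, ?_⟩
    have e1 : -(2 * (π : ℂ) * Complex.I * n * y / ((s + δ : ℝ) - s)) =
        -(Complex.I * n * y * (2 * π / δ)) := by
      push_cast
      rw [add_sub_cancel_left]
      ring
    rw [e1, hw']
    have hw'' : (w0 P Q : ℂ) * δ = 2 * π := by exact_mod_cast hw
    push_cast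
    linear_combination (Complex.I * n * j) * hw'')
  filter_upwards [hz] with y hy
  have h2 : ∑ j ∈ range (P + Q), Complex.exp (Complex.I * (r * (y + j * δ))) * e (y + j * δ) =
      Complex.exp (Complex.I * (r * y)) *
        ∑ j ∈ range (P + Q), e (y + j * δ) * Complex.exp (Complex.I * (r * (j * δ))) := by
    rw [mul_sum]
    refine sum_congr rfl fun j _ => ?_
    have : Complex.exp (Complex.I * (r * (y + j * δ))) =
        Complex.exp (Complex.I * (r * y)) * Complex.exp (Complex.I * (r * (j * δ))) := by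
      rw [← Complex.exp_add]; congr 1; ring
    rw [this]; ring
  rw [h2] at hy
  exact (mul_eq_zero.mp hy).resolve_left (Complex.exp_ne_zero _)

/-- the same for the functions multiplied by `x` -/
lemma class_zero_x (hP : 0 < P) {e : ℝ → ℂ} (he : MemLp e 2 volume)
    (h : ∀ n : ℤ, ∫ x in (-(π / 2))..(π / 2),
      (x * Complex.exp (Complex.I * ((w0 P Q * n : ℝ) * x))) * e x = 0) :
    ∀ᵐ y ∂(volume.restrict (Set.Ioc (-(π / 2)) (-(π / 2) + dl P Q))),
      ∑ j ∈ range (P + Q), ((y + j * dl P Q : ℝ) : ℂ) * e (y + j * dl P Q) = 0 := by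
  have hδ := dl_pos (Q := Q) hP
  have hNδ : ((P + Q : ℕ) : ℝ) * dl P Q = π := dl_mul hP
  set δ := dl P Q with hδd
  set s : ℝ := -(π / 2) with hs
  have hse : π / 2 = s + ((P + Q : ℕ) : ℝ) * δ := by rw [hNδ, hs]; ring
  have hmem : MemLp (fun y : ℝ => ∑ j ∈ range (P + Q), ((y + j * δ : ℝ) : ℂ) * e (y + j * δ)) 2
      (volume.restrict (Set.Ioc s (s + δ))) := by
    refine memLp_finsetSum _ fun j _ => ?_
    have h1 : MemLp (fun y => e (y + j * δ)) 2 (volume.restrict (Set.Ioc s (s + δ))) :=
      (memLp_shift he _).mono_measure Measure.restrict_le_self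
    refine MemLp.of_le_mul (c := |s| + |δ| + j * |δ|) h1 ?_ ?_
    · refine AEStronglyMeasurable.mul ?_ h1.1
      exact (Continuous.aestronglyMeasurable (by fun_prop))
    · filter_upwards [ae_restrict_mem measurableSet_Ioc] with y hy
      rw [norm_mul]
      refine mul_le_mul_of_nonneg_right ?_ (norm_nonneg _)
      rw [Complex.norm_real, Real.norm_eq_abs]
      have h2 : |y| ≤ |s| + |δ| := by
        rw [abs_le]
        have h3 := neg_abs_le s
        have h4 := le_abs_self s
        have h5 := le_abs_self δ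
        have h6 := abs_nonneg δ
        have h7 := abs_nonneg s
        constructor
        · linarith [hy.1]
        · linarith [hy.2]
      calc |y + j * δ| ≤ |y| + |j * δ| := abs_add_le _ _
        _ ≤ _ := by
          rw [abs_mul, Nat.abs_cast]
          linarith
  have hz := fourier_unique (by linarith : s < s + δ) hmem (fun n => by
    have hn := h (-n)
    rw [hse] at hn
    rw [int_split' (fun a b => cmul_int he (φ := fun x : ℝ =>
      (x * Complex.exp (Complex.I * ((w0 P Q * (-n : ℤ) : ℝ) * x)))) (by fun_prop) a b)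
      s δ (P + Q)] at hn
    rw [← hn]
    refine integral_congr fun y _ => ?_
    rw [mul_sum]
    refine sum_congr rfl fun j _ => ?_
    have hw := w0_dl (Q := Q) hP
    rw [← hδd] at hw
    have hδne : (δ : ℂ) ≠ 0 := by exact_mod_cast hδ.ne'
    have hw' : (2 * π / δ : ℂ) = (w0 P Q : ℂ) := by
      rw [div_eq_iff hδne]
      exact_mod_cast hw.symm
    have hw'' : (w0 P Q : ℂ) * δ = 2 * π := by exact_mod_cast hw
    have key : Complex.exp (-(2 * (π : ℂ) * Complex.I * n * y / ((s + δ : ℝ) - s))) =
        Complex.exp (Complex.I * ((w0 P Q * (-n : ℤ) : ℝ) * (y + j * δ : ℝ))) := by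
      rw [Complex.exp_eq_exp_iff_exists_int]
      refine ⟨n * j, ?_⟩
      have e1 : -(2 * (π : ℂ) * Complex.I * n * y / ((s + δ : ℝ) - s)) =
          -(Complex.I * n * y * (2 * π / δ)) := by
        push_cast
        rw [add_sub_cancel_left]
        ring
      rw [e1, hw']
      push_cast
      linear_combination (Complex.I * n * j) * hw''
    rw [key]
    ring)
  exact hz

end main

end Pool.Agent.R945.RB
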