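import Pool.Agent.R945.RB.F

/-!
# Root vectors of the point-restart Laplacian: completeness, main theorem
-/

set_option autoImplicit false

open Finset MeasureTheory intervalIntegral Real

namespace Pool.Agent.R945.RB

variable {P Q : ℕ}

lemma w0_eq_wP (hP : 0 < P) : w0 P Q = wP P Q * P := by
  unfold w0 wP
  field_simp

lemma w0_eq_wQ (hQ : 0 < Q) : w0 P Q = wQ P Q * Q := by
  unfold w0 wQ
  field_simp

theorem complete (hP : 0 < P) (hQ : 0 < Q) (hc : Nat.Coprime P Q) {g : ℝ → ℂ}
    (hg : MemLp g 2 volume)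
    (h : ∀ i : JJ Q, ∫ x in (-(π / 2))..(π / 2), (psi P Q i x : ℂ) * g x = 0) :
    ∀ᵐ x ∂(volume.restrict (Set.Ioc (-(π / 2)) (π / 2))), g x = 0 := by
  set e : ℝ → ℂ := fun x => (g x + g (-x)) / 2 with he
  have hme : MemLp e 2 volume := memLp_even hg
  have hδ := dl_pos (Q := Q) hP
  have hNδ : ((P + Q : ℕ) : ℝ) * dl P Q = π := dl_mul hP
  have hπ := pi_pos
  have hcosP : ∀ m : ℤ, ∫ x in (-(π / 2))..(π / 2), (cos (wP P Q * m * x) : ℂ) * g x = 0 := by
    intro m
    rw [← h (.inr (.inl m.natAbs))]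
    refine integral_congr fun x _ => ?_
    simp only [psi]
    congr 2
    rcases Int.natAbs_eq m with hm | hm
    · conv_lhs => rw [hm]
      simp
    · conv_lhs => rw [hm]
      push_cast
      rw [show wP P Q * -(|(m : ℝ)|) * x = -(wP P Q * |(m : ℝ)| * x) by ring, cos_neg]
      simp [Nat.cast_natAbs]
  have hcosQ : ∀ m : ℤ, ∫ x in (-(π / 2))..(π / 2), (cos (wQ P Q * m * x) : ℂ) * g x = 0 := by
    intro m
    by_cases hd : Q ∣ m.natAbs
    · obtain ⟨k, hk⟩ : (Q : ℤ) ∣ m := by
        rw [← Int.natCast_dvd_natCast] at hd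
        exact Int.dvd_natAbs.mp hd
      rw [← hcosP (P * k)]
      refine integral_congr fun x _ => ?_
      congr 3
      rw [hk]
      push_cast
      have h1 := w0_eq_wP (Q := Q) hP
      have h2 := w0_eq_wQ (P := P) hQ
      linear_combination (-(k : ℝ) * x) * h2 + ((k : ℝ) * x) * h1
    · rw [← h (.inr (.inr (.inl ⟨m.natAbs, hd⟩)))]
      refine integral_congr fun x _ => ?_
      simp only [psi]
      congr 2
      rcases Int.natAbs_eq m with hm | hm
      · conv_lhs => rw [hm]
        simp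
      · conv_lhs => rw [hm]
        push_cast
        rw [show wQ P Q * -(|(m : ℝ)|) * x = -(wQ P Q * |(m : ℝ)| * x) by ring, cos_neg]
        simp [Nat.cast_natAbs]
  have hxs1 : ∀ n : ℕ, ∫ x in (-(π / 2))..(π / 2), ((x * sin (w0 P Q * n * x) : ℝ) : ℂ) * g x = 0 := by
    intro n
    rcases n with _ | n
    · simp
    · rw [← h (.inr (.inr (.inr n)))]
      rfl
  have hxs : ∀ n : ℤ, ∫ x in (-(π / 2))..(π / 2), ((x * sin (w0 P Q * n * x) : ℝ) : ℂ) * g x = 0 := by
    intro n
    rcases Int.natAbs_eq n with hn | hn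
    · have := hxs1 n.natAbs
      rw [← this]
      refine integral_congr fun x _ => ?_
      congr 4
      conv_lhs => rw [hn]
      simp
    · have h1 := hxs1 n.natAbs
      have h2 : ∫ x in (-(π / 2))..(π / 2), ((x * sin (w0 P Q * n * x) : ℝ) : ℂ) * g x =
          - ∫ x in (-(π / 2))..(π / 2), ((x * sin (w0 P Q * n.natAbs * x) : ℝ) : ℂ) * g x := by
        rw [← intervalIntegral.integral_neg]
        refine integral_congr fun x _ => ?_
        rw [← neg_mul]
        congr 1
        rw [← Complex.ofReal_neg]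
        congr 1
        rw [← mul_neg, ← sin_neg]
        congr 2
        conv_lhs => rw [hn]
        simp only [Nat.cast_natAbs]
        push_cast; ring
      rw [h2, h1, neg_zero]
  -- exponentials
  have hexpP : ∀ m : ℤ, ∫ x in (-(π / 2))..(π / 2),
      Complex.exp (Complex.I * ((wP P Q * m : ℝ) * x)) * e x = 0 := fun m => exp_test hg _ _ (by
    rw [← hcosP m])
  have hexpQ : ∀ m : ℤ, ∫ x in (-(π / 2))..(π / 2),
      Complex.exp (Complex.I * ((wQ P Q * m : ℝ) * x)) * e x = 0 := fun m => exp_test hg _ _ (by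
    rw [← hcosQ m])
  have hexpx : ∀ n : ℤ, ∫ x in (-(π / 2))..(π / 2),
      (x * Complex.exp (Complex.I * ((w0 P Q * n : ℝ) * x))) * e x = 0 := by
    intro n
    have e1 : ∀ x : ℝ, (x * Complex.exp (Complex.I * ((w0 P Q * n : ℝ) * x))) * e x =
        ((x * cos (w0 P Q * n * x) : ℝ) : ℂ) * e x +
          Complex.I * (((x * sin (w0 P Q * n * x) : ℝ) : ℂ) * e x) := by
      intro x
      have : Complex.exp (Complex.I * ((w0 P Q * n : ℝ) * x)) =
          (cos (w0 P Q * n * x) : ℂ) + Complex.I * (sin (w0 P Q * n * x) : ℂ) := by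
        rw [mul_comm, Complex.exp_mul_I]
        push_cast; ring
      rw [this]; push_cast; ring
    simp_rw [e1]
    rw [intervalIntegral.integral_add, intervalIntegral.integral_const_mul]
    · have h1 : ∫ x in (-(π / 2))..(π / 2), ((x * cos (w0 P Q * n * x) : ℝ) : ℂ) * e x = 0 :=
        odd_test (g := g) (φ := fun x : ℝ => ((x * cos (w0 P Q * n * x) : ℝ) : ℂ))
          (fun x => by simp) _
      have h2 : ∫ x in (-(π / 2))..(π / 2), ((x * sin (w0 P Q * n * x) : ℝ) : ℂ) * e x = 0 := by
        rw [← hxs n]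
        exact even_test hg (φ := fun x : ℝ => ((x * sin (w0 P Q * n * x) : ℝ) : ℂ))
          (by fun_prop) (fun x => by simp) _
      rw [h1, h2]; simp
    · exact cmul_int hme (φ := fun x : ℝ => ((x * cos (w0 P Q * n * x) : ℝ) : ℂ)) (by fun_prop) _ _
    · exact (cmul_int hme (φ := fun x : ℝ => ((x * sin (w0 P Q * n * x) : ℝ) : ℂ))
        (by fun_prop) _ _).const_mul _
  have hP' : (P : ℝ) ≠ 0 := by positivity
  have hQ' : (Q : ℝ) ≠ 0 := by positivity
  -- fibre sums
  have cP : ∀ m : ℕ, ∀ᵐ y ∂(volume.restrict (Set.Ioc (-(π / 2)) (-(π / 2) + dl P Q))),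
      ∑ j ∈ range (P + Q), e (y + j * dl P Q) *
        (Complex.exp (2 * Real.pi * Complex.I / P) ^ m) ^ j = 0 := by
    intro m
    have h1 := class_zero (Q := Q) hP hme (wP P Q * m) (fun n => by
      have h2 := hexpP (m - P * n)
      rw [← h2]
      refine integral_congr fun x _ => ?_
      congr 5
      push_cast
      rw [w0_eq_wP (Q := Q) hP]
      ring)
    filter_upwards [h1] with y hy
    rw [← hy]
    refine sum_congr rfl fun j _ => ?_
    congr 1
    rw [← Complex.exp_nat_mul, ← Complex.exp_nat_mul]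
    congr 1
    have h3 : (wP P Q : ℂ) * (dl P Q : ℂ) = 2 * π / P := by
      have := wP_dl (Q := Q) hP
      exact_mod_cast this
    push_cast
    linear_combination (-(j : ℂ) * m * Complex.I) * h3
  have cQ : ∀ m : ℕ, ∀ᵐ y ∂(volume.restrict (Set.Ioc (-(π / 2)) (-(π / 2) + dl P Q))),
      ∑ j ∈ range (P + Q), e (y + j * dl P Q) *
        (Complex.exp (2 * Real.pi * Complex.I / Q) ^ m) ^ j = 0 := by
    intro m
    have h1 := class_zero (Q := Q) hP hme (wQ P Q * m) (fun n => by
      have h2 := hexpQ (m - Q * n)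
      rw [← h2]
      refine integral_congr fun x _ => ?_
      congr 5
      push_cast
      rw [w0_eq_wQ (P := P) hQ]
      ring)
    filter_upwards [h1] with y hy
    rw [← hy]
    refine sum_congr rfl fun j _ => ?_
    congr 1
    rw [← Complex.exp_nat_mul, ← Complex.exp_nat_mul]
    congr 1
    have h3 : (wQ P Q : ℂ) * (dl P Q : ℂ) = 2 * π / Q := by
      have := wQ_dl (P := P) hQ
      exact_mod_cast this
    push_cast
    linear_combination (-(j : ℂ) * m * Complex.I) * h3
  have cx := class_zero_x (Q := Q) hP hme hexpx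
  have hδc : (dl P Q : ℂ) ≠ 0 := by exact_mod_cast hδ.ne'
  have hall : ∀ᵐ y ∂(volume.restrict (Set.Ioc (-(π / 2)) (-(π / 2) + dl P Q))),
      ∀ j < P + Q, e (y + j * dl P Q) = 0 := by
    filter_upwards [ae_all_iff.mpr cP, ae_all_iff.mpr cQ, cx] with y h1 h2 h3
    refine fiber_dual hP hQ hc (fun j => e (y + j * dl P Q)) h1 h2 ?_
    have h4 := h1 0
    simp only [pow_zero, one_pow, mul_one] at h4
    have h5 : (dl P Q : ℂ) * ∑ j ∈ range (P + Q), (j : ℂ) * e (y + j * dl P Q) = 0 := by
      have h6 : ∑ j ∈ range (P + Q), ((y + j * dl P Q : ℝ) : ℂ) * e (y + j * dl P Q) =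
          y * ∑ j ∈ range (P + Q), e (y + j * dl P Q) +
            (dl P Q : ℂ) * ∑ j ∈ range (P + Q), (j : ℂ) * e (y + j * dl P Q) := by
        rw [mul_sum, mul_sum, ← sum_add_distrib]
        refine sum_congr rfl fun j _ => ?_
        push_cast; ring
      rw [h6, h4, mul_zero, zero_add] at h3
      exact h3
    exact (mul_eq_zero.mp h5).resolve_left hδc
  -- the even part vanishes
  have he0 : ∀ᵐ x ∂(volume.restrict (Set.Ioc (-(π / 2)) (π / 2))), e x = 0 := by
    have hint : Integrable (fun x => ‖e x‖ ^ 2) volume :=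
      (memLp_two_iff_integrable_sq_norm hme.1).mp hme
    have h1 : ∫ x in (-(π / 2))..(π / 2), ((‖e x‖ ^ 2 : ℝ) : ℂ) = 0 := by
      have hse : π / 2 = -(π / 2) + ((P + Q : ℕ) : ℝ) * dl P Q := by rw [hNδ]; ring
      nth_rewrite 2 [hse]
      rw [int_split' (f := fun x => ((‖e x‖ ^ 2 : ℝ) : ℂ)) (fun a b => (hint.ofReal).intervalIntegrable)]
      rw [intervalIntegral.integral_of_le (by linarith)]
      rw [MeasureTheory.integral_congr_ae (g := fun _ => (0 : ℂ))]
      · simp
      · filter_upwards [hall] with y hy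
        refine sum_eq_zero fun j hj => ?_
        rw [hy j (mem_range.mp hj)]
        simp
    rw [intervalIntegral.integral_ofReal] at h1
    have h2 : ∫ x in (-(π / 2))..(π / 2), ‖e x‖ ^ 2 = 0 := by exact_mod_cast h1
    rw [intervalIntegral.integral_of_le (by linarith)] at h2
    have h3 := (integral_eq_zero_iff_of_nonneg (fun x => sq_nonneg ‖e x‖)
      hint.integrableOn).mp h2
    filter_upwards [h3] with x hx
    have : ‖e x‖ ^ 2 = 0 := hx
    exact norm_eq_zero.mp (pow_eq_zero_iff two_ne_zero |>.mp this)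
  have hC : ∀ n : ℤ, ∫ x in (-(π / 2))..(π / 2), (cos (2 * n * x) : ℂ) * g x = 0 := by
    intro n
    rw [← even_test hg (φ := fun x : ℝ => (cos (2 * n * x) : ℂ)) (by fun_prop)
      (fun x => by simp)]
    rw [intervalIntegral.integral_of_le (by linarith), MeasureTheory.integral_congr_ae (g := fun _ => (0 : ℂ))]
    · simp
    · filter_upwards [he0] with x hx
      have : (g x + g (-x)) / 2 = 0 := hx
      rw [this, mul_zero]
  have hS1 : ∀ n : ℕ, ∫ x in (-(π / 2))..(π / 2), (sin (2 * n * x) : ℂ) * g x = 0 := by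
    intro n
    rcases n with _ | n
    · simp
    · have h1 := h (.inl n)
      have e1 : ∀ x : ℝ, (psi P Q (.inl n) x : ℂ) * g x = (sin (2 * (n + 1 : ℕ) * x) : ℂ) * g x +
          (cO P Q n : ℂ) * ((cos (2 * ((n + 1 : ℕ) : ℤ) * x) : ℂ) * g x) := by
        intro x
        simp only [psi]
        push_cast; ring
      simp_rw [e1] at h1
      rw [intervalIntegral.integral_add, intervalIntegral.integral_const_mul, hC, mul_zero,
        add_zero] at h1
      · exact h1
      · exact cmul_int hg (φ := fun x : ℝ => (sin (2 * (n + 1 : ℕ) * x) : ℂ)) (by fun_prop) _ _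
      · exact (cmul_int hg (φ := fun x : ℝ => (cos (2 * ((n + 1 : ℕ) : ℤ) * x) : ℂ))
          (by fun_prop) _ _).const_mul _
  have hS : ∀ n : ℤ, ∫ x in (-(π / 2))..(π / 2), (sin (2 * n * x) : ℂ) * g x = 0 := by
    intro n
    rcases Int.natAbs_eq n with hn | hn
    · rw [← hS1 n.natAbs]
      refine integral_congr fun x _ => ?_
      congr 3
      conv_lhs => rw [hn]
      simp
    · have h2 : ∫ x in (-(π / 2))..(π / 2), (sin (2 * n * x) : ℂ) * g x =
          - ∫ x in (-(π / 2))..(π / 2), (sin (2 * n.natAbs * x) : ℂ) * g x := by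
        rw [← intervalIntegral.integral_neg]
        refine integral_congr fun x _ => ?_
        rw [← neg_mul]
        congr 1
        rw [← Complex.ofReal_neg]
        congr 1
        rw [← sin_neg]
        congr 1
        conv_lhs => rw [hn]
        simp only [Nat.cast_natAbs]
        push_cast; ring
      rw [h2, hS1, neg_zero]
  refine fourier_unique (by linarith) (hg.mono_measure Measure.restrict_le_self) fun n => ?_
  have e1 : ∀ x : ℝ, Complex.exp (-(2 * π * Complex.I * n * x /
      (((π / 2 : ℝ) : ℂ) - ((-(π / 2) : ℝ) : ℂ)))) * g x =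
      (cos (2 * n * x) : ℂ) * g x + (-Complex.I) * ((sin (2 * n * x) : ℂ) * g x) := by
    intro x
    have hπc : (π : ℂ) ≠ 0 := by exact_mod_cast hπ.ne'
    have e2 : -(2 * π * Complex.I * n * x / (((π / 2 : ℝ) : ℂ) - ((-(π / 2) : ℝ) : ℂ))) =
        (-(2 * n * x : ℝ) : ℂ) * Complex.I := by
      push_cast
      field_simp
      ring
    rw [e2, Complex.exp_mul_I]
    push_cast
    rw [Complex.cos_neg, Complex.sin_neg]
    ring
  simp_rw [e1]
  rw [intervalIntegral.integral_add, intervalIntegral.integral_const_mul, hC, hS]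
  · simp
  · exact cmul_int hg (φ := fun x : ℝ => (cos (2 * n * x) : ℂ)) (by fun_prop) _ _
  · exact (cmul_int hg (φ := fun x : ℝ => (sin (2 * n * x) : ℂ)) (by fun_prop) _ _).const_mul _

end Pool.Agent.R945.RB
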