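import Pool.Agent.R945.RB.E
import Pool.Agent.R945.RB.G

/-!
# Root vectors of the point-restart Laplacian: transfer to the Hilbert space `L²`
-/

set_option autoImplicit false

open Finset MeasureTheory intervalIntegral Real

namespace Pool.Agent.R945.RB

/-- Lebesgue measure on the interval `(-π/2, π/2)`. -/
noncomputable abbrev μI : Measure ℝ := volume.restrict (Set.Ioo (-(π / 2)) (π / 2))

/-- The complex Hilbert space `L²((-π/2, π/2))`. -/
noncomputable abbrev HS := Lp ℂ 2 μI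

lemma μI_eq : μI = volume.restrict (Set.Ioc (-(π / 2)) (π / 2)) := by
  unfold μI
  exact restrict_Ioo_eq_restrict_Ioc

lemma ii_eq {E : Type*} [NormedAddCommGroup E] [NormedSpace ℝ E] (f : ℝ → E) :
    ∫ x in (-(π / 2))..(π / 2), f x = ∫ x, f x ∂μI := by
  have := pi_pos
  rw [intervalIntegral.integral_of_le (by linarith), μI_eq]

variable {P Q : ℕ}

lemma sum_JJ {M : Type*} [AddCommMonoid M] (F : Finset (JJ Q)) (f : JJ Q → M) :
    ∑ i ∈ F, f i = ∑ n ∈ F.toLeft, f (.inl n) + (∑ n ∈ F.toRight.toLeft, f (.inr (.inl n)) +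
      (∑ m ∈ F.toRight.toRight.toLeft, f (.inr (.inr (.inl m))) +
        ∑ n ∈ F.toRight.toRight.toRight, f (.inr (.inr (.inr n))))) := by
  have key : ∀ {α β : Type} (G : Finset (α ⊕ β)) (h : α ⊕ β → M),
      ∑ i ∈ G, h i = ∑ n ∈ G.toLeft, h (.inl n) + ∑ n ∈ G.toRight, h (.inr n) := by
    intro α β G h
    conv_lhs => rw [← Finset.toLeft_disjSum_toRight (u := G), sum_disjSum]
  rw [key F, key F.toRight, key F.toRight.toRight]

theorem riesz_real (hP : 0 < P) (hQ : 0 < Q) (hc : Nat.Coprime P Q) : ∃ c C : ℝ, 0 < c ∧ 0 ≤ C ∧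
    ∀ (F : Finset (JJ Q)) (t : JJ Q → ℝ),
      c * ∑ i ∈ F, t i ^ 2 ≤ ∫ x in (-(π / 2))..(π / 2), (∑ i ∈ F, t i * psi P Q i x) ^ 2 ∧
      ∫ x in (-(π / 2))..(π / 2), (∑ i ∈ F, t i * psi P Q i x) ^ 2 ≤ C * ∑ i ∈ F, t i ^ 2 := by
  classical
  obtain ⟨c, C, hc0, hC0, h⟩ := riesz_split hP hQ hc
  refine ⟨c, C, hc0, hC0, fun F t => ?_⟩
  have h1 := h F.toLeft F.toRight.toLeft
    (F.toRight.toRight.toLeft.map (Function.Embedding.subtype _)) F.toRight.toRight.toRight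
    (fun n => t (.inl n)) (fun n => t (.inr (.inl n)))
    (fun m => if hm : ¬ Q ∣ m then t (.inr (.inr (.inl ⟨m, hm⟩))) else 0)
    (fun n => t (.inr (.inr (.inr n)))) (by
      intro m hm
      rw [mem_map] at hm
      obtain ⟨y, -, rfl⟩ := hm
      exact y.2)
  have e1 : ∑ m ∈ F.toRight.toRight.toLeft.map (Function.Embedding.subtype _),
      (if hm : ¬ Q ∣ m then t (.inr (.inr (.inl ⟨m, hm⟩))) else 0) ^ 2 =
      ∑ m ∈ F.toRight.toRight.toLeft, t (.inr (.inr (.inl m))) ^ 2 := by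
    rw [sum_map]
    refine sum_congr rfl fun m _ => ?_
    simp [m.2]
  have e2 : ∀ x, fV P Q (F.toRight.toRight.toLeft.map (Function.Embedding.subtype _))
      (fun m => if hm : ¬ Q ∣ m then t (.inr (.inr (.inl ⟨m, hm⟩))) else 0) x =
      ∑ m ∈ F.toRight.toRight.toLeft, t (.inr (.inr (.inl m))) * psi P Q (.inr (.inr (.inl m))) x := by
    intro x
    unfold fV
    rw [sum_map]
    refine sum_congr rfl fun m _ => ?_
    simp [m.2, psi]
  have e3 : ∀ x, (∑ n ∈ F.toLeft, t (.inl n) * (sin (2 * (n + 1 : ℕ) * x) +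
        cO P Q n * cos (2 * (n + 1 : ℕ) * x)) +
        (fU P Q F.toRight.toLeft (fun n => t (.inr (.inl n))) x +
        fV P Q (F.toRight.toRight.toLeft.map (Function.Embedding.subtype _))
      (fun m => if hm : ¬ Q ∣ m then t (.inr (.inr (.inl ⟨m, hm⟩))) else 0) x +
        x * fW P Q F.toRight.toRight.toRight (fun n => t (.inr (.inr (.inr n)))) x)) =
      ∑ i ∈ F, t i * psi P Q i x := by
    intro x
    rw [sum_JJ, e2]
    unfold fU fW
    rw [mul_sum]
    rw [add_assoc (∑ m ∈ _, _)]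
    congr 1
    congr 1
    congr 1
    refine sum_congr rfl fun n _ => ?_
    simp only [psi]
    ring
  simp only [e3, e1] at h1
  have e4 : ∑ i ∈ F, t i ^ 2 = ∑ n ∈ F.toLeft, t (.inl n) ^ 2 +
      ∑ n ∈ F.toRight.toLeft, t (.inr (.inl n)) ^ 2 +
      ∑ m ∈ F.toRight.toRight.toLeft, t (.inr (.inr (.inl m))) ^ 2 +
        ∑ n ∈ F.toRight.toRight.toRight, t (.inr (.inr (.inr n))) ^ 2 := by
    rw [sum_JJ F (fun i => t i ^ 2)]
    ring
  rw [e4]
  exact h1

lemma memLp_cont {φ : ℝ → ℂ} (hφ : Continuous φ) : MemLp φ 2 μI := by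
  obtain ⟨C, hC⟩ := (isCompact_Icc (a := -(π / 2)) (b := π / 2)).exists_bound_of_continuousOn
    hφ.continuousOn
  refine MemLp.of_bound hφ.aestronglyMeasurable C ?_
  rw [ae_restrict_iff' measurableSet_Ioo]
  exact Filter.Eventually.of_forall fun x hx => hC x ⟨hx.1.le, hx.2.le⟩

/-- the class of a continuous function -/
noncomputable def cl (φ : ℝ → ℂ) (hφ : Continuous φ) : HS := (memLp_cont hφ).toLp φ

lemma cl_coe (φ : ℝ → ℂ) (hφ : Continuous φ) : ∀ᵐ x ∂μI, cl φ hφ x = φ x :=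
  MemLp.coeFn_toLp _

lemma psi_cc (P Q : ℕ) (i : JJ Q) : Continuous fun x => (psi P Q i x : ℂ) :=
  Complex.continuous_ofReal.comp (psi_cont P Q i)

/-- the root vectors -/
noncomputable def Psi (P Q : ℕ) (i : JJ Q) : HS :=
  cl (fun x => (psi P Q i x : ℂ)) (psi_cc P Q i)

lemma norm_sq_cl (φ : ℝ → ℂ) (hφ : Continuous φ) :
    ‖cl φ hφ‖ ^ 2 = ∫ x in (-(π / 2))..(π / 2), ‖φ x‖ ^ 2 := by
  have h1 : (‖cl φ hφ‖ ^ 2 : ℝ) = RCLike.re (inner ℂ (cl φ hφ) (cl φ hφ)) := by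
    rw [inner_self_eq_norm_sq]
  rw [h1, L2.inner_def, ii_eq, ← integral_re]
  · refine MeasureTheory.integral_congr_ae ?_
    filter_upwards [cl_coe φ hφ] with x hx
    rw [hx, inner_self_eq_norm_sq]
  · exact L2.integrable_inner _ _

lemma cl_smul_add (φ χ : ℝ → ℂ) (hφ : Continuous φ) (hχ : Continuous χ) (c : ℂ)
    (hs : Continuous fun x => c * φ x + χ x) :
    c • cl φ hφ + cl χ hχ = cl (fun x => c * φ x + χ x) hs := by
  refine Lp.ext ?_
  filter_upwards [Lp.coeFn_add (c • cl φ hφ) (cl χ hχ), Lp.coeFn_smul c (cl φ hφ), cl_coe φ hφ,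
    cl_coe χ hχ, cl_coe _ hs] with x h1 h2 h3 h4 h5
  rw [h1, h5, Pi.add_apply, h2, Pi.smul_apply, h3, h4, smul_eq_mul]

lemma cl_congr {φ χ : ℝ → ℂ} (hφ : Continuous φ) (hχ : Continuous χ) (h : ∀ x, φ x = χ x) :
    cl φ hφ = cl χ hχ := by
  obtain rfl : φ = χ := funext h
  rfl

lemma cl_zero : cl (fun _ => 0) continuous_const = 0 := by
  refine Lp.ext ?_
  filter_upwards [cl_coe _ continuous_const, Lp.coeFn_zero ℂ 2 μI] with x h1 h2
  rw [h1, h2]; rfl

lemma sum_cont (F : Finset (JJ Q)) (c : JJ Q → ℂ) :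
    Continuous (fun x => ∑ i ∈ F, c i * (psi P Q i x : ℂ)) :=
  continuous_finsetSum _ fun i _ => continuous_const.mul (psi_cc P Q i)

lemma sum_cl (F : Finset (JJ Q)) (c : JJ Q → ℂ) :
    ∑ i ∈ F, c i • Psi P Q i = cl (fun x => ∑ i ∈ F, c i * (psi P Q i x : ℂ)) (sum_cont F c) := by
  classical
  induction F using Finset.induction_on with
  | empty =>
    rw [sum_empty, ← cl_zero]
    exact cl_congr _ _ fun x => by simp
  | insert i F hi ih =>
    rw [sum_insert hi, ih]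
    unfold Psi
    rw [cl_smul_add _ _ _ _ _ ((continuous_const.mul (psi_cc P Q i)).add (sum_cont F c))]
    exact cl_congr _ _ fun x => by rw [sum_insert hi]

theorem riesz_complex (hP : 0 < P) (hQ : 0 < Q) (hc : Nat.Coprime P Q) :
    ∃ c C : ℝ, 0 < c ∧ 0 ≤ C ∧ ∀ (F : Finset (JJ Q)) (t : JJ Q → ℂ),
      c * ∑ i ∈ F, ‖t i‖ ^ 2 ≤ ‖∑ i ∈ F, t i • Psi P Q i‖ ^ 2 ∧
      ‖∑ i ∈ F, t i • Psi P Q i‖ ^ 2 ≤ C * ∑ i ∈ F, ‖t i‖ ^ 2 := by
  obtain ⟨c, C, hc0, hC0, h⟩ := riesz_real hP hQ hc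
  refine ⟨c, C, hc0, hC0, fun F t => ?_⟩
  have hcont : ∀ s : JJ Q → ℝ, Continuous fun x => ∑ i ∈ F, s i * psi P Q i x := fun s =>
    continuous_finsetSum _ fun i _ => continuous_const.mul (psi_cont P Q i)
  have hre := h F fun i => (t i).re
  have him := h F fun i => (t i).im
  have e1 : ‖∑ i ∈ F, t i • Psi P Q i‖ ^ 2 =
      (∫ x in (-(π / 2))..(π / 2), (∑ i ∈ F, (t i).re * psi P Q i x) ^ 2) +
        ∫ x in (-(π / 2))..(π / 2), (∑ i ∈ F, (t i).im * psi P Q i x) ^ 2 := by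
    rw [sum_cl, norm_sq_cl, ← intervalIntegral.integral_add]
    · refine integral_congr fun x _ => ?_
      rw [← Complex.normSq_eq_norm_sq, Complex.normSq_apply]
      rw [Complex.re_sum, Complex.im_sum]
      simp only [Complex.mul_re, Complex.mul_im, Complex.ofReal_re, Complex.ofReal_im, mul_zero,
        sub_zero, zero_add]
      ring
    · exact ((hcont _).pow 2).intervalIntegrable _ _
    · exact ((hcont _).pow 2).intervalIntegrable _ _
  have e2 : ∑ i ∈ F, ‖t i‖ ^ 2 = ∑ i ∈ F, (t i).re ^ 2 + ∑ i ∈ F, (t i).im ^ 2 := by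
    rw [← sum_add_distrib]
    refine sum_congr rfl fun i _ => ?_
    rw [← Complex.normSq_eq_norm_sq, Complex.normSq_apply]; ring
  rw [e1, e2]
  constructor
  · linarith [hre.1, him.1]
  · linarith [hre.2, him.2]

theorem dense_span (hP : 0 < P) (hQ : 0 < Q) (hc : Nat.Coprime P Q) :
    (Submodule.span ℂ (Set.range (Psi P Q))).topologicalClosure = ⊤ := by
  rw [Submodule.topologicalClosure_eq_top_iff, Submodule.eq_bot_iff]
  intro f hf
  have hf' : ∀ i, inner ℂ f (Psi P Q i) = 0 := fun i =>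
    Submodule.inner_left_of_mem_orthogonal (Submodule.subset_span (Set.mem_range_self i)) hf
  -- the extension of the conjugate of `f`
  set g : ℝ → ℂ := (Set.Ioo (-(π / 2)) (π / 2)).indicator (fun x => (starRingEnd ℂ) (f x)) with hg
  have hmg : MemLp g 2 volume := by
    rw [hg, memLp_indicator_iff_restrict measurableSet_Ioo]
    exact (Lp.memLp f).star
  have h0 := complete hP hQ hc hmg (fun i => by
    rw [ii_eq, ← hf' i, L2.inner_def]
    refine MeasureTheory.integral_congr_ae ?_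
    filter_upwards [cl_coe _ (psi_cc P Q i), ae_restrict_mem measurableSet_Ioo] with x h1 h2
    have h3 : (Psi P Q i : HS) x = (psi P Q i x : ℂ) := h1
    rw [h3, hg, Set.indicator_of_mem h2]
    simp)
  rw [← μI_eq] at h0
  refine Lp.ext ?_
  filter_upwards [h0, Lp.coeFn_zero ℂ 2 μI, ae_restrict_mem measurableSet_Ioo] with x h1 h2 h3
  rw [h2, Pi.zero_apply]
  rw [hg, Set.indicator_of_mem h3] at h1
  simpa using h1

end Pool.Agent.R945.RB
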