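import Pool.Agent.R945.RB.H

/-!
# Root vectors of the point-restart Laplacian: the operator, and the differential equation
-/

set_option autoImplicit false

open Finset MeasureTheory intervalIntegral Real

namespace Pool.Agent.R945.RB

/-- `HOp a ψ φ`: `ψ` lies in the domain of the point-restart Laplacian `H` with restart point
`π a / 2`, and `H ψ = φ`. In detail, `ψ` is almost everywhere equal to a function `u` on
`[-π/2, π/2]` which is continuously differentiable there, with derivative `v`, the function `v`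
is absolutely continuous with derivative `-φ` (it is the primitive of `-φ`), and
`u(-π/2) = u(π a / 2) = u(π/2)`. -/
def HOp (a : ℝ) (ψ φ : HS) : Prop :=
  ∃ u v : ℝ → ℂ, (∀ᵐ x ∂μI, ψ x = u x) ∧
    (∀ x ∈ Set.Icc (-(π / 2)) (π / 2),
      HasDerivWithinAt u (v x) (Set.Icc (-(π / 2)) (π / 2)) x) ∧
    (∀ x ∈ Set.Icc (-(π / 2)) (π / 2), v x = v (-(π / 2)) - ∫ t in (-(π / 2))..x, φ t) ∧
    u (-(π / 2)) = u (π / 2 * a) ∧ u (π / 2 * a) = u (π / 2)

/-- `RootKer a z k ψ`: `ψ ∈ ker (H - z)^k`. -/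
def RootKer (a : ℝ) (z : ℂ) : ℕ → HS → Prop
  | 0, ψ => ψ = 0
  | k + 1, ψ => ∃ φ, HOp a ψ φ ∧ RootKer a z k (φ - z • ψ)

/-- The sequence `Ψ` is an enumeration of a root system of `H`: every `Ψ i` is a root vector for
the number `lam i`, and for each complex number `z` the vectors `Ψ i` with `lam i = z` are a basis
of the root subspace `⋃ k, ker (H - z)^k`. -/
def IsRootSystem (a : ℝ) (Ψ : ℕ → HS) (lam : ℕ → ℂ) : Prop :=
  ∀ z : ℂ, LinearIndependent ℂ (fun i : {i : ℕ // lam i = z} => Ψ i) ∧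
    ∀ ψ : HS, ψ ∈ Submodule.span ℂ (Ψ '' {i | lam i = z}) ↔ ∃ k, RootKer a z k ψ

/-! ### Linearity -/

lemma Lp_int (φ : HS) {x : ℝ} (hx : x ∈ Set.Icc (-(π / 2)) (π / 2)) :
    IntervalIntegrable (fun t => φ t) volume (-(π / 2)) x := by
  have h1 : Integrable (fun t => φ t) μI := (Lp.memLp φ).integrable (by norm_num)
  obtain ⟨f, hf⟩ : ∃ f : ℝ → ℂ, f = (fun t => φ t) := ⟨_, rfl⟩
  rw [← hf] at h1 ⊢
  rw [μI_eq] at h1
  rw [intervalIntegrable_iff_integrableOn_Ioc_of_le hx.1]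
  exact (show IntegrableOn _ _ _ from h1).mono_set (Set.Ioc_subset_Ioc_right hx.2)

lemma ii_congr {f g : ℝ → ℂ} (h : ∀ᵐ t ∂μI, f t = g t) {x : ℝ}
    (hx : x ∈ Set.Icc (-(π / 2)) (π / 2)) :
    ∫ t in (-(π / 2))..x, f t = ∫ t in (-(π / 2))..x, g t := by
  rw [intervalIntegral.integral_of_le hx.1, intervalIntegral.integral_of_le hx.1]
  refine MeasureTheory.integral_congr_ae ?_
  rw [μI_eq] at h
  exact ae_restrict_of_ae_restrict_of_subset (Set.Ioc_subset_Ioc_right hx.2) h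

lemma HOp.lin {a : ℝ} {ψ φ ψ' φ' : HS} (h : HOp a ψ φ) (h' : HOp a ψ' φ') (c : ℂ) :
    HOp a (c • ψ + ψ') (c • φ + φ') := by
  obtain ⟨u, v, h1, h2, h3, h4, h5⟩ := h
  obtain ⟨u', v', h1', h2', h3', h4', h5'⟩ := h'
  refine ⟨fun x => c * u x + u' x, fun x => c * v x + v' x, ?_, ?_, ?_, ?_, ?_⟩
  · filter_upwards [h1, h1', Lp.coeFn_add (c • ψ) ψ', Lp.coeFn_smul c ψ] with x e1 e2 e3 e4
    rw [e3, Pi.add_apply, e4, Pi.smul_apply, e1, e2, smul_eq_mul]
  · intro x hx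
    exact ((h2 x hx).const_mul c).add (h2' x hx)
  · intro x hx
    beta_reduce
    rw [h3 x hx, h3' x hx]
    have e : ∫ t in (-(π / 2))..x, (c • φ + φ' : HS) t =
        c * (∫ t in (-(π / 2))..x, φ t) + ∫ t in (-(π / 2))..x, φ' t := by
      rw [← intervalIntegral.integral_const_mul, ← intervalIntegral.integral_add
        ((Lp_int φ hx).const_mul c) (Lp_int φ' hx)]
      refine ii_congr ?_ hx
      filter_upwards [Lp.coeFn_add (c • φ) φ', Lp.coeFn_smul c φ] with t e3 e4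
      rw [e3, Pi.add_apply, e4, Pi.smul_apply, smul_eq_mul]
    rw [e]; ring
  · beta_reduce
    rw [h4, h4']
  · beta_reduce
    rw [h5, h5']

lemma HOp.zero (a : ℝ) : HOp a 0 0 := by
  refine ⟨fun _ => 0, fun _ => 0, ?_, fun x _ => hasDerivWithinAt_const _ _ _, ?_, rfl, rfl⟩
  · filter_upwards [Lp.coeFn_zero ℂ 2 μI] with x h
    rw [h]; rfl
  · intro x hx
    have : ∫ t in (-(π / 2))..x, (0 : HS) t = ∫ t in (-(π / 2))..x, (0 : ℂ) := by
      refine ii_congr ?_ hx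
      filter_upwards [Lp.coeFn_zero ℂ 2 μI] with x h
      rw [h]; rfl
    rw [this]; simp

lemma RootKer.zero (a : ℝ) (z : ℂ) (k : ℕ) : RootKer a z k 0 := by
  induction k with
  | zero => rfl
  | succ k ih => exact ⟨0, HOp.zero a, by simpa using ih⟩

lemma RootKer.succ {a : ℝ} {z : ℂ} {k : ℕ} {ψ : HS} (h : RootKer a z k ψ) :
    RootKer a z (k + 1) ψ := by
  induction k generalizing ψ with
  | zero =>
    obtain rfl : ψ = 0 := h
    exact RootKer.zero a z 1
  | succ k ih =>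
    obtain ⟨φ, h1, h2⟩ := h
    exact ⟨φ, h1, ih h2⟩

lemma RootKer.mono {a : ℝ} {z : ℂ} {k l : ℕ} (hkl : k ≤ l) {ψ : HS} (h : RootKer a z k ψ) :
    RootKer a z l ψ := by
  induction l, hkl using Nat.le_induction with
  | base => exact h
  | succ l _ ih => exact ih.succ

lemma RootKer.lin {a : ℝ} {z : ℂ} {k : ℕ} {ψ ψ' : HS} (h : RootKer a z k ψ)
    (h' : RootKer a z k ψ') (c : ℂ) : RootKer a z k (c • ψ + ψ') := by
  induction k generalizing ψ ψ' with
  | zero =>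
    obtain rfl : ψ = 0 := h
    obtain rfl : ψ' = 0 := h'
    change c • (0 : HS) + 0 = 0
    simp
  | succ k ih =>
    obtain ⟨φ, h1, h2⟩ := h
    obtain ⟨φ', h1', h2'⟩ := h'
    refine ⟨c • φ + φ', h1.lin h1' c, ?_⟩
    have e : c • φ + φ' - z • (c • ψ + ψ') = c • (φ - z • ψ) + (φ' - z • ψ') := by
      rw [smul_sub, smul_add, smul_comm z c ψ]
      abel
    rw [e]
    exact ih h2 h2'

lemma span_root {a : ℝ} {z : ℂ} {S : Set HS} (hS : ∀ s ∈ S, ∃ k, RootKer a z k s) {ψ : HS}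
    (h : ψ ∈ Submodule.span ℂ S) : ∃ k, RootKer a z k ψ := by
  induction h using Submodule.span_induction with
  | mem s hs => exact hS s hs
  | zero => exact ⟨0, rfl⟩
  | add x y _ _ hx hy =>
    obtain ⟨k, hk⟩ := hx
    obtain ⟨l, hl⟩ := hy
    refine ⟨max k l, ?_⟩
    have := (hk.mono (le_max_left k l)).lin (hl.mono (le_max_right k l)) 1
    simpa using this
  | smul c x _ hx =>
    obtain ⟨k, hk⟩ := hx
    have := hk.lin (RootKer.zero a z k) c
    exact ⟨k, by simpa using this⟩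

/-! ### Functions of class `C²` -/

lemma HOp_cl {a : ℝ} {u v φ : ℝ → ℂ} (hu : Continuous u) (hφ : Continuous φ)
    (h1 : ∀ x, HasDerivAt u (v x) x) (h2 : ∀ x, HasDerivAt v (-φ x) x)
    (h3 : u (-(π / 2)) = u (π / 2 * a)) (h4 : u (π / 2 * a) = u (π / 2)) :
    HOp a (cl u hu) (cl φ hφ) := by
  refine ⟨u, v, cl_coe u hu, fun x _ => (h1 x).hasDerivWithinAt, fun x hx => ?_, h3, h4⟩
  rw [ii_congr (cl_coe φ hφ) hx]
  have h5 : ∫ t in (-(π / 2))..x, (-φ t) = v x - v (-(π / 2)) :=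
    integral_eq_sub_of_hasDerivAt (fun t _ => h2 t) (hφ.neg.intervalIntegrable _ _)
  rw [intervalIntegral.integral_neg] at h5
  linear_combination -h5

/-- A representative of class `C²`. -/
lemma HOp.rep {a : ℝ} {ψ φ : HS} (h : HOp a ψ φ) {z : ℂ} {G : ℝ → ℂ} (hG : Continuous G)
    (hφ : φ - z • ψ = cl G hG) :
    ∃ u v : ℝ → ℂ, (∀ᵐ x ∂μI, ψ x = u x) ∧
      (∀ x ∈ Set.Icc (-(π / 2)) (π / 2),
        HasDerivWithinAt u (v x) (Set.Icc (-(π / 2)) (π / 2)) x) ∧
      (∀ x ∈ Set.Icc (-(π / 2)) (π / 2),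
        HasDerivWithinAt v (-(z * u x + G x)) (Set.Icc (-(π / 2)) (π / 2)) x) ∧
      u (-(π / 2)) = u (π / 2 * a) ∧ u (π / 2 * a) = u (π / 2) := by
  obtain ⟨u, v, h1, h2, h3, h4, h5⟩ := h
  refine ⟨u, v, h1, h2, ?_, h4, h5⟩
  have hπ := pi_pos
  set p : ℝ → ℝ := fun x => max (-(π / 2)) (min (π / 2) x) with hp
  have hpc : Continuous p := by fun_prop
  have hpm : ∀ x, p x ∈ Set.Icc (-(π / 2)) (π / 2) := by
    intro x
    refine ⟨le_max_left _ _, max_le (by linarith) (min_le_left _ _)⟩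
  have hpe : ∀ x ∈ Set.Icc (-(π / 2)) (π / 2), p x = x := by
    intro x hx
    rw [hp]
    simp only
    rw [min_eq_right hx.2, max_eq_right hx.1]
  have huc : ContinuousOn u (Set.Icc (-(π / 2)) (π / 2)) := fun x hx =>
    (h2 x hx).continuousWithinAt
  set u₁ : ℝ → ℂ := fun x => u (p x) with hu₁
  have hu₁c : Continuous u₁ := huc.comp_continuous hpc hpm
  set g : ℝ → ℂ := fun x => z * u₁ x + G x with hg
  have hgc : Continuous g := by fun_prop
  have hφg : ∀ᵐ x ∂μI, φ x = g x := by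
    have e0 : φ = z • ψ + cl G hG := by rw [← hφ]; abel
    filter_upwards [h1, cl_coe G hG, Lp.coeFn_add (z • ψ) (cl G hG), Lp.coeFn_smul z ψ,
      ae_restrict_mem measurableSet_Ioo] with x e1 e2 e3 e4 e5
    rw [e0, e3, Pi.add_apply, e4, Pi.smul_apply, e1, e2, hg]
    simp only [smul_eq_mul]
    rw [hu₁]
    simp only
    rw [hpe x ⟨e5.1.le, e5.2.le⟩]
  have h6 : ∀ x ∈ Set.Icc (-(π / 2)) (π / 2),
      v x = v (-(π / 2)) - ∫ t in (-(π / 2))..x, g t := by
    intro x hx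
    rw [h3 x hx, ii_congr hφg hx]
  intro x hx
  have h7 : HasDerivAt (fun y => v (-(π / 2)) - ∫ t in (-(π / 2))..y, g t) (-(g x)) x := by
    have := (hgc.integral_hasStrictDerivAt (-(π / 2)) x).hasDerivAt.const_sub (v (-(π / 2)))
    exact this
  have h8 := (h7.hasDerivWithinAt (s := Set.Icc (-(π / 2)) (π / 2))).congr h6 (h6 x hx)
  have h9 : g x = z * u x + G x := by
    rw [hg, hu₁]
    simp only
    rw [hpe x hx]
  rwa [h9] at h8

lemma const_Icc {f : ℝ → ℂ} (h : ∀ x ∈ Set.Icc (-(π / 2)) (π / 2),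
    HasDerivWithinAt f 0 (Set.Icc (-(π / 2)) (π / 2)) x) :
    ∃ c, ∀ x ∈ Set.Icc (-(π / 2)) (π / 2), f x = c := by
  have hπ := pi_pos
  refine ⟨f (-(π / 2)), constant_of_derivWithin_zero
    (fun x hx => (h x hx).differentiableWithinAt) fun x hx => ?_⟩
  exact (h x ⟨hx.1, hx.2.le⟩).derivWithin
    (uniqueDiffOn_Icc (by linarith) x ⟨hx.1, hx.2.le⟩)

lemma hcos (k : ℂ) (x : ℝ) : HasDerivAt (fun x : ℝ => Complex.cos (k * x))
    (-(k * Complex.sin (k * x))) x := by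
  have h1 : HasDerivAt (fun y : ℂ => Complex.cos (k * y)) (-Complex.sin (k * x) * (k * 1)) (x : ℂ) :=
    (Complex.hasDerivAt_cos (k * x)).comp (x : ℂ) ((hasDerivAt_id (x : ℂ)).const_mul k)
  have h2 := h1.comp_ofReal
  convert h2 using 1
  ring

lemma hsin (k : ℂ) (x : ℝ) : HasDerivAt (fun x : ℝ => Complex.sin (k * x))
    (k * Complex.cos (k * x)) x := by
  have h1 : HasDerivAt (fun y : ℂ => Complex.sin (k * y)) (Complex.cos (k * x) * (k * 1)) (x : ℂ) :=
    (Complex.hasDerivAt_sin (k * x)).comp (x : ℂ) ((hasDerivAt_id (x : ℂ)).const_mul k)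
  have h2 := h1.comp_ofReal
  convert h2 using 1
  ring

lemma hid (x : ℝ) : HasDerivAt (fun x : ℝ => (x : ℂ)) 1 x :=
  (hasDerivAt_id (x : ℂ)).comp_ofReal

lemma ode_hom {k : ℂ} (hk : k ≠ 0) {w z : ℝ → ℂ}
    (hw : ∀ x ∈ Set.Icc (-(π / 2)) (π / 2),
      HasDerivWithinAt w (z x) (Set.Icc (-(π / 2)) (π / 2)) x)
    (hz : ∀ x ∈ Set.Icc (-(π / 2)) (π / 2),
      HasDerivWithinAt z (-(k ^ 2 * w x)) (Set.Icc (-(π / 2)) (π / 2)) x) :
    ∃ A B : ℂ, ∀ x ∈ Set.Icc (-(π / 2)) (π / 2),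
      w x = A * Complex.cos (k * x) + B * Complex.sin (k * x) := by
  obtain ⟨A, hA⟩ := const_Icc (f := fun x => w x * Complex.cos (k * x) -
    z x * Complex.sin (k * x) / k) (fun x hx => by
      have h1 := ((hw x hx).mul (hcos k x).hasDerivWithinAt).sub
        (((hz x hx).mul (hsin k x).hasDerivWithinAt).div_const k)
      have e : z x * Complex.cos (k * x) + w x * -(k * Complex.sin (k * x)) -
          (-(k ^ 2 * w x) * Complex.sin (k * x) + z x * (k * Complex.cos (k * x))) / k = 0 := by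
        field_simp
        ring
      rw [e] at h1
      exact h1)
  obtain ⟨B, hB⟩ := const_Icc (f := fun x => w x * Complex.sin (k * x) +
    z x * Complex.cos (k * x) / k) (fun x hx => by
      have h1 := ((hw x hx).mul (hsin k x).hasDerivWithinAt).add
        (((hz x hx).mul (hcos k x).hasDerivWithinAt).div_const k)
      have e : z x * Complex.sin (k * x) + w x * (k * Complex.cos (k * x)) +
          (-(k ^ 2 * w x) * Complex.cos (k * x) + z x * -(k * Complex.sin (k * x))) / k = 0 := by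
        field_simp
        ring
      rw [e] at h1
      exact h1)
  refine ⟨A, B, fun x hx => ?_⟩
  rw [← hA x hx, ← hB x hx]
  have h1 := Complex.sin_sq_add_cos_sq (k * x)
  linear_combination (-w x) * h1

end Pool.Agent.R945.RB
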