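import Pool.Agent.R945.RB.I

/-!
# Root vectors of the point-restart Laplacian: the root subspaces
-/

set_option autoImplicit false

open Finset MeasureTheory intervalIntegral Real

namespace Pool.Agent.R945.RB

/-- the explicit functions -/
noncomputable def fe (k A B C D E : ℂ) (x : ℝ) : ℂ :=
  A * Complex.cos (k * x) + B * Complex.sin (k * x) + C * (x * Complex.sin (k * x)) +
    D * (x * Complex.cos (k * x)) + E * ((x : ℂ) ^ 2 * Complex.cos (k * x))

/-- their derivatives -/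
noncomputable def fd (k A B C D E : ℂ) (x : ℝ) : ℂ :=
  A * (-(k * Complex.sin (k * x))) + B * (k * Complex.cos (k * x)) +
    C * (Complex.sin (k * x) + x * (k * Complex.cos (k * x))) +
    D * (Complex.cos (k * x) + x * (-(k * Complex.sin (k * x)))) +
    E * (2 * x * Complex.cos (k * x) + (x : ℂ) ^ 2 * (-(k * Complex.sin (k * x))))

lemma fe_cont (k A B C D E : ℂ) : Continuous (fe k A B C D E) := by
  unfold fe
  fun_prop

lemma fe_deriv (k A B C D E : ℂ) (x : ℝ) :
    HasDerivAt (fe k A B C D E) (fd k A B C D E x) x := by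
  have h1 := (hcos k x).const_mul A
  have h2 := (hsin k x).const_mul B
  have h3 := ((hid x).mul (hsin k x)).const_mul C
  have h4 := ((hid x).mul (hcos k x)).const_mul D
  have h5 := (((hid x).pow 2).mul (hcos k x)).const_mul E
  have h6 := (((h1.add h2).add h3).add h4).add h5
  have e : A * -(k * Complex.sin (k * x)) + B * (k * Complex.cos (k * x)) +
      C * (1 * Complex.sin (k * x) + x * (k * Complex.cos (k * x))) +
      D * (1 * Complex.cos (k * x) + x * -(k * Complex.sin (k * x))) +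
      E * ((2 : ℕ) * (x : ℂ) ^ (2 - 1) * 1 * Complex.cos (k * x) +
        (x : ℂ) ^ 2 * -(k * Complex.sin (k * x))) = fd k A B C D E x := by
    unfold fd
    norm_num
  rw [← e]
  exact h6

lemma fd_deriv (k A B C D E : ℂ) (x : ℝ) :
    HasDerivAt (fd k A B C D E) (-(k ^ 2 * fe k A B C D E x +
      fe k (-2 * k * C - 2 * E) (2 * k * D) (4 * k * E) 0 0 x)) x := by
  have h1 := ((hsin k x).const_mul k).neg.const_mul A
  have h2 := ((hcos k x).const_mul k).const_mul B
  have h3 := ((hsin k x).add ((hid x).mul ((hcos k x).const_mul k))).const_mul C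
  have h4 := ((hcos k x).add ((hid x).mul ((hsin k x).const_mul k).neg)).const_mul D
  have h5 := ((((hid x).const_mul 2).mul (hcos k x)).add
    (((hid x).pow 2).mul ((hsin k x).const_mul k).neg)).const_mul E
  have h6 := (((h1.add h2).add h3).add h4).add h5
  refine HasDerivAt.congr_deriv (f := fd k A B C D E) h6 ?_
  unfold fe
  norm_num
  ring

lemma bc_mem {a : ℝ} (ha : a ∈ Set.Ioo (-1 : ℝ) 1) :
    -(π / 2) ∈ Set.Icc (-(π / 2)) (π / 2) ∧ π / 2 * a ∈ Set.Icc (-(π / 2)) (π / 2) ∧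
      π / 2 ∈ Set.Icc (-(π / 2)) (π / 2) := by
  have hπ := pi_pos
  have h1 := ha.1
  have h2 := ha.2
  refine ⟨⟨le_rfl, by linarith⟩, ⟨?_, ?_⟩, ⟨by linarith, le_rfl⟩⟩ <;> nlinarith

theorem HOp.solve {a : ℝ} (ha : a ∈ Set.Ioo (-1 : ℝ) 1) {k : ℂ} (hk : k ≠ 0) {ψ φ : HS}
    {α β γ : ℂ} (h : HOp a ψ φ)
    (hφ : φ - k ^ 2 • ψ = cl (fe k α β γ 0 0) (fe_cont k α β γ 0 0)) :
    ∃ A B C D E : ℂ, -2 * k * C - 2 * E = α ∧ 2 * k * D = β ∧ 4 * k * E = γ ∧
      ψ = cl (fe k A B C D E) (fe_cont k A B C D E) ∧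
      fe k A B C D E (-(π / 2)) = fe k A B C D E (π / 2 * a) ∧
      fe k A B C D E (π / 2 * a) = fe k A B C D E (π / 2) := by
  obtain ⟨u, v, h1, h2, h3, h4, h5⟩ := h.rep (fe_cont k α β γ 0 0) hφ
  set E := γ / (4 * k) with hE
  set D := β / (2 * k) with hD
  set C := -(α + 2 * E) / (2 * k) with hC
  have eE : 4 * k * E = γ := by rw [hE]; field_simp
  have eD : 2 * k * D = β := by rw [hD]; field_simp
  have eC : -2 * k * C - 2 * E = α := by
    have : 2 * k * C = -(α + 2 * E) := by rw [hC]; field_simp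
    linear_combination -this
  obtain ⟨A, B, hAB⟩ := ode_hom hk (w := fun x => u x - fe k 0 0 C D E x)
    (z := fun x => v x - fd k 0 0 C D E x)
    (fun x hx => (h2 x hx).sub (fe_deriv k 0 0 C D E x).hasDerivWithinAt)
    (fun x hx => by
      have h6 := (h3 x hx).sub (fd_deriv k 0 0 C D E x).hasDerivWithinAt
      rw [eC, eD, eE] at h6
      refine HasDerivWithinAt.congr_deriv h6 ?_
      ring)
  have hu : ∀ x ∈ Set.Icc (-(π / 2)) (π / 2), u x = fe k A B C D E x := by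
    intro x hx
    have := hAB x hx
    unfold fe at this ⊢
    linear_combination this
  obtain ⟨m1, m2, m3⟩ := bc_mem ha
  refine ⟨A, B, C, D, E, eC, eD, eE, ?_, ?_, ?_⟩
  · refine Lp.ext ?_
    filter_upwards [h1, cl_coe _ (fe_cont k A B C D E), ae_restrict_mem measurableSet_Ioo]
      with x e1 e2 e3
    rw [e1, e2, hu x ⟨e3.1.le, e3.2.le⟩]
  · rw [← hu _ m1, ← hu _ m2, h4]
  · rw [← hu _ m2, ← hu _ m3, h5]

lemma root_ind {a : ℝ} {z : ℂ} (V : Set HS) (h0 : (0 : HS) ∈ V)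
    (hs : ∀ ψ φ, HOp a ψ φ → φ - z • ψ ∈ V → ψ ∈ V) :
    ∀ (n : ℕ) (ψ : HS), RootKer a z n ψ → ψ ∈ V := by
  intro n
  induction n with
  | zero => intro ψ h; obtain rfl : ψ = 0 := h; exact h0
  | succ n ih =>
    intro ψ h
    obtain ⟨φ, h1, h2⟩ := h
    exact hs ψ φ h1 (ih _ h2)

lemma cl_fe_zero (k : ℂ) : cl (fe k 0 0 0 0 0) (fe_cont k 0 0 0 0 0) = 0 := by
  rw [← cl_zero]
  exact cl_congr _ _ fun x => by simp [fe]

section cases

variable {a : ℝ} (ha : a ∈ Set.Ioo (-1 : ℝ) 1) {k : ℂ} (hk : k ≠ 0)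

/-- boundary values -/
lemma fe_L (k A B C D E : ℂ) (L : ℝ) : fe k A B C D E L - fe k A B C D E (-L) =
    2 * B * Complex.sin (k * L) + 2 * D * L * Complex.cos (k * L) := by
  unfold fe
  have e1 : k * ((-L : ℝ) : ℂ) = -(k * L) := by push_cast; ring
  rw [e1, Complex.cos_neg, Complex.sin_neg]
  push_cast
  ring

include ha hk

/-- neither condition: no root vector -/
theorem root_one (hs : Complex.sin (k * (π / 2 : ℝ)) ≠ 0)
    (hc : Complex.cos (k * (π / 2 : ℝ)) ≠ Complex.cos (k * (π / 2 * a : ℝ))) {n : ℕ} {ψ : HS}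
    (h : RootKer a (k ^ 2) n ψ) : ψ = 0 := by
  refine root_ind (V := {ψ | ψ = 0}) rfl ?_ n ψ h
  intro ψ φ h1 h2
  have h2' : φ - k ^ 2 • ψ = cl (fe k 0 0 0 0 0) (fe_cont k 0 0 0 0 0) := by
    rw [cl_fe_zero]; exact h2
  obtain ⟨A, B, C, D, E, eC, eD, eE, hψ, b1, b2⟩ := h1.solve ha hk h2'
  have E0 : E = 0 := by
    rcases mul_eq_zero.mp eE with h | h
    · simp [hk] at h
    · exact h
  have D0 : D = 0 := by
    rcases mul_eq_zero.mp eD with h | h
    · simp [hk] at h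
    · exact h
  have C0 : C = 0 := by
    rw [E0] at eC
    have : k * C = 0 := by linear_combination (-1 / 2 : ℂ) * eC
    exact (mul_eq_zero.mp this).resolve_left hk
  have q1 := fe_L k A B C D E (π / 2)
  rw [b1, b2, sub_self, D0] at q1
  have B0 : B = 0 := by
    have : B * Complex.sin (k * (π / 2 : ℝ)) = 0 := by linear_combination (-1 / 2 : ℂ) * q1
    exact (mul_eq_zero.mp this).resolve_right hs
  subst E0 D0 C0 B0
  have A0 : A = 0 := by
    unfold fe at b2
    have : A * (Complex.cos (k * (π / 2 : ℝ)) - Complex.cos (k * (π / 2 * a : ℝ))) = 0 := by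
      linear_combination -b2
    exact (mul_eq_zero.mp this).resolve_right (sub_ne_zero.mpr hc)
  subst A0
  rw [hψ, cl_fe_zero]
  rfl

/-- only the cosine -/
theorem root_two (hs : Complex.sin (k * (π / 2 : ℝ)) ≠ 0)
    (hc : Complex.cos (k * (π / 2 : ℝ)) = Complex.cos (k * (π / 2 * a : ℝ))) {n : ℕ} {ψ : HS}
    (h : RootKer a (k ^ 2) n ψ) : ∃ A : ℂ, ψ = cl (fe k A 0 0 0 0) (fe_cont k A 0 0 0 0) := by
  refine root_ind (V := {ψ | ∃ A : ℂ, ψ = cl (fe k A 0 0 0 0) (fe_cont k A 0 0 0 0)})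
    ⟨0, (cl_fe_zero k).symm⟩ ?_ n ψ h
  rintro ψ φ h1 ⟨α, h2⟩
  obtain ⟨A, B, C, D, E, eC, eD, eE, hψ, b1, b2⟩ := h1.solve ha hk h2
  have E0 : E = 0 := by
    rcases mul_eq_zero.mp eE with h | h
    · simp [hk] at h
    · exact h
  have D0 : D = 0 := by
    rcases mul_eq_zero.mp eD with h | h
    · simp [hk] at h
    · exact h
  have q1 := fe_L k A B C D E (π / 2)
  rw [b1, b2, sub_self, D0] at q1
  have B0 : B = 0 := by
    have : B * Complex.sin (k * (π / 2 : ℝ)) = 0 := by linear_combination (-1 / 2 : ℂ) * q1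
    exact (mul_eq_zero.mp this).resolve_right hs
  subst E0 D0 B0
  have C0 : C = 0 := by
    unfold fe at b2
    have h3 : C * ((π / 2 : ℝ) * Complex.sin (k * (π / 2 : ℝ)) -
        (π / 2 * a : ℝ) * Complex.sin (k * (π / 2 * a : ℝ))) = 0 := by
      rw [hc] at b2
      linear_combination -b2
    refine (mul_eq_zero.mp h3).resolve_right fun h4 => ?_
    have h5 : Complex.sin (k * (π / 2 * a : ℝ)) ^ 2 = Complex.sin (k * (π / 2 : ℝ)) ^ 2 := by
      have e1 := Complex.sin_sq_add_cos_sq (k * (π / 2 * a : ℝ))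
      have e2 := Complex.sin_sq_add_cos_sq (k * (π / 2 : ℝ))
      rw [hc] at e2
      linear_combination e1 - e2
    have hπ := pi_pos
    have ha1 := ha.1
    have ha2 := ha.2
    rcases sq_eq_sq_iff_eq_or_eq_neg.mp h5 with h6 | h6
    · rw [h6] at h4
      have h7 : ((π / 2 * (1 - a) : ℝ) : ℂ) * Complex.sin (k * (π / 2 : ℝ)) = 0 := by
        push_cast at h4 ⊢
        linear_combination h4
      rcases mul_eq_zero.mp h7 with h8 | h8
      · have h9 : π / 2 * (1 - a) = 0 := by exact_mod_cast h8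
        have : 0 < π / 2 * (1 - a) := by
          have : 0 < 1 - a := by linarith
          positivity
        linarith
      · exact hs h8
    · rw [h6] at h4
      have h7 : ((π / 2 * (1 + a) : ℝ) : ℂ) * Complex.sin (k * (π / 2 : ℝ)) = 0 := by
        push_cast at h4 ⊢
        linear_combination h4
      rcases mul_eq_zero.mp h7 with h8 | h8
      · have h9 : π / 2 * (1 + a) = 0 := by exact_mod_cast h8
        have : 0 < π / 2 * (1 + a) := by
          have : 0 < 1 + a := by linarith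
          positivity
        linarith
      · exact hs h8
  subst C0
  exact ⟨A, hψ⟩

/-- only the odd family -/
theorem root_three (hs : Complex.sin (k * (π / 2 : ℝ)) = 0)
    (hc : Complex.cos (k * (π / 2 : ℝ)) ≠ Complex.cos (k * (π / 2 * a : ℝ))) {n : ℕ} {ψ : HS}
    (h : RootKer a (k ^ 2) n ψ) : ∃ B : ℂ, ψ = cl (fe k (B * (Complex.sin (k * (π / 2 * a : ℝ)) /
      (Complex.cos (k * (π / 2 : ℝ)) - Complex.cos (k * (π / 2 * a : ℝ))))) B 0 0 0)
      (fe_cont _ _ _ _ _ _) := by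
  set c := Complex.sin (k * (π / 2 * a : ℝ)) /
      (Complex.cos (k * (π / 2 : ℝ)) - Complex.cos (k * (π / 2 * a : ℝ))) with hcdef
  refine root_ind (V := {ψ | ∃ B : ℂ, ψ = cl (fe k (B * c) B 0 0 0) (fe_cont k (B * c) B 0 0 0)})
    ⟨0, ?_⟩ ?_ n ψ h
  · rw [← cl_zero]
    exact cl_congr _ _ fun x => by simp [fe]
  rintro ψ φ h1 ⟨β, h2⟩
  obtain ⟨A, B, C, D, E, eC, eD, eE, hψ, b1, b2⟩ := h1.solve ha hk h2
  have hcl : Complex.cos (k * (π / 2 : ℝ)) ≠ 0 := by
    intro h3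
    have := Complex.sin_sq_add_cos_sq (k * (π / 2 : ℝ))
    rw [hs, h3] at this
    norm_num at this
  have hπ : ((π / 2 : ℝ) : ℂ) ≠ 0 := by
    have := pi_pos
    exact_mod_cast (by positivity : (π / 2 : ℝ) ≠ 0)
  have E0 : E = 0 := by
    rcases mul_eq_zero.mp eE with h | h
    · simp [hk] at h
    · exact h
  have q1 := fe_L k A B C D E (π / 2)
  rw [b1, b2, sub_self, hs] at q1
  have D0 : D = 0 := by
    have h3 : D * ((π / 2 : ℝ) * Complex.cos (k * (π / 2 : ℝ))) = 0 := by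
      linear_combination (-1 / 2 : ℂ) * q1
    exact (mul_eq_zero.mp h3).resolve_right (mul_ne_zero hπ hcl)
  subst E0 D0
  have β0 : β = 0 := by rw [← eD]; ring
  have C0 : C = 0 := by
    rw [β0] at eC
    have : k * C = 0 := by linear_combination (-1 / 2 : ℂ) * eC
    exact (mul_eq_zero.mp this).resolve_left hk
  subst C0
  have hA : A = B * c := by
    unfold fe at b2
    rw [hs] at b2
    rw [hcdef, ← mul_div_assoc, eq_div_iff (sub_ne_zero.mpr hc)]
    linear_combination -b2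
  subst hA
  exact ⟨B, hψ⟩

/-- all three -/
theorem root_four (hs : Complex.sin (k * (π / 2 : ℝ)) = 0)
    (hc : Complex.cos (k * (π / 2 : ℝ)) = Complex.cos (k * (π / 2 * a : ℝ))) {n : ℕ} {ψ : HS}
    (h : RootKer a (k ^ 2) n ψ) :
    ∃ A B C : ℂ, ψ = cl (fe k A B C 0 0) (fe_cont k A B C 0 0) := by
  refine root_ind (V := {ψ | ∃ A B C : ℂ, ψ = cl (fe k A B C 0 0) (fe_cont k A B C 0 0)})
    ⟨0, 0, 0, (cl_fe_zero k).symm⟩ ?_ n ψ h
  rintro ψ φ h1 ⟨α, β, γ, h2⟩
  obtain ⟨A, B, C, D, E, eC, eD, eE, hψ, b1, b2⟩ := h1.solve ha hk h2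
  have hcl : Complex.cos (k * (π / 2 : ℝ)) ≠ 0 := by
    intro h3
    have := Complex.sin_sq_add_cos_sq (k * (π / 2 : ℝ))
    rw [hs, h3] at this
    norm_num at this
  have hπp := pi_pos
  have hπ : ((π / 2 : ℝ) : ℂ) ≠ 0 := by
    exact_mod_cast (by positivity : (π / 2 : ℝ) ≠ 0)
  have hsb : Complex.sin (k * (π / 2 * a : ℝ)) = 0 := by
    have e1 := Complex.sin_sq_add_cos_sq (k * (π / 2 * a : ℝ))
    have e2 := Complex.sin_sq_add_cos_sq (k * (π / 2 : ℝ))
    rw [hc, hs] at e2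
    have : Complex.sin (k * (π / 2 * a : ℝ)) ^ 2 = 0 := by linear_combination e1 - e2
    exact pow_eq_zero_iff two_ne_zero |>.mp this
  have q1 := fe_L k A B C D E (π / 2)
  rw [b1, b2, sub_self, hs] at q1
  have D0 : D = 0 := by
    have h3 : D * ((π / 2 : ℝ) * Complex.cos (k * (π / 2 : ℝ))) = 0 := by
      linear_combination (-1 / 2 : ℂ) * q1
    exact (mul_eq_zero.mp h3).resolve_right (mul_ne_zero hπ hcl)
  subst D0
  have E0 : E = 0 := by
    unfold fe at b2
    rw [hs, hsb, ← hc] at b2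
    have h3 : E * (((π / 2 * (1 - a)) * (π / 2 * (1 + a)) : ℝ) *
        Complex.cos (k * (π / 2 : ℝ))) = 0 := by
      push_cast at b2 ⊢
      linear_combination -b2
    refine (mul_eq_zero.mp h3).resolve_right (mul_ne_zero ?_ hcl)
    have h4 : 0 < 1 - a := by linarith [ha.2]
    have h5 : 0 < 1 + a := by linarith [ha.1]
    exact_mod_cast (by positivity : (π / 2 * (1 - a)) * (π / 2 * (1 + a)) ≠ 0)
  subst E0
  exact ⟨A, B, C, hψ⟩

end cases

/-- the number zero -/
theorem root_zero {a : ℝ} (ha : a ∈ Set.Ioo (-1 : ℝ) 1) {n : ℕ} {ψ : HS}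
    (h : RootKer a 0 n ψ) : ∃ A : ℂ, ψ = cl (fun _ => A) continuous_const := by
  refine root_ind (V := {ψ | ∃ A : ℂ, ψ = cl (fun _ => A) continuous_const})
    ⟨0, cl_zero.symm⟩ ?_ n ψ h
  rintro ψ φ h1 ⟨α, h2⟩
  obtain ⟨u, v, g1, g2, g3, g4, g5⟩ := h1.rep continuous_const h2
  obtain ⟨B, hB⟩ := const_Icc (f := fun x => v x + α * x) (fun x hx => by
    have h3 := (g3 x hx).add ((hid x).const_mul α).hasDerivWithinAt
    refine HasDerivWithinAt.congr_deriv h3 ?_
    ring)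
  obtain ⟨A, hA⟩ := const_Icc (f := fun x => u x - B * x + α / 2 * (x : ℂ) ^ 2) (fun x hx => by
    have h3 := ((g2 x hx).sub ((hid x).const_mul B).hasDerivWithinAt).add
      (((hid x).pow 2).const_mul (α / 2)).hasDerivWithinAt
    refine HasDerivWithinAt.congr_deriv h3 ?_
    rw [← hB x hx]
    norm_num
    ring)
  have hu : ∀ x ∈ Set.Icc (-(π / 2)) (π / 2), u x = A + B * x - α / 2 * (x : ℂ) ^ 2 := by
    intro x hx
    rw [← hA x hx]; ring
  obtain ⟨m1, m2, m3⟩ := bc_mem ha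
  rw [hu _ m1, hu _ m2] at g4
  rw [hu _ m2, hu _ m3] at g5
  have hπp := pi_pos
  have hB0 : B = 0 := by
    have h3 : B * ((π : ℝ) : ℂ) = 0 := by
      push_cast at g4 g5 ⊢
      linear_combination -g4 - g5
    refine (mul_eq_zero.mp h3).resolve_right ?_
    exact_mod_cast hπp.ne'
  subst hB0
  have hα : α = 0 := by
    have h3 : α * (((π / 2 * (1 - a)) * (π / 2 * (1 + a)) : ℝ) : ℂ) = 0 := by
      push_cast at g5 ⊢
      linear_combination 2 * g5
    refine (mul_eq_zero.mp h3).resolve_right ?_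
    have h4 : 0 < 1 - a := by linarith [ha.2]
    have h5 : 0 < 1 + a := by linarith [ha.1]
    exact_mod_cast (by positivity : (π / 2 * (1 - a)) * (π / 2 * (1 + a)) ≠ 0)
  subst hα
  refine ⟨A, Lp.ext ?_⟩
  filter_upwards [g1, cl_coe (fun _ => A) continuous_const, ae_restrict_mem measurableSet_Ioo]
    with x e1 e2 e3
  rw [e1, e2, hu x ⟨e3.1.le, e3.2.le⟩]
  ring

end Pool.Agent.R945.RB
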