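import Pool.Agent.R945.RB.J

/-!
# Root vectors of the point-restart Laplacian: the root system for a rational restart point
-/

set_option autoImplicit false

open Finset MeasureTheory intervalIntegral Real

namespace Pool.Agent.R945.RB

/-- the number attached to each index -/
noncomputable def lamJ (P Q : ℕ) : JJ Q → ℂ
  | .inl n => ((2 * (n + 1 : ℕ) : ℝ) : ℂ) ^ 2
  | .inr (.inl m) => ((wP P Q * m : ℝ) : ℂ) ^ 2
  | .inr (.inr (.inl m)) => ((wQ P Q * (m : ℕ) : ℝ) : ℂ) ^ 2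
  | .inr (.inr (.inr n)) => ((w0 P Q * (n + 1 : ℕ) : ℝ) : ℂ) ^ 2

/-- the restart parameter -/
noncomputable def aa (P Q : ℕ) : ℝ := ((P : ℝ) - Q) / (P + Q)

variable {P Q : ℕ}

lemma aa_bb : π / 2 * aa P Q = bb P Q := rfl

lemma aa_mem (hP : 0 < P) (hQ : 0 < Q) : aa P Q ∈ Set.Ioo (-1 : ℝ) 1 := by
  have h1 : (0 : ℝ) < P := by exact_mod_cast hP
  have h2 : (0 : ℝ) < Q := by exact_mod_cast hQ
  unfold aa
  constructor
  · rw [lt_div_iff₀ (by positivity)]; linarith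
  · rw [div_lt_iff₀ (by positivity)]; linarith

/-! ### The vectors are root vectors -/

lemma root_fe {a : ℝ} {k A B C D E : ℂ} {n : ℕ}
    (h1 : fe k A B C D E (-(π / 2)) = fe k A B C D E (π / 2 * a))
    (h2 : fe k A B C D E (π / 2 * a) = fe k A B C D E (π / 2))
    (h : RootKer a (k ^ 2) n (cl (fe k (-2 * k * C - 2 * E) (2 * k * D) (4 * k * E) 0 0)
      (fe_cont _ _ _ _ _ _))) :
    RootKer a (k ^ 2) (n + 1) (cl (fe k A B C D E) (fe_cont _ _ _ _ _ _)) := by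
  have hc : Continuous fun x => k ^ 2 * fe k A B C D E x +
      fe k (-2 * k * C - 2 * E) (2 * k * D) (4 * k * E) 0 0 x :=
    (continuous_const.mul (fe_cont _ _ _ _ _ _)).add (fe_cont _ _ _ _ _ _)
  refine ⟨cl _ hc, HOp_cl (fe_cont _ _ _ _ _ _) hc (fe_deriv k A B C D E)
    (fd_deriv k A B C D E) h1 h2, ?_⟩
  rw [← cl_smul_add _ _ (fe_cont _ _ _ _ _ _) (fe_cont _ _ _ _ _ _) _ hc]
  simpa using h

lemma root_fe_one {a : ℝ} {k A B : ℂ}
    (h1 : fe k A B 0 0 0 (-(π / 2)) = fe k A B 0 0 0 (π / 2 * a))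
    (h2 : fe k A B 0 0 0 (π / 2 * a) = fe k A B 0 0 0 (π / 2)) :
    RootKer a (k ^ 2) 1 (cl (fe k A B 0 0 0) (fe_cont _ _ _ _ _ _)) := by
  refine root_fe h1 h2 ?_
  change _ = _
  rw [← cl_zero]
  exact cl_congr _ _ fun x => by simp [fe]

lemma cos_P (hP : 0 < P) (m : ℝ) (hm : ∃ j : ℤ, m = j) :
    cos (wP P Q * m * (π / 2 * aa P Q)) = cos (wP P Q * m * (π / 2)) := by
  obtain ⟨j, rfl⟩ := hm
  have h1 : (0 : ℝ) < P := by exact_mod_cast hP
  have e : wP P Q * j * (π / 2 * aa P Q) = j * (2 * π) - wP P Q * j * (π / 2) := by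
    unfold wP aa
    have : (P : ℝ) + Q ≠ 0 := by positivity
    field_simp
    ring
  rw [e, cos_int_mul_two_pi_sub]

lemma cos_Q (hQ : 0 < Q) (m : ℝ) (hm : ∃ j : ℤ, m = j) :
    cos (wQ P Q * m * (π / 2 * aa P Q)) = cos (wQ P Q * m * (π / 2)) := by
  obtain ⟨j, rfl⟩ := hm
  have h1 : (0 : ℝ) < Q := by exact_mod_cast hQ
  have e : wQ P Q * j * (π / 2 * aa P Q) = wQ P Q * j * (π / 2) - j * (2 * π) := by
    unfold wQ aa
    have : (P : ℝ) + Q ≠ 0 := by positivity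
    field_simp
    ring
  rw [e, cos_sub_int_mul_two_pi]

lemma fe_cos (r : ℝ) (A : ℂ) (x : ℝ) : fe r A 0 0 0 0 x = A * (cos (r * x) : ℝ) := by
  unfold fe
  push_cast
  ring

lemma root_cos {a r : ℝ} (h : cos (r * (π / 2 * a)) = cos (r * (π / 2))) (A : ℂ) :
    RootKer a ((r : ℂ) ^ 2) 1 (cl (fe r A 0 0 0 0) (fe_cont _ _ _ _ _ _)) := by
  refine root_fe_one ?_ ?_
  · rw [fe_cos, fe_cos, h, mul_neg, cos_neg]
  · rw [fe_cos, fe_cos, h]

lemma Psi_P (m : ℕ) : Psi P Q (.inr (.inl m)) =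
    cl (fe ((wP P Q * m : ℝ) : ℂ) 1 0 0 0 0) (fe_cont _ _ _ _ _ _) :=
  cl_congr _ _ fun x => by rw [fe_cos, one_mul]; rfl

lemma Psi_Q (m : {m : ℕ // ¬ Q ∣ m}) : Psi P Q (.inr (.inr (.inl m))) =
    cl (fe ((wQ P Q * (m : ℕ) : ℝ) : ℂ) 1 0 0 0 0) (fe_cont _ _ _ _ _ _) :=
  cl_congr _ _ fun x => by rw [fe_cos, one_mul]; rfl

lemma Psi_O (n : ℕ) : Psi P Q (.inl n) =
    cl (fe ((2 * (n + 1 : ℕ) : ℝ) : ℂ) (cO P Q n) 1 0 0 0) (fe_cont _ _ _ _ _ _) :=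
  cl_congr _ _ fun x => by
    unfold fe
    simp only [psi]
    push_cast
    ring

lemma Psi_G (n : ℕ) : Psi P Q (.inr (.inr (.inr n))) =
    cl (fe ((w0 P Q * (n + 1 : ℕ) : ℝ) : ℂ) 0 0 1 0 0) (fe_cont _ _ _ _ _ _) :=
  cl_congr _ _ fun x => by
    unfold fe
    simp only [psi]
    push_cast
    ring

lemma sin_two (n : ℕ) : sin (2 * (n + 1 : ℕ) * (π / 2)) = 0 := by
  have : 2 * ((n + 1 : ℕ) : ℝ) * (π / 2) = (n + 1 : ℕ) * π := by ring
  rw [this, sin_nat_mul_pi]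

theorem Psi_root (hP : 0 < P) (hQ : 0 < Q) (i : JJ Q) :
    ∃ k, RootKer (aa P Q) (lamJ P Q i) k (Psi P Q i) := by
  rcases i with n | m | m | n
  · refine ⟨1, ?_⟩
    rw [Psi_O]
    have hs := sin_two n
    have key : (cO P Q n) * (cos (2 * (n + 1 : ℕ) * (π / 2)) -
        cos (2 * (n + 1 : ℕ) * (π / 2 * aa P Q))) = sin (2 * (n + 1 : ℕ) * (π / 2 * aa P Q)) := by
      rw [aa_bb]
      unfold cO
      split_ifs with h
      · have e1 := sin_sq_add_cos_sq (2 * (n + 1 : ℕ) * bb P Q)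
        have e2 := sin_sq_add_cos_sq (2 * (n + 1 : ℕ) * (π / 2))
        rw [hs] at e2
        rw [h] at e1
        have : sin (2 * (n + 1 : ℕ) * bb P Q) ^ 2 = 0 := by linarith
        rw [pow_eq_zero_iff two_ne_zero |>.mp this]
        ring
      · rw [div_mul_cancel₀]
        exact sub_ne_zero.mpr fun h' => h h'.symm
    have fo : ∀ x : ℝ, fe ((2 * (n + 1 : ℕ) : ℝ) : ℂ) (cO P Q n) 1 0 0 0 x =
        ((cO P Q n * cos (2 * (n + 1 : ℕ) * x) + sin (2 * (n + 1 : ℕ) * x) : ℝ) : ℂ) := by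
      intro x
      unfold fe
      push_cast
      ring
    refine root_fe_one ?_ ?_
    · rw [fo, fo, mul_neg, cos_neg, sin_neg, hs]
      congr 1
      linarith
    · rw [fo, fo, hs]
      congr 1
      linarith
  · refine ⟨1, ?_⟩
    rw [Psi_P]
    exact root_cos (cos_P hP m ⟨m, by simp⟩) 1
  · refine ⟨1, ?_⟩
    rw [Psi_Q]
    exact root_cos (cos_Q hQ (m : ℕ) ⟨(m : ℕ), by simp⟩) 1
  · refine ⟨2, ?_⟩
    rw [Psi_G]
    have h1 : (0 : ℝ) < P := by exact_mod_cast hP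
    have hN : (P : ℝ) + Q ≠ 0 := by positivity
    have s1 : sin (w0 P Q * (n + 1 : ℕ) * (π / 2)) = 0 := by
      have : w0 P Q * (n + 1 : ℕ) * (π / 2) = ((P + Q) * (n + 1) : ℕ) * π := by
        unfold w0; push_cast; ring
      rw [this, sin_nat_mul_pi]
    have s2 : sin (w0 P Q * (n + 1 : ℕ) * (π / 2 * aa P Q)) = 0 := by
      have : w0 P Q * (n + 1 : ℕ) * (π / 2 * aa P Q) = ((P - Q) * (n + 1) : ℤ) * π := by
        unfold w0 aa
        push_cast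
        field_simp
      rw [this, sin_int_mul_pi]
    have fg : ∀ x : ℝ, fe ((w0 P Q * (n + 1 : ℕ) : ℝ) : ℂ) 0 0 1 0 0 x =
        ((x * sin (w0 P Q * (n + 1 : ℕ) * x) : ℝ) : ℂ) := by
      intro x
      unfold fe
      push_cast
      ring
    refine root_fe (n := 1) ?_ ?_ ?_
    · rw [fg, fg, s2, mul_neg, sin_neg, s1]; simp
    · rw [fg, fg, s2, s1]; simp
    · have h2 : cos (w0 P Q * (n + 1 : ℕ) * (π / 2 * aa P Q)) =
          cos (w0 P Q * (n + 1 : ℕ) * (π / 2)) := by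
        have := cos_P (Q := Q) hP (P * (n + 1 : ℕ)) ⟨(P : ℤ) * (n + 1 : ℕ), by push_cast; ring⟩
        rw [w0_eq_wP (Q := Q) hP, mul_assoc (wP P Q)]
        exact this
      have h3 := root_cos h2 (-2 * ((w0 P Q * (n + 1 : ℕ) : ℝ) : ℂ))
      convert h3 using 2
      ring_nf

end Pool.Agent.R945.RB
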