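import Pool.Agent.R945.RB.K

/-!
# Root vectors of the point-restart Laplacian: basis of each root subspace, and the main theorem
-/

set_option autoImplicit false

open Finset MeasureTheory intervalIntegral Real Filter Topology

namespace Pool.Agent.R945.RB

variable {P Q : ℕ}

lemma Psi_mem (i : JJ Q) {z : ℂ} (h : lamJ P Q i = z) :
    Psi P Q i ∈ Submodule.span ℂ (Psi P Q '' {i | lamJ P Q i = z}) :=
  Submodule.subset_span ⟨i, h, rfl⟩

lemma cl_fe_smul (k A : ℂ) : cl (fe k A 0 0 0 0) (fe_cont _ _ _ _ _ _) =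
    A • cl (fe k 1 0 0 0 0) (fe_cont _ _ _ _ _ _) := by
  have h := cl_smul_add (fe k 1 0 0 0 0) (fe k 0 0 0 0 0) (fe_cont _ _ _ _ _ _)
    (fe_cont _ _ _ _ _ _) A ((continuous_const.mul (fe_cont _ _ _ _ _ _)).add
      (fe_cont _ _ _ _ _ _))
  rw [cl_fe_zero, add_zero] at h
  rw [h]
  refine cl_congr _ _ fun x => ?_
  unfold fe
  ring

/-- the cosine with a frequency of the first kind -/
lemma cos_mem_P (j : ℤ) : cl (fe ((wP P Q * j : ℝ) : ℂ) 1 0 0 0 0) (fe_cont _ _ _ _ _ _) ∈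
    Submodule.span ℂ (Psi P Q '' {i | lamJ P Q i = ((wP P Q * j : ℝ) : ℂ) ^ 2}) := by
  have e : cl (fe ((wP P Q * j : ℝ) : ℂ) 1 0 0 0 0) (fe_cont _ _ _ _ _ _) =
      Psi P Q (.inr (.inl j.natAbs)) := by
    rw [Psi_P]
    refine cl_congr _ _ fun x => ?_
    rw [fe_cos, fe_cos]
    congr 2
    rcases Int.natAbs_eq j with h | h
    · conv_lhs => rw [h]
      simp
    · conv_lhs => rw [h]
      push_cast
      rw [show wP P Q * -(|(j : ℝ)|) * x = -(wP P Q * |(j : ℝ)| * x) by ring, cos_neg]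
      simp [Nat.cast_natAbs]
  rw [e]
  refine Psi_mem _ ?_
  simp only [lamJ]
  have h2 : ((j.natAbs : ℕ) : ℝ) ^ 2 = (j : ℝ) ^ 2 := by
    rw [Nat.cast_natAbs]; push_cast; exact sq_abs _
  have h3 : (wP P Q * (j.natAbs : ℕ) : ℝ) ^ 2 = (wP P Q * j) ^ 2 := by
    rw [mul_pow, mul_pow, h2]
  exact_mod_cast h3

/-- the cosine with a frequency of the second kind -/
lemma cos_mem_Q (hP : 0 < P) (hQ : 0 < Q) (j : ℤ) :
    cl (fe ((wQ P Q * j : ℝ) : ℂ) 1 0 0 0 0) (fe_cont _ _ _ _ _ _) ∈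
    Submodule.span ℂ (Psi P Q '' {i | lamJ P Q i = ((wQ P Q * j : ℝ) : ℂ) ^ 2}) := by
  by_cases hd : Q ∣ j.natAbs
  · obtain ⟨k, hk⟩ : (Q : ℤ) ∣ j := by
      rw [← Int.natCast_dvd_natCast] at hd
      exact Int.dvd_natAbs.mp hd
    have e : wQ P Q * j = wP P Q * ((P * k : ℤ) : ℝ) := by
      rw [hk]
      push_cast
      have h1 := w0_eq_wP (Q := Q) hP
      have h2 := w0_eq_wQ (P := P) hQ
      linear_combination (-(k : ℝ)) * h2 + (k : ℝ) * h1
    rw [e]
    exact cos_mem_P _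
  · have e : cl (fe ((wQ P Q * j : ℝ) : ℂ) 1 0 0 0 0) (fe_cont _ _ _ _ _ _) =
        Psi P Q (.inr (.inr (.inl ⟨j.natAbs, hd⟩))) := by
      rw [Psi_Q]
      refine cl_congr _ _ fun x => ?_
      rw [fe_cos, fe_cos]
      congr 2
      rcases Int.natAbs_eq j with h | h
      · conv_lhs => rw [h]
        simp
      · conv_lhs => rw [h]
        push_cast
        rw [show wQ P Q * -(|(j : ℝ)|) * x = -(wQ P Q * |(j : ℝ)| * x) by ring, cos_neg]
        simp [Nat.cast_natAbs]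
    rw [e]
    refine Psi_mem _ ?_
    simp only [lamJ]
    have h2 : ((j.natAbs : ℕ) : ℝ) ^ 2 = (j : ℝ) ^ 2 := by
      rw [Nat.cast_natAbs]; push_cast; exact sq_abs _
    have h3 : (wQ P Q * (j.natAbs : ℕ) : ℝ) ^ 2 = (wQ P Q * j) ^ 2 := by
      rw [mul_pow, mul_pow, h2]
    exact_mod_cast h3

/-- The frequencies with equal cosines. -/
lemma freq (hP : 0 < P) (hQ : 0 < Q) {k : ℂ}
    (h : Complex.cos (k * (π / 2 : ℝ)) = Complex.cos (k * (π / 2 * aa P Q : ℝ))) :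
    ∃ j : ℤ, k = ((wQ P Q * j : ℝ) : ℂ) ∨ k = ((wP P Q * j : ℝ) : ℂ) := by
  rw [Complex.cos_eq_cos_iff] at h
  have hπ : (π : ℂ) ≠ 0 := by exact_mod_cast pi_pos.ne'
  have hP' : (P : ℂ) ≠ 0 := by exact_mod_cast hP.ne'
  have hQ' : (Q : ℂ) ≠ 0 := by exact_mod_cast hQ.ne'
  have hN : (P : ℂ) + Q ≠ 0 := by
    have : ((P + Q : ℕ) : ℂ) ≠ 0 := by
      rw [Nat.cast_ne_zero]; omega
    simpa using this
  obtain ⟨j, h | h⟩ := h
  · refine ⟨-j, Or.inl ?_⟩
    unfold aa at h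
    unfold wQ
    push_cast at h ⊢
    field_simp at h ⊢
    linear_combination (-1 / 2 : ℂ) * h
  · refine ⟨j, Or.inr ?_⟩
    unfold aa at h
    unfold wP
    push_cast at h ⊢
    field_simp at h ⊢
    linear_combination (1 / 2 : ℂ) * h

lemma dvd_of_cos (hP : 0 < P) (hQ : 0 < Q) (hc : Nat.Coprime P Q) {m : ℕ}
    (h : cos (2 * (m + 1 : ℕ) * (π / 2)) = cos (2 * (m + 1 : ℕ) * (π / 2 * aa P Q))) :
    P + Q ∣ m + 1 := by
  rw [cos_eq_cos_iff] at h
  have hπ := pi_pos.ne'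
  have hN : (P : ℝ) + Q ≠ 0 := by
    have h1 : (0 : ℝ) < P := by exact_mod_cast hP
    positivity
  obtain ⟨j, h | h⟩ := h
  · have h1 : ((m + 1 : ℕ) : ℝ) * Q = -j * (P + Q) := by
      unfold aa at h
      field_simp at h
      linear_combination (-1 / 2 : ℝ) * h
    have h2 : ((m + 1 : ℕ) : ℤ) * Q = -j * ((P + Q : ℕ) : ℤ) := by
      push_cast
      push_cast at h1
      exact_mod_cast h1
    have h3 : ((P + Q : ℕ) : ℤ) ∣ ((m + 1) * Q : ℕ) := ⟨-j, by push_cast at h2 ⊢; linarith⟩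
    rw [Int.natCast_dvd_natCast] at h3
    exact (Nat.Coprime.dvd_of_dvd_mul_right (by simpa using hc) h3)
  · have h1 : ((m + 1 : ℕ) : ℝ) * P = j * (P + Q) := by
      unfold aa at h
      field_simp at h
      linear_combination (1 / 2 : ℝ) * h
    have h2 : ((m + 1 : ℕ) : ℤ) * P = j * ((P + Q : ℕ) : ℤ) := by
      push_cast
      push_cast at h1
      exact_mod_cast h1
    have h3 : ((P + Q : ℕ) : ℤ) ∣ ((m + 1) * P : ℕ) := ⟨j, by push_cast at h2 ⊢; linarith⟩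
    rw [Int.natCast_dvd_natCast] at h3
    exact (Nat.Coprime.dvd_of_dvd_mul_right (by simpa using hc.symm) h3)

theorem root_span (hP : 0 < P) (hQ : 0 < Q) (hc : Nat.Coprime P Q) {z : ℂ} {n : ℕ} {ψ : HS}
    (h : RootKer (aa P Q) z n ψ) :
    ψ ∈ Submodule.span ℂ (Psi P Q '' {i | lamJ P Q i = z}) := by
  have ha := aa_mem hP hQ
  by_cases hz : z = 0
  · subst hz
    obtain ⟨A, hA⟩ := root_zero ha h
    have h1 := cos_mem_P (P := P) (Q := Q) 0
    have h2 : ((wP P Q * (0 : ℤ) : ℝ) : ℂ) ^ 2 = 0 := by simp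
    rw [h2] at h1
    have h3 : ψ = A • cl (fe ((wP P Q * (0 : ℤ) : ℝ) : ℂ) 1 0 0 0 0) (fe_cont _ _ _ _ _ _) := by
      rw [hA, ← cl_fe_smul]
      exact cl_congr _ _ fun x => by simp [fe]
    rw [h3]
    exact Submodule.smul_mem _ _ h1
  obtain ⟨k, hk⟩ := IsAlgClosed.exists_pow_nat_eq z (n := 2) two_pos
  have hk0 : k ≠ 0 := by
    rintro rfl
    exact hz (by rw [← hk]; simp)
  by_cases hs : Complex.sin (k * (π / 2 : ℝ)) = 0
  · rw [Complex.sin_eq_zero_iff] at hs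
    obtain ⟨j, hj⟩ := hs
    have hkj : k = 2 * j := by
      have hπ : (π : ℂ) ≠ 0 := by exact_mod_cast pi_pos.ne'
      have : k * π = 2 * j * π := by
        push_cast at hj
        linear_combination 2 * hj
      exact mul_right_cancel₀ hπ this
    have hj0 : j.natAbs ≠ 0 := by
      intro h0
      apply hk0
      rw [hkj, Int.natAbs_eq_zero.mp h0]; simp
    obtain ⟨m, hm⟩ := Nat.exists_eq_succ_of_ne_zero hj0
    set k' : ℂ := ((2 * (m + 1 : ℕ) : ℝ) : ℂ) with hk'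
    have hzk : z = k' ^ 2 := by
      rw [← hk, hkj, hk']
      have h2 : ((j.natAbs : ℕ) : ℝ) ^ 2 = (j : ℝ) ^ 2 := by
        rw [Nat.cast_natAbs]; push_cast; exact sq_abs _
      rw [hm] at h2
      have h3 : (2 * (j : ℝ)) ^ 2 = (2 * (m + 1 : ℕ)) ^ 2 := by
        rw [mul_pow, mul_pow, ← h2]
      exact_mod_cast h3
    have hk'0 : k' ≠ 0 := by
      rintro h0
      exact hz (by rw [hzk, h0]; simp)
    have hs' : Complex.sin (k' * (π / 2 : ℝ)) = 0 := by
      have := sin_two m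
      rw [hk']
      exact_mod_cast this
    rw [hzk] at h ⊢
    by_cases hcc : Complex.cos (k' * (π / 2 : ℝ)) = Complex.cos (k' * (π / 2 * aa P Q : ℝ))
    · have hreal : cos (2 * (m + 1 : ℕ) * (π / 2)) = cos (2 * (m + 1 : ℕ) * (π / 2 * aa P Q)) := by
        rw [hk'] at hcc
        exact_mod_cast hcc
      obtain ⟨r, hr⟩ := dvd_of_cos hP hQ hc hreal
      obtain ⟨s, rfl⟩ : ∃ s, r = s + 1 := Nat.exists_eq_succ_of_ne_zero (by
        rintro rfl
        simp at hr)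
      obtain ⟨A, B, C, hψ⟩ := root_four ha hk'0 hs' hcc h
      have k0 : k' = ((w0 P Q * (s + 1 : ℕ) : ℝ) : ℂ) := by
        rw [hk', hr]
        unfold w0
        push_cast
        ring
      have kP : k' = ((wP P Q * (P * (s + 1) : ℕ) : ℝ) : ℂ) := by
        rw [k0, w0_eq_wP (Q := Q) hP]
        push_cast
        ring
      have m1 : Psi P Q (.inr (.inl (P * (s + 1)))) ∈
          Submodule.span ℂ (Psi P Q '' {i | lamJ P Q i = k' ^ 2}) := by
        refine Psi_mem _ ?_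
        rw [kP]; rfl
      have m2 : Psi P Q (.inl m) ∈ Submodule.span ℂ (Psi P Q '' {i | lamJ P Q i = k' ^ 2}) :=
        Psi_mem _ rfl
      have m3 : Psi P Q (.inr (.inr (.inr s))) ∈
          Submodule.span ℂ (Psi P Q '' {i | lamJ P Q i = k' ^ 2}) := by
        refine Psi_mem _ ?_
        rw [k0]; rfl
      have hcO : cO P Q m = 0 := by
        unfold cO
        rw [if_pos]
        rw [← aa_bb]
        exact hreal.symm
      have e1 : Psi P Q (.inr (.inl (P * (s + 1)))) =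
          cl (fe k' 1 0 0 0 0) (fe_cont _ _ _ _ _ _) := by rw [Psi_P, kP]
      have e2 : Psi P Q (.inl m) = cl (fe k' 0 1 0 0 0) (fe_cont _ _ _ _ _ _) := by
        rw [Psi_O, hk', hcO]
        simp
      have e3 : Psi P Q (.inr (.inr (.inr s))) =
          cl (fe k' 0 0 1 0 0) (fe_cont _ _ _ _ _ _) := by rw [Psi_G, k0]
      have e4 : ψ = A • Psi P Q (.inr (.inl (P * (s + 1)))) + (B • Psi P Q (.inl m) +
          C • Psi P Q (.inr (.inr (.inr s)))) := by
        have f1 : C • cl (fe k' 0 0 1 0 0) (fe_cont _ _ _ _ _ _) =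
            cl (fe k' 0 0 C 0 0) (fe_cont _ _ _ _ _ _) := by
          have h := cl_smul_add (fe k' 0 0 1 0 0) (fe k' 0 0 0 0 0) (fe_cont _ _ _ _ _ _)
            (fe_cont _ _ _ _ _ _) C ((continuous_const.mul (fe_cont _ _ _ _ _ _)).add
            (fe_cont _ _ _ _ _ _))
          rw [cl_fe_zero, add_zero] at h
          rw [h]
          exact cl_congr _ _ fun x => by unfold fe; ring
        have f2 : B • cl (fe k' 0 1 0 0 0) (fe_cont _ _ _ _ _ _) +
            cl (fe k' 0 0 C 0 0) (fe_cont _ _ _ _ _ _) =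
            cl (fe k' 0 B C 0 0) (fe_cont _ _ _ _ _ _) := by
          rw [cl_smul_add _ _ _ _ B ((continuous_const.mul (fe_cont _ _ _ _ _ _)).add
            (fe_cont _ _ _ _ _ _))]
          exact cl_congr _ _ fun x => by unfold fe; ring
        have f3 : A • cl (fe k' 1 0 0 0 0) (fe_cont _ _ _ _ _ _) +
            cl (fe k' 0 B C 0 0) (fe_cont _ _ _ _ _ _) =
            cl (fe k' A B C 0 0) (fe_cont _ _ _ _ _ _) := by
          rw [cl_smul_add _ _ _ _ A ((continuous_const.mul (fe_cont _ _ _ _ _ _)).add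
            (fe_cont _ _ _ _ _ _))]
          exact cl_congr _ _ fun x => by unfold fe; ring
        rw [e1, e2, e3, f1, f2, f3, hψ]
      rw [e4]
      exact Submodule.add_mem _ (Submodule.smul_mem _ _ m1)
        (Submodule.add_mem _ (Submodule.smul_mem _ _ m2) (Submodule.smul_mem _ _ m3))
    · obtain ⟨B, hψ⟩ := root_three ha hk'0 hs' hcc h
      have hne : ¬ cos (2 * (m + 1 : ℕ) * bb P Q) = cos (2 * (m + 1 : ℕ) * (π / 2)) := by
        intro h0
        apply hcc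
        rw [← aa_bb] at h0
        rw [hk']
        exact_mod_cast h0.symm
      have hcO : ((cO P Q m : ℝ) : ℂ) = Complex.sin (k' * (π / 2 * aa P Q : ℝ)) /
          (Complex.cos (k' * (π / 2 : ℝ)) - Complex.cos (k' * (π / 2 * aa P Q : ℝ))) := by
        unfold cO
        rw [if_neg hne, ← aa_bb, hk']
        push_cast
        rfl
      have e1 : ψ = B • Psi P Q (.inl m) := by
        have f1 : B • cl (fe k' (cO P Q m) 1 0 0 0) (fe_cont _ _ _ _ _ _) =
            cl (fe k' (B * (cO P Q m)) B 0 0 0) (fe_cont _ _ _ _ _ _) := by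
          have h := cl_smul_add (fe k' (cO P Q m) 1 0 0 0) (fe k' 0 0 0 0 0)
            (fe_cont _ _ _ _ _ _) (fe_cont _ _ _ _ _ _) B
            ((continuous_const.mul (fe_cont _ _ _ _ _ _)).add (fe_cont _ _ _ _ _ _))
          rw [cl_fe_zero, add_zero] at h
          rw [h]
          exact cl_congr _ _ fun x => by unfold fe; ring
        rw [Psi_O, ← hk', f1, hψ]
        refine cl_congr _ _ fun x => ?_
        rw [hcO]
      rw [e1]
      exact Submodule.smul_mem _ _ (Psi_mem _ rfl)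
  · rw [← hk] at h ⊢
    by_cases hcc : Complex.cos (k * (π / 2 : ℝ)) = Complex.cos (k * (π / 2 * aa P Q : ℝ))
    · obtain ⟨A, hA⟩ := root_two ha hk0 hs hcc h
      rw [hA, cl_fe_smul]
      refine Submodule.smul_mem _ _ ?_
      obtain ⟨j, rfl | rfl⟩ := freq hP hQ hcc
      · exact cos_mem_Q hP hQ j
      · exact cos_mem_P j
    · rw [root_one ha hk0 hs hcc h]
      exact Submodule.zero_mem _

theorem Psi_linInd (hP : 0 < P) (hQ : 0 < Q) (hc : Nat.Coprime P Q) :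
    LinearIndependent ℂ (Psi P Q) := by
  obtain ⟨c, C, hc0, -, h⟩ := riesz_complex hP hQ hc
  rw [linearIndependent_iff']
  intro s g hg i hi
  have h1 := (h s g).1
  rw [hg, norm_zero] at h1
  have h2 : ∑ i ∈ s, ‖g i‖ ^ 2 ≤ 0 := by
    by_contra h3
    push Not at h3
    have := mul_pos hc0 h3
    linarith
  have h3 : ‖g i‖ ^ 2 ≤ 0 :=
    (single_le_sum (f := fun i => ‖g i‖ ^ 2) (fun j _ => sq_nonneg ‖g j‖) hi).trans h2
  have h4 : ‖g i‖ = 0 := by nlinarith [norm_nonneg (g i)]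
  exact norm_eq_zero.mp h4

theorem main (hP : 0 < P) (hQ : 0 < Q) (hc : Nat.Coprime P Q) :
    ∃ (Ψ : ℕ → HS) (lam : ℕ → ℂ), IsRootSystem (aa P Q) Ψ lam ∧
      (∃ c C : ℝ, 0 < c ∧ ∀ (F : Finset ℕ) (t : ℕ → ℂ),
        c * ∑ i ∈ F, ‖t i‖ ^ 2 ≤ ‖∑ i ∈ F, t i • Ψ i‖ ^ 2 ∧
        ‖∑ i ∈ F, t i • Ψ i‖ ^ 2 ≤ C * ∑ i ∈ F, ‖t i‖ ^ 2) ∧
      ∀ f : HS, ∃! t : ℕ → ℂ, Tendsto (fun n => ∑ i ∈ range n, t i • Ψ i) atTop (𝓝 f) := by
  obtain ⟨c, C, hc0, hC0, h⟩ := riesz_complex hP hQ hc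
  obtain ⟨hden⟩ := nonempty_denumerable (JJ Q)
  let e : ℕ ≃ JJ Q := (Denumerable.eqv (JJ Q)).symm
  have hR : ∀ (F : Finset ℕ) (t : ℕ → ℂ),
        c * ∑ i ∈ F, ‖t i‖ ^ 2 ≤ ‖∑ i ∈ F, t i • Psi P Q (e i)‖ ^ 2 ∧
        ‖∑ i ∈ F, t i • Psi P Q (e i)‖ ^ 2 ≤ C * ∑ i ∈ F, ‖t i‖ ^ 2 := by
    intro F t
    have h1 := h (F.map e.toEmbedding) (fun j => t (e.symm j))
    simpa [sum_map] using h1
  refine ⟨fun i => Psi P Q (e i), fun i => lamJ P Q (e i), ?_, ⟨c, C, hc0, hR⟩, ?_⟩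
  · intro z
    have himg : (fun i => Psi P Q (e i)) '' {i | lamJ P Q (e i) = z} =
        Psi P Q '' {i | lamJ P Q i = z} := by
      ext ψ
      constructor
      · rintro ⟨i, hi, rfl⟩
        exact ⟨e i, hi, rfl⟩
      · rintro ⟨j, hj, rfl⟩
        exact ⟨e.symm j, by simpa using hj, by simp⟩
    refine ⟨(Psi_linInd hP hQ hc).comp (fun i : {i : ℕ // lamJ P Q (e i) = z} => e i)
      fun i j hij => Subtype.ext (e.injective hij), fun ψ => ?_⟩
    rw [himg]
    constructor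
    · intro hψ
      refine span_root ?_ hψ
      rintro _ ⟨j, hj, rfl⟩
      have hj' : lamJ P Q j = z := hj
      rw [← hj']
      exact Psi_root hP hQ j
    · rintro ⟨k, hk⟩
      exact root_span hP hQ hc hk
  · intro f
    refine schauder_of_riesz _ hc0 hC0 (fun F t => (hR F t).1) (fun F t => (hR F t).2) ?_ f
    have hr : Set.range (fun i => Psi P Q (e i)) = Set.range (Psi P Q) :=
      e.surjective.range_comp (Psi P Q)
    rw [hr]
    exact dense_span hP hQ hc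

end Pool.Agent.R945.RB
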